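import Pool.Agent.Mg.F06f5adq.G7c20c1

set_option linter.all false

section

open Polynomial UniqueFactorizationMonoid

namespace Pool.Agent.MP_06f5ad_nt

lemma exists_factor (R : ℤ[X]) (hR : 1 ≤ R.natDegree)
    (h : ¬ Irreducible (R.map (Int.castRingHom ℚ))) :
    ∃ f g : ℤ[X], R = f * g ∧ 1 ≤ f.natDegree ∧ 1 ≤ g.natDegree := by
  have hR0 : R ≠ 0 := by rintro rfl; simp at hR
  have hc : R.content ≠ 0 := fun h => hR0 (content_eq_zero_iff.mp h)
  have hprim := R.isPrimitive_primPart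
  have hni : ¬ Irreducible R.primPart := by
    intro hi
    apply h
    have h1 := (IsPrimitive.Int.irreducible_iff_irreducible_map_cast hprim).mp hi
    conv => arg 1; arg 2; rw [R.eq_C_content_mul_primPart]
    rw [Polynomial.map_mul, map_C, irreducible_isUnit_mul]
    · exact h1
    · exact isUnit_C.mpr (isUnit_iff_ne_zero.mpr (by simpa using hc))
  have hnu : ¬ IsUnit R.primPart := by
    intro hu
    have := natDegree_eq_zero_of_isUnit hu
    rw [natDegree_primPart] at this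
    omega
  rw [irreducible_iff] at hni
  push Not at hni
  obtain ⟨f, g, hfg, hf, hg⟩ := hni hnu
  have key : ∀ f : ℤ[X], f ∣ R.primPart → ¬ IsUnit f → 1 ≤ f.natDegree := by
    intro f hf hu
    by_contra h0
    have h1 : f.natDegree = 0 := by omega
    rw [eq_C_of_natDegree_eq_zero h1] at hf hu
    exact hu (isUnit_C.mpr (isPrimitive_iff_isUnit_of_C_dvd.mp hprim _ hf))
  refine ⟨C R.content * f, g, ?_, ?_, key g ⟨f, by rw [hfg, mul_comm]⟩ hg⟩
  · rw [mul_assoc, ← hfg]; exact R.eq_C_content_mul_primPart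
  · rw [natDegree_C_mul hc]; exact key f ⟨g, hfg⟩ hf

lemma card_normalizedFactors_le {F : Type*} [Field F] [DecidableEq F] (R : F[X]) (hR : R ≠ 0) :
    Multiset.card (normalizedFactors R) ≤ R.natDegree := by
  have h1 := natDegree_eq_of_degree_eq (degree_eq_degree_of_associated (prod_normalizedFactors hR))
  rw [← h1, natDegree_multiset_prod _ (fun h => (irreducible_of_normalized_factor _ h).ne_zero rfl)]
  have : ∀ x ∈ (normalizedFactors R).map natDegree, 1 ≤ x := by
    intro x hx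
    obtain ⟨f, hf, rfl⟩ := Multiset.mem_map.mp hx
    exact (irreducible_of_normalized_factor _ hf).natDegree_pos
  have h2 := Multiset.card_nsmul_le_sum this
  simpa using h2

lemma eq_of_associated_of_lc {F : Type*} [Field F] {f g : F[X]} (h : Associated f g)
    (hlc : f.leadingCoeff = g.leadingCoeff) : f = g := by
  obtain ⟨u, rfl⟩ := h
  by_cases hf : f = 0
  · simp [hf]
  obtain ⟨r, -, hr⟩ := isUnit_iff.mp u.isUnit
  rw [← hr, leadingCoeff_mul, leadingCoeff_C] at hlc
  have : r = 1 := by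
    have h1 := leadingCoeff_ne_zero.mpr hf
    exact (mul_eq_left₀ h1).mp hlc.symm
  rw [← hr, this, C_1, mul_one]

lemma C_dvd_of_map_zmod {p : ℕ} {f g : ℤ[X]}
    (h : f.map (Int.castRingHom (ZMod p)) = g.map (Int.castRingHom (ZMod p))) :
    C (p : ℤ) ∣ f - g := by
  rw [C_dvd_iff_dvd_coeff]
  intro i
  have := congrArg (fun g => g.coeff i) h
  simp only [coeff_map, eq_intCast] at this
  rw [coeff_sub, ← ZMod.intCast_zmod_eq_zero_iff_dvd]
  push_cast
  rw [this, sub_self]

lemma padic_nil (p : ℕ) [Fact p.Prime] (w : ℤ_[p]) (hw : w ≠ 0) :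
    ∃ N : ℕ, w ∣ (p : ℤ_[p]) ^ N := by
  refine ⟨w.valuation, ((PadicInt.unitCoeff hw)⁻¹ : ℤ_[p]ˣ), ?_⟩
  nth_rewrite 2 [PadicInt.unitCoeff_spec hw]
  rw [mul_comm, ← mul_assoc, Units.inv_mul, one_mul]

lemma padic_unit (p : ℕ) [Fact p.Prime] (a : ℤ) (ha : ¬ (p : ℤ) ∣ a) : IsUnit (a : ℤ_[p]) := by
  rw [PadicInt.isUnit_iff]
  refine le_antisymm (PadicInt.norm_le_one _) (not_lt.mp fun h => ha ?_)
  exact (PadicInt.norm_int_lt_one_iff_dvd a).mp h

lemma hit_core (n I : ℕ) (hn : 1 ≤ n) (R0 V : ℤ[X]) (hR0 : R0.natDegree = n)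
    (hV : V.natDegree ≤ n) (hcop : Cop R0 V) (p : ℕ) [hp : Fact p.Prime]
    (hpa : ¬ (p : ℤ) ∣ R0.coeff n) (A B : ℤ[X]) (D : ℤ)
    (hD : R0 * A + derivative R0 * B = C D) (hpD : ¬ (p : ℤ) ∣ D) (K : ℕ) (hK : 1 ≤ K) (S : ℝ)
    (hS : 1 ≤ S) (hbound : ∀ k < K, 2 ^ n * mm (R0 + C ((p : ℤ) * k) * V) ≤ S)
    (hpb : ((2 * (I + 1)).factorial : ℝ) * (K : ℝ) ^ I * S < (p : ℝ) ^ (I + 1))
    (Bd : Finset ℕ) (hBd : ∀ k ∈ Bd, k < K ∧
      ¬ Irreducible ((R0 + C ((p : ℤ) * k) * V).map (Int.castRingHom ℚ))) :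
    Bd.card ≤ 2 ^ n * (2 * n * I + I + 2) := by
  classical
  by_contra hcon
  push Not at hcon
  set R : ℕ → ℤ[X] := fun k => R0 + C ((p : ℤ) * k) * V with hR
  have hRc : ∀ k, (R k).coeff n = R0.coeff n + (p : ℤ) * k * V.coeff n := by
    intro k
    simp only [hR]
    rw [coeff_add, coeff_C_mul]
  have hpa' : ∀ k, ¬ (p : ℤ) ∣ (R k).coeff n := by
    intro k h
    rw [hRc, mul_assoc] at h
    exact hpa ((dvd_add_left (Dvd.intro _ rfl)).mp h)
  have ha0 : ∀ k, (R k).coeff n ≠ 0 := fun k h => hpa' k (h ▸ dvd_zero _)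
  have hRd : ∀ k, (R k).natDegree = n := by
    intro k
    refine le_antisymm ?_ (le_natDegree_of_ne_zero (ha0 k))
    exact (natDegree_add_le _ _).trans (max_le hR0.le ((natDegree_C_mul_le _ _).trans hV))
  have hV0 : V ≠ 0 := by
    rintro rfl
    have h1 : (R0.map (Int.castRingHom ℂ)).degree ≠ 0 := by
      intro h
      have := natDegree_eq_of_degree_eq_some (n := 0) h
      rw [natDegree_map_eq_of_injective (Int.castRingHom ℂ).injective_int] at this
      omega
    obtain ⟨β, hβ⟩ := IsAlgClosed.exists_root _ h1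
    refine hcop β ?_ (by simp)
    rw [aeval_def, ← eval_map]
    exact hβ
  have hex : ∀ k, ∃ φ γ : ℤ[X], k ∈ Bd → φ * γ = C ((R k).coeff n) * R k ∧
      φ.leadingCoeff = (R k).coeff n ∧ γ.leadingCoeff = (R k).coeff n ∧
      1 ≤ φ.natDegree ∧ 1 ≤ γ.natDegree ∧ φ.natDegree + γ.natDegree = n ∧
      mm φ ≤ mm (R k) ∧ mm γ ≤ mm (R k) := by
    intro k
    by_cases hk : k ∈ Bd
    swap
    · exact ⟨0, 0, fun h => absurd h hk⟩
    obtain ⟨f, g, hfg, hf, hg⟩ := exists_factor (R k) (by rw [hRd]; exact hn) (hBd k hk).2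
    have hf0 : f ≠ 0 := by rintro rfl; simp at hf
    have hg0 : g ≠ 0 := by rintro rfl; simp at hg
    have hlc : (R k).coeff n = f.leadingCoeff * g.leadingCoeff := by
      rw [← leadingCoeff_mul, ← hfg, leadingCoeff, hRd]
    have hf1 := leadingCoeff_ne_zero.mpr hf0
    have hg1 := leadingCoeff_ne_zero.mpr hg0
    refine ⟨C g.leadingCoeff * f, C f.leadingCoeff * g, fun _ => ⟨?_, ?_, ?_, ?_, ?_, ?_, ?_, ?_⟩⟩
    · rw [hlc, C_mul]
      conv_rhs => rw [hfg]
      ring
    · rw [leadingCoeff_mul, leadingCoeff_C, hlc, mul_comm]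
    · rw [leadingCoeff_mul, leadingCoeff_C, hlc]
    · rwa [natDegree_C_mul hg1]
    · rwa [natDegree_C_mul hf1]
    · rw [natDegree_C_mul hg1, natDegree_C_mul hf1, ← natDegree_mul hf0 hg0, ← hfg, hRd]
    · rw [hfg, mm_mul, mm_mul, mm_C, mul_comm]
      exact mul_le_mul_of_nonneg_left (lc_le_mm g) (mm_nonneg f)
    · rw [hfg, mm_mul, mm_mul, mm_C]
      exact mul_le_mul_of_nonneg_right (lc_le_mm f) (mm_nonneg g)
  choose φ γ hφγ using hex
  set c := Int.castRingHom (ZMod p) with hc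
  have hRbar : ∀ k, (R k).map c = R0.map c := by
    intro k
    simp [hR, Polynomial.map_add, Polynomial.map_mul, hc]
  set abar : ZMod p := c (R0.coeff n) with habar
  have habar0 : abar ≠ 0 := by
    rw [habar, hc, eq_intCast, Ne, ZMod.intCast_zmod_eq_zero_iff_dvd]
    exact hpa
  have hca : ∀ k, c ((R k).coeff n) = abar := by
    intro k
    rw [← coeff_map, hRbar, coeff_map]
  have hRb0 : R0.map c ≠ 0 := by
    intro h
    apply habar0
    rw [habar, ← coeff_map, h, coeff_zero]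
  have hprodbar : ∀ k ∈ Bd, (φ k).map c * (γ k).map c = C abar * R0.map c := by
    intro k hk
    rw [← Polynomial.map_mul, (hφγ k hk).1, Polynomial.map_mul, map_C, hRbar, hca]
  have hne : ∀ k ∈ Bd, (φ k).map c * (γ k).map c ≠ 0 := by
    intro k hk
    rw [hprodbar k hk]
    exact mul_ne_zero (C_ne_zero.mpr habar0) hRb0
  have hφd : ∀ k ∈ Bd, ((φ k).map c).natDegree = (φ k).natDegree := by
    intro k hk
    apply natDegree_map_of_leadingCoeff_ne_zero
    rw [(hφγ k hk).2.1, hca]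
    exact habar0
  have hφl : ∀ k ∈ Bd, ((φ k).map c).leadingCoeff = abar := by
    intro k hk
    rw [leadingCoeff, hφd k hk, coeff_map, ← leadingCoeff, (hφγ k hk).2.1, hca]
  obtain ⟨y, -, hy⟩ := Finset.exists_lt_card_fiber_of_mul_lt_card_of_maps_to
    (s := Bd) (t := (normalizedFactors (R0.map c)).powerset.toFinset)
    (f := fun k => normalizedFactors ((φ k).map c)) (n := 2 * n * I + I + 2) (by
      intro k hk
      rw [Multiset.mem_toFinset, Multiset.mem_powerset,
        ← dvd_iff_normalizedFactors_le_normalizedFactors (left_ne_zero_of_mul (hne k hk)) hRb0]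
      have : (φ k).map c ∣ C abar * R0.map c := ⟨_, (hprodbar k hk).symm⟩
      exact (isUnit_C.mpr (isUnit_iff_ne_zero.mpr habar0)).dvd_mul_left.mp this) (by
      refine lt_of_le_of_lt (Nat.mul_le_mul_right _ ?_) hcon
      refine (Multiset.toFinset_card_le _).trans ?_
      rw [Multiset.card_powerset]
      exact Nat.pow_le_pow_right (by norm_num)
        ((card_normalizedFactors_le _ hRb0).trans (natDegree_map_le.trans hR0.le)))
  set s := Bd.filter (fun k => normalizedFactors ((φ k).map c) = y) with hs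
  have hsB : ∀ k ∈ s, k ∈ Bd := fun k hk => (Finset.mem_filter.mp hk).1
  have hφeq : ∀ k ∈ s, ∀ l ∈ s, (φ k).map c = (φ l).map c := by
    intro k hk l hl
    apply eq_of_associated_of_lc
    · rw [associated_iff_normalizedFactors_eq_normalizedFactors
        (left_ne_zero_of_mul (hne k (hsB k hk))) (left_ne_zero_of_mul (hne l (hsB l hl))),
        (Finset.mem_filter.mp hk).2, (Finset.mem_filter.mp hl).2]
    · rw [hφl k (hsB k hk), hφl l (hsB l hl)]
  have hγeq : ∀ k ∈ s, ∀ l ∈ s, (γ k).map c = (γ l).map c := by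
    intro k hk l hl
    apply mul_left_cancel₀ (left_ne_zero_of_mul (hne k (hsB k hk)))
    rw [hprodbar k (hsB k hk), hφeq k hk l hl, hprodbar l (hsB l hl)]
  obtain ⟨k0, hk0⟩ : s.Nonempty := Finset.card_pos.mp (by omega)
  set d := (φ k0).natDegree with hd
  have hφdeg : ∀ k ∈ s, (φ k).natDegree = d := by
    intro k hk
    rw [← hφd k (hsB k hk), hφeq k hk k0 hk0, hφd k0 (hsB k0 hk0)]
  have hγdeg : ∀ k ∈ s, (γ k).natDegree = n - d := by
    intro k hk
    have := (hφγ k (hsB k hk)).2.2.2.2.2.1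
    rw [hφdeg k hk] at this
    omega
  have hbez : ∀ k ∈ s, ∃ A' B' E : ℤ[X], A' * φ k + B' * γ k = 1 + C (p : ℤ) * E := by
    intro k hk
    have hcD : c D ≠ 0 := by
      rw [hc, eq_intCast, Ne, ZMod.intCast_zmod_eq_zero_iff_dvd]
      exact hpD
    have h1 := congrArg (Polynomial.map c) hD
    rw [Polynomial.map_add, Polynomial.map_mul, Polynomial.map_mul, map_C, ← derivative_map] at h1
    have h2 := hprodbar k (hsB k hk)
    have h3 := congrArg derivative h2
    rw [derivative_mul, derivative_C_mul] at h3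
    have h4 : (C (abar * c D)⁻¹ * ((γ k).map c * A.map c + derivative ((γ k).map c) * B.map c)) *
        (φ k).map c + (C (abar * c D)⁻¹ * (derivative ((φ k).map c) * B.map c)) * (γ k).map c
        = 1 := by
      have h5 : C (abar * c D)⁻¹ * (C abar * C (c D)) = (1 : (ZMod p)[X]) := by
        rw [← C_mul, ← C_mul, inv_mul_cancel₀ (mul_ne_zero habar0 hcD), C_1]
      rw [← h5, ← h1]
      linear_combination (C (abar * c D)⁻¹ * A.map c) * h2 + (C (abar * c D)⁻¹ * B.map c) * h3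
    have hsurj := Polynomial.map_surjective c (ZMod.ringHom_surjective c)
    obtain ⟨A', hA'⟩ := hsurj
      (C (abar * c D)⁻¹ * ((γ k).map c * A.map c + derivative ((γ k).map c) * B.map c))
    obtain ⟨B', hB'⟩ := hsurj (C (abar * c D)⁻¹ * (derivative ((φ k).map c) * B.map c))
    have h6 : (A' * φ k + B' * γ k).map c = (1 : ℤ[X]).map c := by
      rw [Polynomial.map_add, Polynomial.map_mul, Polynomial.map_mul, hA', hB', h4,
        Polynomial.map_one]
    obtain ⟨E, hE⟩ := C_dvd_of_map_zmod h6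
    exact ⟨A', B', E, by linear_combination hE⟩
  set e := Int.castRingHom ℤ_[p] with he
  have hCp : ∀ f g : ℤ[X], C (p : ℤ) ∣ f - g → C (p : ℤ_[p]) ∣ f.map e - g.map e := by
    intro f g h
    have := Polynomial.map_dvd e h
    rwa [map_C, Polynomial.map_sub, he, eq_intCast, Int.cast_natCast] at this
  have haev : ∀ k : ℕ, (C (e (R0.coeff n)) + X * C (e (V.coeff n))).eval ((p : ℤ_[p]) * (k : ℤ)) =
      e ((R k).coeff n) := by
    intro k
    rw [hRc]
    simp [he]
  obtain ⟨F, G, -, -, hF, hG⟩ := interp (p : ℤ_[p]) (padic_nil p)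
    (fun k : ℕ => (p : ℤ_[p]) * (k : ℤ)) (fun k => (φ k).map e) (fun k => (γ k).map e)
    (C (e (R0.coeff n)) + X * C (e (V.coeff n)))
    (C (C (e (R0.coeff n)) + X * C (e (V.coeff n))) * ((R0.map e).map C + C X * (V.map e).map C))
    d (n - d) s
    (by
      intro k _ l _ h
      have h1 : (p : ℤ_[p]) ≠ 0 := by exact_mod_cast hp.out.ne_zero
      have h2 := mul_left_cancel₀ h1 h
      exact_mod_cast h2)
    (fun k _ => Dvd.intro _ rfl)
    (fun k hk => natDegree_map_le.trans (hφdeg k hk).le)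
    (fun k hk => natDegree_map_le.trans (hγdeg k hk).le)
    (by
      intro k hk
      rw [haev, coeff_map, ← hφdeg k hk, ← leadingCoeff, (hφγ k (hsB k hk)).2.1])
    (by
      intro k hk
      rw [haev, coeff_map, ← hγdeg k hk, ← leadingCoeff, (hφγ k (hsB k hk)).2.2.1])
    (by
      intro k hk
      rw [haev]
      exact padic_unit p _ (hpa' k))
    (by
      intro k hk
      rw [← Polynomial.map_mul, (hφγ k (hsB k hk)).1, Polynomial.map_mul, Polynomial.map_mul,
        map_C, map_C, coe_evalRingHom, haev, Polynomial.map_add (evalRingHom _),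
        Polynomial.map_mul (evalRingHom _), map_C_map_eval, map_C_map_eval, map_C]
      simp [hR, he, Polynomial.map_add, Polynomial.map_mul])
    (fun k hk l hl => hCp _ _ (C_dvd_of_map_zmod (hφeq k hk l hl)))
    (fun k hk l hl => hCp _ _ (C_dvd_of_map_zmod (hγeq k hk l hl)))
    (by
      intro k hk
      obtain ⟨A', B', E, h⟩ := hbez k hk
      refine ⟨A'.map e, B'.map e, E.map e, ?_⟩
      have := congrArg (Polynomial.map e) h
      simpa [Polynomial.map_add, Polynomial.map_mul, he] using this)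
  have hrel : ∀ (F : ℤ_[p][X][X]) (φ : ℕ → ℤ[X]),
      (∀ k ∈ s, F.map (evalRingHom ((p : ℤ_[p]) * (k : ℤ))) = (φ k).map e) →
      (∀ k ∈ s, (φ k).natDegree ≤ n) → (∀ k ∈ s, mm (φ k) ≤ mm (R k)) →
      ∀ j : ℕ, ∃ a b : ℚ[X], a.natDegree ≤ I ∧ b.natDegree ≤ I ∧ (a ≠ 0 ∨ b ≠ 0) ∧
        ∀ k ∈ s, a.eval ((p : ℚ) * (k : ℤ)) + b.eval ((p : ℚ) * (k : ℤ)) *
          ((φ k).map (Int.castRingHom ℚ)).coeff j = 0 := by
    intro F φ h1 h2 h3 j
    obtain ⟨a, b, ha, hb, hab, h⟩ := exists_relation p I s (fun k : ℕ => (k : ℤ))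
      (fun k => (φ k).coeff j) (F.coeff j) (by
        intro k hk
        have := congrArg (fun g => g.coeff j) (h1 k hk)
        simpa [coeff_map, he] using this) K S (by exact_mod_cast hK) hS (by
        intro k hk
        have := (hBd k (hsB k hk)).1.le
        simp only [Int.cast_natCast, Nat.abs_cast]
        exact_mod_cast this) (by
        intro k hk
        refine (coeff_le _ _).trans ((supNorm_le_mm (h2 k hk)).trans ?_)
        refine le_trans ?_ (hbound k (hBd k (hsB k hk)).1)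
        exact mul_le_mul_of_nonneg_left (h3 k hk) (by positivity)) hpb
    refine ⟨a, b, ha, hb, hab, fun k hk => ?_⟩
    rw [coeff_map, eq_intCast]
    exact h k hk
  have hd1 : 1 ≤ d := (hφγ k0 (hsB k0 hk0)).2.2.2.1
  have hd2 : d < n := by
    have h1 := (hφγ k0 (hsB k0 hk0)).2.2.2.2.1
    have h2 := (hφγ k0 (hsB k0 hk0)).2.2.2.2.2.1
    omega
  set q := Int.castRingHom ℚ with hq
  have hqi : Function.Injective q := q.injective_int
  have haq : ∀ k : ℕ, (C (q (R0.coeff n)) + X * C (q (V.coeff n))).eval ((p : ℚ) * (k : ℤ)) =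
      q ((R k).coeff n) := by
    intro k
    rw [hRc]
    simp [hq]
  have hRq : ∀ k : ℕ, R0.map q + C ((p : ℚ) * (k : ℤ)) * V.map q = (R k).map q := by
    intro k
    simp [hR, hq, Polynomial.map_add, Polynomial.map_mul]
  refine no_many_factor s (fun k : ℕ => (p : ℚ) * (k : ℤ)) ?_ I n hy (R0.map q) (V.map q)
    (C (q (R0.coeff n)) + X * C (q (V.coeff n))) ((Polynomial.map_ne_zero_iff hqi).mpr hV0)
    hcop.isCoprime (by compute_degree) (fun k => (φ k).map q) (fun k => (γ k).map q)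
    (fun k hk => natDegree_map_le.trans_lt (by rw [hφdeg k hk]; exact hd2))
    (fun k hk => natDegree_map_le.trans_lt (by rw [hγdeg k hk]; omega)) ?_ ?_ ?_
    (hrel F φ hF (fun k hk => by rw [hφdeg k hk]; exact hd2.le)
      (fun k hk => (hφγ k (hsB k hk)).2.2.2.2.2.2.1))
    (hrel G γ hG (fun k hk => by rw [hγdeg k hk]; omega)
      (fun k hk => (hφγ k (hsB k hk)).2.2.2.2.2.2.2))
  · intro k _ l _ h
    have h1 : (p : ℚ) ≠ 0 := by exact_mod_cast hp.out.ne_zero
    have h2 := mul_left_cancel₀ h1 h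
    exact_mod_cast h2
  · intro k _
    rw [haq]
    exact (map_ne_zero_iff q hqi).mpr (ha0 k)
  · intro k _
    rw [hRq, natDegree_map_eq_of_injective hqi, hRd]
  · intro k hk
    rw [haq, hRq, ← Polynomial.map_mul, (hφγ k (hsB k hk)).1, Polynomial.map_mul, map_C]

end Pool.Agent.MP_06f5ad_nt

end

section

open Polynomial

namespace Pool.Agent.MP_06f5ad_nt

lemma exists_prime_not_dvd (c : ℕ) : ∀ (P0 : ℕ) (D : ℤ), 1 ≤ P0 → D ≠ 0 → |D| < (P0 : ℤ) ^ c →
    ∃ p : ℕ, p.Prime ∧ P0 < p ∧ p ≤ 2 ^ c * P0 ∧ ¬ (p : ℤ) ∣ D := by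
  induction c with
  | zero =>
    intro P0 D _ hD h
    have := Int.one_le_abs hD
    simp at h
    omega
  | succ c ih =>
    intro P0 D hP hD h
    obtain ⟨p, hp, h1, h2⟩ := Nat.exists_prime_lt_and_le_two_mul P0 (by omega)
    by_cases hpD : (p : ℤ) ∣ D
    · obtain ⟨D', rfl⟩ := hpD
      have hD' : D' ≠ 0 := right_ne_zero_of_mul hD
      have h3 : |D'| < ((2 * P0 : ℕ) : ℤ) ^ c := by
        rw [abs_mul, Nat.abs_cast, pow_succ] at h
        have h4 : (P0 : ℤ) ^ c ≤ ((2 * P0 : ℕ) : ℤ) ^ c := by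
          apply pow_le_pow_left₀ (by positivity)
          push_cast
          omega
        have h5 : (P0 : ℤ) < p := by exact_mod_cast h1
        have h6 : (0 : ℤ) < P0 := by exact_mod_cast hP
        have h7 : (0 : ℤ) < (P0 : ℤ) ^ c := by positivity
        have h8 := abs_nonneg D'
        nlinarith
      obtain ⟨p', hp', h4, h5, h6⟩ := ih (2 * P0) D' (by omega) hD' h3
      refine ⟨p', hp', by omega, by rw [pow_succ]; nlinarith, fun h7 => ?_⟩
      rcases (Nat.prime_iff_prime_int.mp hp').dvd_or_dvd h7 with h8 | h8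
      · have := (Nat.prime_dvd_prime_iff_eq hp' hp).mp (Int.natCast_dvd_natCast.mp h8)
        omega
      · exact h6 h8
    · refine ⟨p, hp, h1, h2.trans ?_, hpD⟩
      rw [pow_succ]
      have : 1 ≤ 2 ^ c := Nat.one_le_two_pow
      nlinarith

lemma aeval_C_int (β : ℂ) (a : ℤ) : aeval β (C a : ℤ[X]) = (a : ℂ) := by
  rw [aeval_C]; simp

lemma exists_t0 (n : ℕ) (hn : 1 ≤ n) (U V : ℤ[X]) (hU : U.natDegree = n) (hV : V.natDegree ≤ n)
    (hcop : Cop U V) : ∃ t : ℕ, t ≤ 2 * n + 1 ∧ (U + C (t : ℤ) * V).coeff n ≠ 0 ∧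
      Cop (U + C (t : ℤ) * V) (derivative (U + C (t : ℤ) * V)) := by
  classical
  have hW : wronskian U V ≠ 0 := by
    intro h
    have h1 : wronskian (U.map (Int.castRingHom ℚ)) (V.map (Int.castRingHom ℚ)) = 0 := by
      have := congrArg (Polynomial.map (Int.castRingHom ℚ)) h
      simpa [wronskian, derivative_map] using this
    have h2 := (hcop.isCoprime.wronskian_eq_zero_iff.mp h1).1
    have h3 := derivative_eq_zero.mp h2
    rw [natDegree_map_eq_of_injective (Int.castRingHom ℚ).injective_int] at h3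
    omega
  have hWd : (wronskian U V).natDegree ≤ 2 * n := by
    have := natDegree_wronskian_lt_add hW
    omega
  obtain ⟨t, ht, htS⟩ := exists_nat_notMem (insert (-(U.coeff n : ℂ) / (V.coeff n : ℂ))
    (((wronskian U V).aroots ℂ).toFinset.image fun β => - aeval β U / aeval β V))
  refine ⟨t, ?_, ?_, ?_⟩
  · refine ht.trans ((Finset.card_insert_le _ _).trans ?_)
    have := (Finset.card_image_le (f := fun β : ℂ => - aeval β U / aeval β V)).trans
      (card_aroots_le (wronskian U V))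
    omega
  · intro h
    apply htS
    rw [coeff_add, coeff_C_mul] at h
    have hU0 : U.coeff n ≠ 0 := by
      rw [← hU]
      apply leadingCoeff_ne_zero.mpr
      rintro rfl
      simp at hU
      omega
    have hV0 : V.coeff n ≠ 0 := by
      intro h0
      rw [h0] at h
      simp at h
      exact hU0 h
    have h1 : (U.coeff n : ℂ) + t * (V.coeff n : ℂ) = 0 := by exact_mod_cast h
    have h2 : (V.coeff n : ℂ) ≠ 0 := by exact_mod_cast hV0
    have : (t : ℂ) = -(U.coeff n : ℂ) / (V.coeff n : ℂ) := by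
      field_simp
      linear_combination h1
    rw [this]
    exact Finset.mem_insert_self _ _
  · intro β h1 h2
    apply htS
    rw [derivative_add, derivative_C_mul] at h2
    rw [map_add, map_mul, aeval_C_int] at h1 h2
    push_cast at h1 h2
    have hVβ : aeval β V ≠ 0 := by
      intro h0
      rw [h0] at h1
      exact hcop β (by simpa using h1) h0
    refine Finset.mem_insert_of_mem (Finset.mem_image.mpr ⟨β, mem_aroots_of hW ?_, ?_⟩)
    · rw [wronskian, map_sub, map_mul, map_mul]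
      linear_combination aeval β (derivative V) * h1 - aeval β V * h2
    · field_simp
      linear_combination -h1

lemma supNorm_derivative_le {P : ℤ[X]} {n : ℕ} (h : P.natDegree ≤ n) :
    (derivative P).supNorm ≤ n * P.supNorm := by
  apply supNorm_le
  intro i
  rw [coeff_derivative]
  by_cases hi : i + 1 ≤ n
  · push_cast
    rw [abs_mul, mul_comm]
    have h1 : |(i : ℝ) + 1| ≤ n := by
      rw [abs_of_nonneg (by positivity)]
      exact_mod_cast hi
    exact mul_le_mul h1 (coeff_le P _) (abs_nonneg _) (by positivity)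
  · rw [coeff_eq_zero_of_natDegree_lt (by omega)]
    simpa using mul_nonneg (Nat.cast_nonneg n) P.supNorm_nonneg

lemma abs_resultant_le (f g : ℤ[X]) (m k N : ℕ) (hN : m + k ≤ N) (B : ℝ) (hB : 1 ≤ B)
    (hf : f.supNorm ≤ B) (hg : g.supNorm ≤ B) :
    |((resultant f g m k : ℤ) : ℝ)| ≤ (N.factorial : ℝ) * B ^ N := by
  have h2 : ((resultant f g m k : ℤ) : ℝ) = ((sylvester f g m k).map (Int.castRingHom ℝ)).det := by
    rw [← RingHom.mapMatrix_apply, ← RingHom.map_det]; rfl
  rw [h2]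
  have h3 := abs_det_le ((sylvester f g m k).map (Int.castRingHom ℝ)) (fun _ => B) (fun _ => 1) (by
    intro i j
    rw [mul_one, Matrix.map_apply, sylvester, Matrix.of_apply]
    refine Fin.addCases (fun j => ?_) (fun j => ?_) j
    · rw [Fin.addCases_left]
      split_ifs
      · exact (coeff_le _ _).trans hg
      · simpa using zero_le_one.trans hB
    · rw [Fin.addCases_right]
      split_ifs
      · exact (coeff_le _ _).trans hf
      · simpa using zero_le_one.trans hB)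
  refine h3.trans ?_
  simp only [Fintype.card_fin, Finset.prod_const, Finset.card_univ, one_pow, mul_one]
  gcongr

lemma exists_bezout (n : ℕ) (hn : 1 ≤ n) (R : ℤ[X]) (hR : R.natDegree = n)
    (hc : Cop R (derivative R)) (B : ℝ) (hB : 1 ≤ B) (hRB : R.supNorm ≤ B) :
    ∃ (A A' : ℤ[X]) (D : ℤ), D ≠ 0 ∧ R * A + derivative R * A' = C D ∧
      |(D : ℝ)| ≤ ((2 * n).factorial : ℝ) * (n * B) ^ (2 * n) := by
  obtain ⟨A, A', -, -, h⟩ := exists_mul_add_mul_eq_C_resultant R (derivative R) le_rfl le_rfl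
    (Or.inl (by omega))
  have hn' : (1 : ℝ) ≤ n := by exact_mod_cast hn
  refine ⟨A, A', _, ?_, h, ?_⟩
  · intro h0
    have h1 := resultant_map_map R (derivative R) R.natDegree (derivative R).natDegree
      (Int.castRingHom ℚ)
    rw [h0, map_zero, ← natDegree_map_eq_of_injective (Int.castRingHom ℚ).injective_int R,
      ← natDegree_map_eq_of_injective (Int.castRingHom ℚ).injective_int (derivative R)] at h1
    exact (resultant_eq_zero_iff.mp h1).2 hc.isCoprime
  · apply abs_resultant_le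
    · have := natDegree_derivative_le R
      omega
    · nlinarith
    · nlinarith
    · exact (supNorm_derivative_le hR.le).trans (by gcongr)

/-- uniform Hilbert irreducibility for pencils -/
theorem hit (n I : ℕ) (hn : 1 ≤ n) (hI : 1 ≤ I) : ∃ c : ℝ, 1 ≤ c ∧ ∀ (U V : ℤ[X]) (x : ℝ),
    1 ≤ x → U.natDegree = n → V.natDegree ≤ n → Cop U V → U.supNorm ≤ x ^ I →
    V.supNorm ≤ x ^ I → ∃ t₁ t₂ : ℕ, t₁ ≠ t₂ ∧ ∀ t : ℕ, t = t₁ ∨ t = t₂ →
      (t : ℝ) ≤ c * x ∧ (U + C (t : ℤ) * V).natDegree = n ∧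
        Irreducible ((U + C (t : ℤ) * V).map (Int.castRingHom ℚ)) := by
  classical
  set K : ℕ := 2 ^ n * (2 * n * I + I + 2) + 2 with hK
  have hK1 : 1 ≤ K := by omega
  have hK1' : (1 : ℝ) ≤ K := by exact_mod_cast hK1
  set C1 : ℝ := 2 ^ n * (n + 1) * (2 * n + 2 + K) with hC1
  have hC1' : 1 ≤ C1 := by
    have h1 : (1 : ℝ) ≤ 2 ^ n := one_le_pow₀ (by norm_num)
    have h2 : (1 : ℝ) ≤ n + 1 := by linarith [Nat.cast_nonneg (α := ℝ) n]
    have h3 : (1 : ℝ) ≤ 2 * n + 2 + K := by linarith [Nat.cast_nonneg (α := ℝ) n]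
    exact one_le_mul_of_one_le_of_one_le (one_le_mul_of_one_le_of_one_le h1 h2) h3
  set C2 : ℝ := 2 * (((2 * (I + 1)).factorial : ℝ) * (K : ℝ) ^ I * C1) with hC2
  have hF : (1 : ℝ) ≤ ((2 * (I + 1)).factorial : ℝ) := by exact_mod_cast Nat.factorial_pos _
  have hC2' : 2 ≤ C2 := by
    have : 1 ≤ ((2 * (I + 1)).factorial : ℝ) * (K : ℝ) ^ I * C1 :=
      one_le_mul_of_one_le_of_one_le (one_le_mul_of_one_le_of_one_le hF (one_le_pow₀ hK1')) hC1'
    linarith
  set C3 : ℝ := ((2 * n).factorial : ℝ) * (n : ℝ) ^ (2 * n) * (2 * n + 2) ^ (2 * n + 1) with hC3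
  obtain ⟨c3, hc3⟩ := pow_unbounded_of_one_lt C3 (by norm_num : (1 : ℝ) < 2)
  set c : ℕ := I * (2 * n + 1) + c3 with hc
  refine ⟨2 * n + 1 + 2 ^ c * (2 * C2) * K, ?_, ?_⟩
  · have : (0 : ℝ) ≤ 2 * n + 2 ^ c * (2 * C2) * K := by positivity
    linarith
  intro U V x hx hU hV hcop hUx hVx
  set H := x ^ I with hH
  have hH1 : 1 ≤ H := one_le_pow₀ hx
  obtain ⟨t0, ht0, ha0, hsep⟩ := exists_t0 n hn U V hU hV hcop
  set R0 := U + C (t0 : ℤ) * V with hR0
  have hR0d : R0.natDegree = n := by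
    refine le_antisymm ?_ (le_natDegree_of_ne_zero ha0)
    exact (natDegree_add_le _ _).trans (max_le hU.le ((natDegree_C_mul_le _ _).trans hV))
  have ht0' : (t0 : ℝ) ≤ 2 * n + 1 := by exact_mod_cast ht0
  have hR0n : R0.supNorm ≤ (2 * n + 2) * H := by
    refine (supNorm_add_le _ _).trans ?_
    have h1 := supNorm_C_mul_le (t0 : ℤ) V
    simp only [Int.cast_natCast, Nat.abs_cast] at h1
    have h2 : (t0 : ℝ) * V.supNorm ≤ (2 * n + 1) * H :=
      mul_le_mul ht0' hVx V.supNorm_nonneg (by positivity)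
    linarith
  have hcop0 : Cop R0 V := by
    intro β h1 h2
    rw [hR0, map_add, map_mul, h2, mul_zero, add_zero] at h1
    exact hcop β h1 h2
  have hB1 : (1 : ℝ) ≤ (2 * n + 2) * H :=
    one_le_mul_of_one_le_of_one_le (by linarith [Nat.cast_nonneg (α := ℝ) n]) hH1
  obtain ⟨A, A', D, hD0, hD, hDb⟩ := exists_bezout n hn R0 hR0d hsep _ hB1 hR0n
  set P0 : ℕ := ⌈C2 * x⌉₊ with hP0
  have hP0l : C2 * x ≤ P0 := Nat.le_ceil _
  have hC2x : 2 ≤ C2 * x := by nlinarith
  have hP0u : (P0 : ℝ) ≤ 2 * C2 * x := by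
    have := (Nat.ceil_lt_add_one (by linarith : 0 ≤ C2 * x)).le
    linarith
  have hxP : x ≤ P0 := by nlinarith
  have h2P : (2 : ℝ) ≤ P0 := by linarith
  have hP01 : 1 ≤ P0 := by
    have : (1 : ℝ) ≤ P0 := by linarith
    exact_mod_cast this
  obtain ⟨p, hp, hp1, hp2, hpD⟩ := exists_prime_not_dvd c P0 (D * R0.coeff n) hP01
    (mul_ne_zero hD0 ha0) (by
      have h1 : |((D * R0.coeff n : ℤ) : ℝ)| < (P0 : ℝ) ^ c := by
        push_cast
        rw [abs_mul]
        have h2 := (coeff_le R0 n).trans hR0n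
        calc |(D : ℝ)| * |(R0.coeff n : ℝ)|
            ≤ (((2 * n).factorial : ℝ) * (n * ((2 * n + 2) * H)) ^ (2 * n)) * ((2 * n + 2) * H) := by
              gcongr
          _ = C3 * H ^ (2 * n + 1) := by rw [hC3, mul_pow, mul_pow, pow_succ, pow_succ]; ring
          _ < 2 ^ c3 * H ^ (2 * n + 1) := by gcongr
          _ ≤ (P0 : ℝ) ^ c3 * ((P0 : ℝ) ^ I) ^ (2 * n + 1) := by rw [hH]; gcongr
          _ = (P0 : ℝ) ^ c := by rw [hc, ← pow_mul, ← pow_add, add_comm]
      exact_mod_cast h1)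
  have : Fact p.Prime := ⟨hp⟩
  have hp1' : (P0 : ℝ) < p := by exact_mod_cast hp1
  have hp2' : (p : ℝ) ≤ 2 ^ c * P0 := by exact_mod_cast hp2
  have hp3 : (1 : ℝ) ≤ p := by linarith
  have hcore := hit_core n I hn R0 V hR0d hV hcop0 p (fun h => hpD (Dvd.dvd.mul_left h _)) A A' D
    hD (fun h => hpD (Dvd.dvd.mul_right h _)) K hK1 (C1 * H * p)
    (one_le_mul_of_one_le_of_one_le (one_le_mul_of_one_le_of_one_le hC1' hH1) hp3) (by
      intro k hk
      have hk' : (k : ℝ) ≤ K := by exact_mod_cast hk.le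
      have h1 : (R0 + C ((p : ℤ) * k) * V).natDegree ≤ n :=
        (natDegree_add_le _ _).trans (max_le hR0d.le ((natDegree_C_mul_le _ _).trans hV))
      have h2 := mm_le_supNorm h1
      have h3 : (R0 + C ((p : ℤ) * k) * V).supNorm ≤ (2 * n + 2 + K) * H * p := by
        refine (supNorm_add_le _ _).trans ?_
        have h4 := supNorm_C_mul_le ((p : ℤ) * k) V
        simp only [Int.cast_mul, Int.cast_natCast, abs_mul, Nat.abs_cast] at h4
        have h5 : (p : ℝ) * k * V.supNorm ≤ p * K * H := by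
          have := V.supNorm_nonneg
          gcongr
        have h6 : (2 * n + 2) * H ≤ (2 * n + 2) * H * p := le_mul_of_one_le_right (by positivity) hp3
        nlinarith
      calc 2 ^ n * mm (R0 + C ((p : ℤ) * k) * V) ≤ 2 ^ n * ((n + 1) * ((2 * n + 2 + K) * H * p)) := by
            gcongr
            exact h2.trans (by gcongr)
        _ = C1 * H * p := by rw [hC1]; ring) (by
      have h1 : C2 * H ≤ (p : ℝ) ^ I := by
        calc C2 * H ≤ C2 ^ I * x ^ I := by
              gcongr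
              exact le_self_pow₀ (by linarith) (by omega)
          _ = (C2 * x) ^ I := (mul_pow _ _ _).symm
          _ ≤ (p : ℝ) ^ I := by gcongr; linarith
      have h2 : 0 < C2 * H * p := by positivity
      calc ((2 * (I + 1)).factorial : ℝ) * (K : ℝ) ^ I * (C1 * H * p) = C2 * H * p / 2 := by
            rw [hC2]; ring
        _ < C2 * H * p := by linarith
        _ ≤ (p : ℝ) ^ I * p := by gcongr
        _ = (p : ℝ) ^ (I + 1) := by rw [pow_succ])
    ((Finset.range K).filter fun k : ℕ =>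
      ¬ Irreducible ((R0 + C ((p : ℤ) * k) * V).map (Int.castRingHom ℚ)))
    (fun k hk => ⟨Finset.mem_range.mp (Finset.mem_filter.mp hk).1, (Finset.mem_filter.mp hk).2⟩)
  have hgood : 1 < ((Finset.range K).filter fun k : ℕ =>
      Irreducible ((R0 + C ((p : ℤ) * k) * V).map (Int.castRingHom ℚ))).card := by
    have := Finset.card_filter_add_card_filter_not (s := Finset.range K) (fun k : ℕ =>
      Irreducible ((R0 + C ((p : ℤ) * k) * V).map (Int.castRingHom ℚ)))
    rw [Finset.card_range] at this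
    omega
  obtain ⟨k₁, hk₁, k₂, hk₂, hne⟩ := Finset.one_lt_card.mp hgood
  have key : ∀ k ∈ (Finset.range K).filter fun k : ℕ =>
      Irreducible ((R0 + C ((p : ℤ) * k) * V).map (Int.castRingHom ℚ)),
      ((t0 + p * k : ℕ) : ℝ) ≤ (2 * n + 1 + 2 ^ c * (2 * C2) * K) * x ∧
      (U + C ((t0 + p * k : ℕ) : ℤ) * V).natDegree = n ∧
        Irreducible ((U + C ((t0 + p * k : ℕ) : ℤ) * V).map (Int.castRingHom ℚ)) := by
    intro k hk
    obtain ⟨hk1, hk2⟩ := Finset.mem_filter.mp hk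
    have hk' : (k : ℝ) ≤ K := by exact_mod_cast (Finset.mem_range.mp hk1).le
    have e : U + C ((t0 + p * k : ℕ) : ℤ) * V = R0 + C ((p : ℤ) * k) * V := by
      rw [hR0]
      push_cast
      rw [C_add]
      ring
    rw [e]
    refine ⟨?_, ?_, hk2⟩
    · push_cast
      have h1 : (p : ℝ) * k ≤ (2 ^ c * (2 * C2 * x)) * K := by
        gcongr
        exact hp2'.trans (by gcongr)
      have h2 : (2 * n + 1 : ℝ) ≤ (2 * n + 1) * x := le_mul_of_one_le_right (by positivity) hx
      nlinarith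
    · refine le_antisymm
        ((natDegree_add_le _ _).trans (max_le hR0d.le ((natDegree_C_mul_le _ _).trans hV)))
        (le_natDegree_of_ne_zero fun h => hpD (Dvd.dvd.mul_left ?_ _))
      rw [coeff_add, coeff_C_mul] at h
      exact ⟨-(k * V.coeff n), by linear_combination h⟩
  refine ⟨t0 + p * k₁, t0 + p * k₂, ?_, ?_⟩
  · intro h
    have := Nat.eq_of_mul_eq_mul_left hp.pos (Nat.add_left_cancel h)
    exact hne this
  · rintro t (rfl | rfl)
    · exact key k₁ hk₁
    · exact key k₂ hk₂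

end Pool.Agent.MP_06f5ad_nt

end

section

open Polynomial

namespace Pool.Agent.MP_06f5ad_nt

lemma abs_aeval_le {P : ℤ[X]} {n : ℕ} (h : P.natDegree ≤ n) {y ρ : ℝ} (hρ : 1 ≤ ρ) (hy : |y| ≤ ρ) :
    |aeval y P| ≤ (n + 1) * ρ ^ n * P.supNorm := by
  rw [aeval_eq_sum_range' (Nat.lt_succ_of_le h)]
  refine (Finset.abs_sum_le_sum_abs _ _).trans ?_
  have : ∀ i ∈ Finset.range (n + 1), |P.coeff i • y ^ i| ≤ ρ ^ n * P.supNorm := by
    intro i hi
    rw [zsmul_eq_mul, abs_mul, abs_pow, mul_comm]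
    have h1 : |y| ^ i ≤ ρ ^ n :=
      (pow_le_pow_left₀ (abs_nonneg _) hy i).trans
        (pow_le_pow_right₀ hρ (Nat.lt_succ_iff.mp (Finset.mem_range.mp hi)))
    exact mul_le_mul h1 (coeff_le P i) (abs_nonneg _) (by positivity)
  refine (Finset.sum_le_card_nsmul _ _ _ this).trans ?_
  rw [Finset.card_range, nsmul_eq_mul]
  push_cast
  exact le_of_eq (by ring)

lemma hasDerivAt_aeval' (P : ℤ[X]) (y : ℝ) :
    HasDerivAt (fun y : ℝ => aeval y P) (aeval y (derivative P)) y := P.hasDerivAt_aeval y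

/-- a real root close to the point -/
lemma exists_root_near (P : ℤ[X]) (ξ B : ℝ) (hB : 0 < B)
    (h1 : |aeval ξ (derivative P)| ≤ B)
    (h2 : ∀ y : ℝ, |y - ξ| ≤ 1 → |aeval y (derivative (derivative P))| ≤ B)
    (h0 : aeval ξ (derivative P) ≠ 0)
    (h3 : 4 * B * |aeval ξ P| ≤ (aeval ξ (derivative P)) ^ 2) :
    ∃ α : ℝ, aeval α P = 0 ∧ |ξ - α| * |aeval ξ (derivative P)| ≤ 2 * |aeval ξ P| := by
  set a := aeval ξ P with ha
  set d := aeval ξ (derivative P) with hd
  have hd0 : 0 < |d| := abs_pos.mpr h0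
  set σ := 2 * |a| / |d| with hσ
  have hσ0 : 0 ≤ σ := by positivity
  have hσd : σ * |d| = 2 * |a| := by rw [hσ]; field_simp
  have hBσ : 2 * B * σ ≤ |d| := by
    have : 2 * B * σ * |d| ≤ |d| * |d| := by
      rw [mul_assoc, hσd, abs_mul_abs_self]; nlinarith
    exact le_of_mul_le_mul_right this hd0
  have hσ1 : σ ≤ 1 := by nlinarith
  have step1 : ∀ y ∈ Set.Icc (ξ - σ) (ξ + σ), ‖aeval y (derivative P) - d‖ ≤ B * σ := by
    intro y hy
    have := Convex.norm_image_sub_le_of_norm_hasDerivWithin_le (𝕜 := ℝ)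
      (f := fun y : ℝ => aeval y (derivative P))
      (f' := fun y : ℝ => aeval y (derivative (derivative P))) (C := B)
      (s := Set.Icc (ξ - σ) (ξ + σ)) (x := ξ) (y := y)
      (fun z _ => (hasDerivAt_aeval' _ z).hasDerivWithinAt)
      (fun z hz => h2 z (by rw [abs_le]; constructor <;> linarith [hz.1, hz.2]))
      (convex_Icc _ _) ⟨by linarith, by linarith⟩ hy
    refine this.trans (mul_le_mul_of_nonneg_left ?_ hB.le)
    rw [Real.norm_eq_abs, abs_le]
    constructor <;> linarith [hy.1, hy.2]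
  have step2 : ∀ y ∈ Set.Icc (ξ - σ) (ξ + σ),
      |(aeval y P - d * y) - (a - d * ξ)| ≤ B * σ * σ := by
    intro y hy
    have := Convex.norm_image_sub_le_of_norm_hasDerivWithin_le (𝕜 := ℝ)
      (f := fun y : ℝ => aeval y P - d * y)
      (f' := fun y : ℝ => aeval y (derivative P) - d) (C := B * σ)
      (s := Set.Icc (ξ - σ) (ξ + σ)) (x := ξ) (y := y)
      (fun z _ => by
        have := ((hasDerivAt_aeval' P z).fun_sub ((hasDerivAt_id' z).const_mul d))
        rw [mul_one] at this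
        exact this.hasDerivWithinAt)
      step1 (convex_Icc _ _) ⟨by linarith, by linarith⟩ hy
    refine this.trans (mul_le_mul_of_nonneg_left ?_ (by positivity))
    rw [Real.norm_eq_abs, abs_le]
    constructor <;> linarith [hy.1, hy.2]
  have e1 := abs_le.mp (step2 (ξ + σ) ⟨by linarith, le_rfl⟩)
  have e2 := abs_le.mp (step2 (ξ - σ) ⟨le_rfl, by linarith⟩)
  have e3 : B * σ * σ ≤ |a| := by nlinarith
  have hcont : ContinuousOn (fun y : ℝ => aeval y P) (Set.Icc (ξ - σ) (ξ + σ)) :=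
    fun z _ => (hasDerivAt_aeval' P z).continuousAt.continuousWithinAt
  have hfin : ∀ α ∈ Set.Icc (ξ - σ) (ξ + σ), |ξ - α| * |d| ≤ 2 * |a| := by
    intro α hα
    rw [← hσd]
    refine mul_le_mul_of_nonneg_right ?_ hd0.le
    rw [abs_le]
    constructor <;> linarith [hα.1, hα.2]
  have ha1 := le_abs_self a
  have ha2 := neg_abs_le a
  rcases lt_or_gt_of_ne h0 with hneg | hpos
  · rw [abs_of_neg hneg] at hσd
    obtain ⟨α, hα, h⟩ := intermediate_value_Icc' (by linarith : ξ - σ ≤ ξ + σ) hcont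
      (show (0 : ℝ) ∈ Set.Icc _ _ from ⟨by nlinarith [e1.2], by nlinarith [e2.1]⟩)
    exact ⟨α, h, hfin α hα⟩
  · rw [abs_of_pos hpos] at hσd
    obtain ⟨α, hα, h⟩ := intermediate_value_Icc (by linarith : ξ - σ ≤ ξ + σ) hcont
      (show (0 : ℝ) ∈ Set.Icc _ _ from ⟨by nlinarith [e2.2], by nlinarith [e1.1]⟩)
    exact ⟨α, h, hfin α hα⟩

/-- the approximation hypothesis in exact degree -/
def Hyp (n : ℕ) (ξ W c : ℝ) : Prop := ∀ (R : ℤ[X]) (α : ℝ), R.natDegree = n →
  Irreducible (R.map (Int.castRingHom ℚ)) → aeval α R = 0 → c ≤ |ξ - α| * R.supNorm ^ W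

/-- level of a polynomial -/
def Lev (ξ q L : ℝ) (A : ℤ[X]) : Prop :=
  A.supNorm ≤ Real.exp L ∧ |aeval ξ A| ≤ Real.exp (L - q)

lemma Lev.mono {ξ q L L' : ℝ} {A : ℤ[X]} (h : Lev ξ q L A) (hL : L ≤ L') : Lev ξ q L' A :=
  ⟨h.1.trans (Real.exp_le_exp.mpr hL), h.2.trans (Real.exp_le_exp.mpr (by linarith))⟩

lemma Lev.nonneg {ξ q L : ℝ} {A : ℤ[X]} (h : Lev ξ q L A) (hA : A ≠ 0) : 0 ≤ L := by
  have := (one_le_supNorm hA).trans h.1
  exact Real.one_le_exp_iff.mp this

lemma Lev.add_mul {ξ q L t : ℝ} {A B : ℤ[X]} (hA : Lev ξ q L A) (hB : Lev ξ q L B) {s : ℤ}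
    (hs : 1 + |(s : ℝ)| ≤ Real.exp t) : Lev ξ q (L + t) (A + C s * B) := by
  constructor
  · refine (supNorm_add_le _ _).trans ?_
    have h1 := supNorm_C_mul_le s B
    have h2 : |(s : ℝ)| * B.supNorm ≤ |(s : ℝ)| * Real.exp L := by gcongr; exact hB.1
    rw [Real.exp_add]
    have := hA.1
    have := Real.exp_pos L
    nlinarith
  · rw [map_add, map_mul, aeval_C]
    refine (abs_add_le _ _).trans ?_
    rw [abs_mul, show L + t - q = (L - q) + t by ring, Real.exp_add]
    have h2 : |(s : ℝ)| * |aeval ξ B| ≤ |(s : ℝ)| * Real.exp (L - q) := by gcongr; exact hB.2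
    have := hA.2
    have := Real.exp_pos (L - q)
    simp only [algebraMap_int_eq, eq_intCast]
    nlinarith

lemma Lev.C_mul {ξ q L t : ℝ} {B : ℤ[X]} (hB : Lev ξ q L B) {s : ℤ}
    (hs : |(s : ℝ)| ≤ Real.exp t) : Lev ξ q (L + t) (C s * B) := by
  constructor
  · refine (supNorm_C_mul_le s B).trans ?_
    rw [Real.exp_add, mul_comm]
    exact mul_le_mul hB.1 hs (abs_nonneg _) (Real.exp_pos _).le
  · rw [map_mul, aeval_C, abs_mul, show L + t - q = (L - q) + t by ring, Real.exp_add, mul_comm]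
    simp only [algebraMap_int_eq, eq_intCast]
    exact mul_le_mul hB.2 hs (abs_nonneg _) (Real.exp_pos _).le

lemma exists_deriv_const (n : ℕ) (ξ : ℝ) : ∃ B : ℝ, 1 ≤ B ∧ ∀ P : ℤ[X], P.natDegree ≤ n →
    (∀ y : ℝ, |y - ξ| ≤ 1 → |aeval y P| ≤ B * P.supNorm) ∧
    (∀ y : ℝ, |y - ξ| ≤ 1 → |aeval y (derivative P)| ≤ B * P.supNorm) ∧
    (∀ y : ℝ, |y - ξ| ≤ 1 → |aeval y (derivative (derivative P))| ≤ B * P.supNorm) := by
  have hρ : 1 ≤ |ξ| + 1 := by linarith [abs_nonneg ξ]
  have hn : (0 : ℝ) ≤ n := Nat.cast_nonneg n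
  have hB0 : (1 : ℝ) ≤ (n + 1) * (|ξ| + 1) ^ n :=
    one_le_mul_of_one_le_of_one_le (by linarith) (one_le_pow₀ hρ)
  refine ⟨(n + 1) * (|ξ| + 1) ^ n * (n + 1) ^ 2,
    one_le_mul_of_one_le_of_one_le hB0 (one_le_pow₀ (by linarith)), fun P hP => ?_⟩
  have hy : ∀ y : ℝ, |y - ξ| ≤ 1 → |y| ≤ |ξ| + 1 := by
    intro y h
    have := abs_add_le (y - ξ) ξ
    rw [sub_add_cancel] at this
    linarith
  have hP1 : (derivative P).natDegree ≤ n := (natDegree_derivative_le P).trans (by omega)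
  have hP2 : (derivative (derivative P)).natDegree ≤ n :=
    (natDegree_derivative_le _).trans (by omega)
  have h0 := P.supNorm_nonneg
  have h1 := supNorm_derivative_le hP
  have h2 := (supNorm_derivative_le hP1).trans (mul_le_mul_of_nonneg_left h1 hn)
  refine ⟨fun y h => (abs_aeval_le hP hρ (hy y h)).trans ?_,
    fun y h => (abs_aeval_le hP1 hρ (hy y h)).trans ?_,
    fun y h => (abs_aeval_le hP2 hρ (hy y h)).trans ?_⟩
  all_goals
    rw [mul_assoc ((n + 1) * (|ξ| + 1) ^ n)]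
    gcongr
    nlinarith [mul_nonneg hn h0, mul_nonneg hn (mul_nonneg hn h0)]

lemma deriv_irred {n : ℕ} {ξ W c : ℝ} (hW : 0 ≤ W) (hc : 0 < c) (h : Hyp n ξ W c) :
    ∃ C0 : ℝ, 0 ≤ C0 ∧ ∀ (q L : ℝ) (R : ℤ[X]), R.natDegree = n →
      Irreducible (R.map (Int.castRingHom ℚ)) → Lev ξ q L R →
      |aeval ξ (derivative R)| ≤ Real.exp (C0 + L + max (W * L - q) (-q / 2)) := by
  obtain ⟨B, hB, hB'⟩ := exists_deriv_const n ξ
  refine ⟨Real.log (4 * B + 2 / c), Real.log_nonneg (by have := div_pos two_pos hc; linarith), ?_⟩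
  intro q L R hR hirr hL
  have hpos : 0 < 4 * B + 2 / c := by positivity
  have hc2 : 0 < 2 / c := by positivity
  rw [add_assoc, Real.exp_add, Real.exp_log hpos]
  obtain ⟨-, h1, h2⟩ := hB' R hR.le
  have hBL : B * R.supNorm ≤ B * Real.exp L := by gcongr; exact hL.1
  by_cases h0 : aeval ξ (derivative R) = 0
  · rw [h0, abs_zero]; positivity
  by_cases h3 : 4 * (B * Real.exp L) * |aeval ξ R| ≤ (aeval ξ (derivative R)) ^ 2
  · obtain ⟨α, hα, h4⟩ := exists_root_near R ξ (B * Real.exp L) (by positivity)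
      ((h1 ξ (by simp)).trans hBL) (fun y hy => (h2 y hy).trans hBL) h0 h3
    have h5 := h R α hR hirr hα
    have h6 : R.supNorm ^ W ≤ Real.exp (W * L) := by
      rw [mul_comm, Real.exp_mul]
      exact Real.rpow_le_rpow R.supNorm_nonneg hL.1 hW
    have h7 : c * |aeval ξ (derivative R)| ≤ 2 * Real.exp (L - q) * Real.exp (W * L) := by
      calc c * |aeval ξ (derivative R)| ≤ (|ξ - α| * Real.exp (W * L)) * |aeval ξ (derivative R)| := by
            gcongr
            exact h5.trans (by gcongr)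
        _ = (|ξ - α| * |aeval ξ (derivative R)|) * Real.exp (W * L) := by ring
        _ ≤ 2 * Real.exp (L - q) * Real.exp (W * L) := by
            refine mul_le_mul_of_nonneg_right ?_ (Real.exp_pos _).le
            exact h4.trans (by gcongr; exact hL.2)
    calc |aeval ξ (derivative R)| ≤ 2 / c * (Real.exp (L - q) * Real.exp (W * L)) := by
          rw [div_mul_eq_mul_div, le_div_iff₀ hc]
          linarith
      _ = 2 / c * Real.exp (L + (W * L - q)) := by rw [← Real.exp_add]; congr 2; ring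
      _ ≤ (4 * B + 2 / c) * Real.exp (L + max (W * L - q) (-q / 2)) := by
          gcongr
          · linarith
          · exact le_max_left _ _
  · push Not at h3
    have h4 : (aeval ξ (derivative R)) ^ 2 ≤ (4 * B * Real.exp (L + -q / 2)) ^ 2 := by
      refine h3.le.trans ?_
      have e : Real.exp (L + -q / 2) ^ 2 = Real.exp L * Real.exp (L - q) := by
        rw [sq, ← Real.exp_add, ← Real.exp_add]; congr 1; ring
      rw [mul_pow, e]
      have h5 : 4 * (B * Real.exp L) * |aeval ξ R| ≤ 4 * (B * Real.exp L) * Real.exp (L - q) := by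
        gcongr; exact hL.2
      have h6 : 0 < Real.exp L * Real.exp (L - q) := by positivity
      nlinarith [mul_nonneg (mul_nonneg (sub_nonneg.mpr hB) (zero_le_one.trans hB)) h6.le]
    refine (abs_le_of_sq_le_sq h4 (by positivity)).trans ?_
    gcongr
    · linarith
    · exact le_max_right _ _

lemma mm_pow (P : ℤ[X]) (k : ℕ) : mm (P ^ k) = mm P ^ k := by
  induction k with
  | zero => rw [pow_zero, pow_zero, ← C_1, mm_C]; simp
  | succ k ih => rw [pow_succ, pow_succ, mm_mul, ih]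

lemma exists_raise (n : ℕ) (ξ : ℝ) : ∃ C1 : ℝ, 0 ≤ C1 ∧ ∀ (q L : ℝ) (P Q : ℤ[X]), P ≠ 0 → Q ≠ 0 →
    P.natDegree ≤ n → Q.natDegree ≤ n → Cop P Q → Lev ξ q L P →
    ∃ U : ℤ[X], U.natDegree = n ∧ Cop U Q ∧ Lev ξ q (L + C1) U := by
  classical
  have hn : (0 : ℝ) ≤ n := Nat.cast_nonneg n
  set B : ℝ := 2 ^ n * (2 * (n + 1)) ^ n * (n + 1) + (|ξ| + n + 1) ^ n with hB
  have h1 : (1 : ℝ) ≤ (|ξ| + n + 1) ^ n := one_le_pow₀ (by linarith [abs_nonneg ξ])
  have h2 : (0 : ℝ) ≤ 2 ^ n * (2 * (n + 1)) ^ n * (n + 1) := by positivity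
  refine ⟨Real.log B, Real.log_nonneg (by linarith), ?_⟩
  intro q L P Q hP hQ hPn hQn hcop hL
  obtain ⟨s, hs, hsS⟩ := exists_nat_notMem (Q.aroots ℂ).toFinset
  have hs' : (s : ℝ) ≤ n := by exact_mod_cast hs.trans ((card_aroots_le Q).trans hQn)
  have hdeg : ((X - C (s : ℤ)) ^ (n - P.natDegree) * P).natDegree = n := by
    rw [natDegree_mul (pow_ne_zero _ (X_sub_C_ne_zero _)) hP, natDegree_pow, natDegree_X_sub_C]
    omega
  have hBpos : 0 < B := by linarith
  refine ⟨(X - C (s : ℤ)) ^ (n - P.natDegree) * P, hdeg, ?_, ?_, ?_⟩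
  · intro β hβ hβQ
    rw [map_mul, map_pow, map_sub, aeval_X, aeval_C_int] at hβ
    rcases mul_eq_zero.mp hβ with h | h
    · apply hsS
      have : β = s := by simpa using sub_eq_zero.mp (pow_eq_zero_iff'.mp h).1
      rw [← this]
      exact mem_aroots_of hQ hβQ
    · exact hcop β h hβQ
  · rw [Real.exp_add, Real.exp_log hBpos]
    refine (supNorm_le_mm hdeg.le).trans ?_
    rw [mm_mul, mm_pow]
    have h3 : mm (X - C (s : ℤ)) ≤ 2 * (n + 1) := by
      refine (mm_le_supNorm (n := 1) (natDegree_X_sub_C _).le).trans ?_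
      have : (X - C (s : ℤ) : ℤ[X]).supNorm ≤ n + 1 := by
        rw [sub_eq_add_neg, ← C_neg]
        refine (supNorm_add_le _ _).trans ?_
        rw [supNorm_X, supNorm_C, norm_neg, Int.norm_natCast]
        linarith
      push_cast
      linarith
    have h4 : mm (X - C (s : ℤ)) ^ (n - P.natDegree) ≤ (2 * (n + 1)) ^ n :=
      (pow_le_pow_left₀ (mm_nonneg _) h3 _).trans (pow_le_pow_right₀ (by linarith) (by omega))
    have h5 : mm P ≤ (n + 1) * Real.exp L := (mm_le_supNorm hPn).trans (by gcongr; exact hL.1)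
    calc 2 ^ n * (mm (X - C (s : ℤ)) ^ (n - P.natDegree) * mm P)
        ≤ 2 ^ n * ((2 * (n + 1)) ^ n * ((n + 1) * Real.exp L)) := by
          gcongr
          exact mm_nonneg P
      _ = Real.exp L * (2 ^ n * (2 * (n + 1)) ^ n * (n + 1)) := by ring
      _ ≤ Real.exp L * B := by gcongr; linarith
  · rw [show L + Real.log B - q = Real.log B + (L - q) by ring, Real.exp_add, Real.exp_log hBpos,
      map_mul, map_pow, map_sub, aeval_X, aeval_C, abs_mul, abs_pow]
    simp only [algebraMap_int_eq, eq_intCast, Int.cast_natCast]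
    have h3 : |ξ - s| ≤ |ξ| + n + 1 := by
      refine (abs_sub _ _).trans ?_
      rw [Nat.abs_cast]
      linarith
    have h4 : |ξ - s| ^ (n - P.natDegree) ≤ (|ξ| + n + 1) ^ n :=
      (pow_le_pow_left₀ (abs_nonneg _) h3 _).trans
        (pow_le_pow_right₀ (by linarith [abs_nonneg ξ]) (by omega))
    exact mul_le_mul (by linarith) hL.2 (abs_nonneg _) hBpos.le

lemma max_shift {W L L' q : ℝ} (hW : 0 ≤ W) (h : L ≤ L') :
    max (W * L' - q) (-q / 2) ≤ max (W * L - q) (-q / 2) + W * (L' - L) := by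
  have : 0 ≤ W * (L' - L) := mul_nonneg hW (by linarith)
  apply max_le
  · have := le_max_left (W * L - q) (-q / 2); linarith
  · have := le_max_right (W * L - q) (-q / 2); linarith

lemma deriv_pair {n : ℕ} (hn : 1 ≤ n) {ξ W c : ℝ} (hW : 0 ≤ W) (hc : 0 < c) (h : Hyp n ξ W c)
    {ε : ℝ} (hε : 0 < ε) : ∃ C0 : ℝ, 0 ≤ C0 ∧ ∀ (q L : ℝ) (P Q : ℤ[X]), P ≠ 0 →
      P.natDegree ≤ n → Q.natDegree ≤ n → Cop P Q → Lev ξ q L P → Lev ξ q L Q →
      |aeval ξ (derivative Q)| ≤ Real.exp (C0 + ε * L + L + max (W * L - q) (-q / 2)) := by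
  obtain ⟨C0, hC0, h0⟩ := deriv_irred hW hc h
  obtain ⟨C1, hC1, h1⟩ := exists_raise n ξ
  obtain ⟨I, hI⟩ := exists_nat_ge ((1 + W) / ε)
  have hI0 : (0 : ℝ) < I := lt_of_lt_of_le (by positivity) hI
  have hI1 : 1 ≤ I := by exact_mod_cast hI0
  have hI1' : (1 : ℝ) ≤ I := by exact_mod_cast hI1
  obtain ⟨c', hc', h2⟩ := hit n I hn hI1
  have hl : 0 ≤ Real.log (2 * c') := Real.log_nonneg (by linarith)
  refine ⟨C0 + 1 + (1 + W) * (2 * C1 + Real.log (2 * c')), by positivity, ?_⟩
  intro q L P Q hP hPn hQn hcop hLP hLQ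
  by_cases hQ : Q = 0
  · rw [hQ]; simp; positivity
  have hL := hLP.nonneg hP
  obtain ⟨U, hU, hUQ, hLU⟩ := h1 q L P Q hP hQ hPn hQn hcop hLP
  have hLQ' : Lev ξ q (L + C1) Q := hLQ.mono (by linarith)
  set x := Real.exp ((L + C1) / I) with hx
  have hx1 : 1 ≤ x := Real.one_le_exp (by positivity)
  have hxI : x ^ I = Real.exp (L + C1) := by
    rw [hx, ← Real.exp_nat_mul]; congr 1; field_simp
  obtain ⟨t₁, t₂, hne, ht⟩ := h2 U Q x hx1 hU hQn hUQ (hxI ▸ hLU.1) (hxI ▸ hLQ'.1)
  set L' := L + C1 + (Real.log (2 * c') + (L + C1) / I) with hL'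
  have key : ∀ t : ℕ, t = t₁ ∨ t = t₂ → |aeval ξ (derivative U) + t * aeval ξ (derivative Q)| ≤
      Real.exp (C0 + L' + max (W * L' - q) (-q / 2)) := by
    intro t htt
    obtain ⟨h3, h4, h5⟩ := ht t htt
    have h6 := h0 q L' _ h4 h5 (hLU.add_mul hLQ' (by
      rw [Real.exp_add, Real.exp_log (by linarith), ← hx]
      simp only [Int.cast_natCast, Nat.abs_cast]
      nlinarith))
    rw [derivative_add, derivative_C_mul, map_add, map_mul, aeval_C] at h6
    simpa using h6
  have h3 : |aeval ξ (derivative Q)| ≤ 2 * Real.exp (C0 + L' + max (W * L' - q) (-q / 2)) := by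
    have h4 := key t₁ (Or.inl rfl)
    have h5 := key t₂ (Or.inr rfl)
    have h6 : (1 : ℝ) ≤ |(t₁ : ℝ) - t₂| := by
      have : (1 : ℤ) ≤ |(t₁ : ℤ) - t₂| := Int.one_le_abs (by omega)
      exact_mod_cast this
    have h7 : |((t₁ : ℝ) - t₂) * aeval ξ (derivative Q)| ≤
        2 * Real.exp (C0 + L' + max (W * L' - q) (-q / 2)) := by
      have := abs_sub (aeval ξ (derivative U) + t₁ * aeval ξ (derivative Q))
        (aeval ξ (derivative U) + t₂ * aeval ξ (derivative Q))
      rw [show aeval ξ (derivative U) + t₁ * aeval ξ (derivative Q) -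
        (aeval ξ (derivative U) + t₂ * aeval ξ (derivative Q)) =
        ((t₁ : ℝ) - t₂) * aeval ξ (derivative Q) by ring] at this
      linarith
    rw [abs_mul] at h7
    nlinarith [abs_nonneg (aeval ξ (derivative Q))]
  refine h3.trans ?_
  have h4 : (2 : ℝ) ≤ Real.exp 1 := by linarith [Real.add_one_le_exp 1]
  refine (mul_le_mul_of_nonneg_right h4 (Real.exp_pos _).le).trans ?_
  rw [← Real.exp_add, Real.exp_le_exp]
  have h5 : L ≤ L' := by
    have : 0 ≤ (L + C1) / I := by positivity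
    linarith
  have h6 := max_shift (q := q) hW h5
  have h7 : (1 + W) * (L / I) ≤ ε * L := by
    rw [div_le_iff₀ hε] at hI
    rw [mul_div_assoc', div_le_iff₀ hI0]
    nlinarith
  have h8 : C1 / I ≤ C1 := div_le_self hC1 hI1'
  have h9 : L' - L ≤ 2 * C1 + Real.log (2 * c') + L / I := by
    rw [hL', add_div]; linarith
  nlinarith

/-- derivative bound for all small polynomials once a small coprime pair exists -/
theorem deriv_bound {n : ℕ} (hn : 1 ≤ n) {ξ W c : ℝ} (hW : 0 ≤ W) (hc : 0 < c) (h : Hyp n ξ W c)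
    {ε : ℝ} (hε : 0 < ε) : ∃ C0 : ℝ, 0 ≤ C0 ∧ ∀ (q L : ℝ) (P Q A : ℤ[X]), P ≠ 0 →
      P.natDegree ≤ n → Q.natDegree ≤ n → A.natDegree ≤ n → Cop P Q → Lev ξ q L P →
      Lev ξ q L Q → Lev ξ q L A →
      |aeval ξ (derivative A)| ≤ Real.exp (C0 + ε * L + L + max (W * L - q) (-q / 2)) := by
  obtain ⟨C0, hC0, h0⟩ := deriv_pair hn hW hc h hε
  have hn0 : (0 : ℝ) ≤ n := Nat.cast_nonneg n
  refine ⟨C0 + (ε + 2 + W) * n, by positivity, ?_⟩
  intro q L P Q A hP hPn hQn hAn hcop hLP hLQ hLA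
  obtain ⟨s, hs, hcop'⟩ := exists_cop_add hP hcop A
  have hs' : (s : ℝ) ≤ n := by exact_mod_cast hs.trans hPn
  have hexp : 1 + (n : ℝ) ≤ Real.exp n := by linarith [Real.add_one_le_exp (n : ℝ)]
  have h1 := h0 q (L + n) P (A + C (s : ℤ) * Q) hP hPn
    ((natDegree_add_le _ _).trans (max_le hAn ((natDegree_C_mul_le _ _).trans hQn))) hcop'
    (hLP.mono (by linarith)) (hLA.add_mul hLQ (by simp only [Int.cast_natCast, Nat.abs_cast]; linarith))
  have h2 := h0 q (L + n) P Q hP hPn hQn hcop (hLP.mono (by linarith)) (hLQ.mono (by linarith))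
  rw [derivative_add, derivative_C_mul, map_add, map_mul, aeval_C] at h1
  simp only [algebraMap_int_eq, eq_intCast, Int.cast_natCast] at h1
  set E := Real.exp (C0 + ε * (L + n) + (L + n) + max (W * (L + n) - q) (-q / 2)) with hE
  have h3 : |aeval ξ (derivative A)| ≤ (1 + n) * E := by
    have := abs_sub (aeval ξ (derivative A) + s * aeval ξ (derivative Q))
      (s * aeval ξ (derivative Q))
    rw [add_sub_cancel_right, abs_mul, Nat.abs_cast] at this
    have h4 : (s : ℝ) * |aeval ξ (derivative Q)| ≤ n * E := by gcongr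
    linarith
  refine h3.trans ((mul_le_mul_of_nonneg_right hexp (Real.exp_pos _).le).trans ?_)
  rw [← Real.exp_add, Real.exp_le_exp]
  have h6 := max_shift (q := q) hW (show L ≤ L + n by linarith)
  nlinarith

end Pool.Agent.MP_06f5ad_nt

end
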