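import Pool.Agent.Mg.F06f5adq.Ge00c44

set_option linter.all false

section

open Polynomial

namespace Pool.Agent.MP_06f5ad_nt

lemma exists_scale {t : ℝ} (ht : 0 ≤ t) : ∃ N : ℤ, N ≠ 0 ∧ |(N : ℝ)| ≤ Real.exp t ∧
    Real.exp (t - 1) ≤ |(N : ℝ)| := by
  have h1 : 1 ≤ Real.exp t := Real.one_le_exp ht
  have h2 : 1 ≤ ⌊Real.exp t⌋ := Int.le_floor.mpr (by simpa using h1)
  have h3 : (1 : ℝ) ≤ (⌊Real.exp t⌋ : ℝ) := by exact_mod_cast h2
  refine ⟨⌊Real.exp t⌋, by omega, ?_, ?_⟩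
  · rw [abs_of_pos (by linarith)]; exact Int.floor_le _
  · rw [abs_of_pos (by linarith), Real.exp_sub, div_le_iff₀ (Real.exp_pos _)]
    have h4 := Int.lt_floor_add_one (Real.exp t)
    have h5 : (2 : ℝ) ≤ Real.exp 1 := by linarith [Real.add_one_le_exp 1]
    nlinarith

lemma Cop.C_mul {P Q : ℤ[X]} (h : Cop P Q) {a b : ℤ} (ha : a ≠ 0) (hb : b ≠ 0) :
    Cop (C a * P) (C b * Q) := by
  intro β h1 h2
  rw [map_mul, aeval_C_int] at h1 h2
  exact h β ((mul_eq_zero.mp h1).resolve_left (by exact_mod_cast ha))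
    ((mul_eq_zero.mp h2).resolve_left (by exact_mod_cast hb))

/-- derivative bound for unscaled polynomials -/
lemma deriv_family {n : ℕ} (hn : 1 ≤ n) {ξ W c : ℝ} (hW : 0 ≤ W) (hc : 0 < c) (h : Hyp n ξ W c)
    {ε : ℝ} (hε : 0 < ε) : ∃ C0 : ℝ, 0 ≤ C0 ∧ ∀ (q Λ l L : ℝ) (P Q A : ℤ[X]), P ≠ 0 →
      P.natDegree ≤ n → Q.natDegree ≤ n → A.natDegree ≤ n → Cop P Q → Lev ξ q l P →
      Lev ξ q l Q → Lev ξ q L A → l ≤ Λ → L ≤ Λ →
      |aeval ξ (derivative A)| ≤ Real.exp (L + (C0 + ε * Λ + max (W * Λ - q) (-q / 2))) := by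
  obtain ⟨C0, hC0, h0⟩ := deriv_bound hn hW hc h hε
  refine ⟨C0 + 1, by linarith, ?_⟩
  intro q Λ l L P Q A hP hPn hQn hAn hcop hLP hLQ hLA hl hL
  obtain ⟨N, hN0, hN1, -⟩ := exists_scale (sub_nonneg.mpr hl)
  obtain ⟨N', hN'0, hN'1, hN'2⟩ := exists_scale (sub_nonneg.mpr hL)
  have h1 := h0 q Λ (C N * P) (C N * Q) (C N' * A) (mul_ne_zero (C_ne_zero.mpr hN0) hP)
    ((natDegree_C_mul_le _ _).trans hPn) ((natDegree_C_mul_le _ _).trans hQn)
    ((natDegree_C_mul_le _ _).trans hAn) (hcop.C_mul hN0 hN0)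
    (by simpa using hLP.C_mul hN1) (by simpa using hLQ.C_mul hN1) (by simpa using hLA.C_mul hN'1)
  rw [derivative_C_mul, map_mul, aeval_C, abs_mul] at h1
  simp only [algebraMap_int_eq, eq_intCast] at h1
  have h2 := (mul_le_mul_of_nonneg_right hN'2 (abs_nonneg (aeval ξ (derivative A)))).trans h1
  rw [← le_div_iff₀' (Real.exp_pos _), ← Real.exp_sub] at h2
  refine h2.trans (le_of_eq ?_)
  congr 1
  ring

/-- the normalised system of inequalities -/
theorem exists_system {n : ℕ} (hn : 1 ≤ n) {ξ W c : ℝ} (hW : 2 * n ≤ 3 * W) (hc : 0 < c)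
    (hξ : ∀ A : ℤ[X], A ≠ 0 → aeval ξ A ≠ 0) (h : Hyp n ξ W c) {ε : ℝ} (hε : 0 < ε) :
    ∃ L : ℕ → ℝ, L 0 = L 1 ∧ 0 ≤ L 0 ∧ (∀ b < n, L b ≤ L (b + 1)) ∧
      ∑ b ∈ Finset.range (n + 1), L b ≤ 1 + ε ∧ ∀ m, m + 1 ≤ n →
        2 - ε ≤ W * L (n - m) + ∑ b ∈ Finset.range (n + 1 - m), L b + 2 * m * L 1 := by
  have hn0 : (1 : ℝ) ≤ n := by exact_mod_cast hn
  have hW0 : 0 ≤ W := by linarith
  set ε1 := min (ε / 8) 1 / (n + 1) with hε1
  have hm1 := min_le_left (ε / 8) 1
  have hm2 := min_le_right (ε / 8) 1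
  have hm0 : 0 < min (ε / 8) 1 := lt_min (by positivity) one_pos
  have hε1p : 0 < ε1 := by positivity
  have hε1n : (n + 1) * ε1 = min (ε / 8) 1 := by rw [hε1]; field_simp
  have hε1l : ε1 ≤ ε / 16 := by nlinarith
  obtain ⟨C0, hC0, h0⟩ := deriv_family hn hW0 hc h hε1p
  obtain ⟨C1, hC1, h1⟩ := exists_minima n hn ξ
  obtain ⟨C2, hC2, h2⟩ := nrm_shift_le n ξ
  set C3 := Real.log ((2 * n).factorial : ℝ) with hC3
  have hC30 : 0 ≤ C3 := Real.log_nonneg (by exact_mod_cast Nat.factorial_pos _)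
  set C4 := C0 + C1 + C3 + 2 * n * C2 with hC4
  obtain ⟨q, μ, l, P, Q, hq0, -, hP1, hPn, hQn, hcop, hμ, hlμ, hmin, hLP, hLQ⟩ :=
    exists_good n hn ξ hξ hε1p (C1 + 1 + 2 * C4 / ε)
  have hC4ε : 0 ≤ 2 * C4 / ε := by positivity
  have hq1 : 1 ≤ q := by linarith
  have hqp : 0 < q := by linarith
  have hC4q : 2 * C4 ≤ ε * q := by
    have : 2 * C4 / ε ≤ q := by linarith
    rwa [div_le_iff₀' hε] at this
  have hP0 : P ≠ 0 := by rintro rfl; simp at hP1
  obtain ⟨x, L, hx0, hx1, hL0, hL1, hmono, hx, hsum⟩ := h1 q μ l P Q hqp.le hPn hQn hP0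
    (hcop.notMem_span hP1) hμ hmin hLP hLQ
  have hl0 : 0 ≤ l := hLP.nonneg hP0
  have hmono' : ∀ a b, a ≤ b → b ≤ n → L a ≤ L b := by
    intro a b hab hb
    induction b, hab using Nat.le_induction with
    | base => exact le_rfl
    | succ b hab ih => exact (ih (by omega)).trans (hmono b (by omega))
  have hpos : ∀ b ≤ n, 0 ≤ L b := fun b hb => (hL0 ▸ hl0).trans (hmono' 0 b (by omega) hb)
  have hsum' : ∑ b ∈ Finset.range (n + 1), L b ≤ q + C1 + min (ε / 8) 1 * q := by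
    rw [← hε1n]
    refine hsum.trans ?_
    have : (n + 1) * (l - μ) ≤ (n + 1) * (ε1 * q) := by gcongr
    linarith
  have hup : ∀ b ≤ n, L b ≤ 3 * q := by
    intro b hb
    have := Finset.single_le_sum (f := L) (s := Finset.range (n + 1))
      (fun i hi => hpos i (Nat.lt_succ_iff.mp (Finset.mem_range.mp hi)))
      (Finset.mem_range.mpr (Nat.lt_succ_of_le hb))
    nlinarith
  have hC42 : 0 ≤ 2 * n * C2 := by positivity
  refine ⟨fun b => L b / q, by simp [hL0, hL1], by simp only [hL0]; positivity,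
    fun b hb => div_le_div_of_nonneg_right (hmono b hb) hqp.le, ?_, ?_⟩
  · rw [← Finset.sum_div, div_le_iff₀ hqp]
    nlinarith
  · intro m hm
    set Λ := L (n - m) with hΛ
    have hΛ0 : 0 ≤ Λ := hpos _ (by omega)
    have hΛ3 : Λ ≤ 3 * q := hup _ (by omega)
    set mx := max (W * Λ - q) (-q / 2) with hmx
    have hmx2 : -q / 2 ≤ mx := le_max_right _ _
    have hεΛ : 0 ≤ ε1 * Λ := by positivity
    have h3 := main_ineq ξ q (-(C0 + ε1 * Λ + mx)) n m hm x (fun b => L b + C2)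
      (by rw [hx0, hx1]; exact hcop) (by simp [hL0, hL1]) (add_nonneg (hpos 0 (by omega)) hC2)
      (fun b hb => by linarith [hmono b (by omega)])
      (fun b hb => ⟨(hx b (by omega)).1, (hx b (by omega)).2.2⟩) (by
        intro s hs k hk
        refine h2 q _ (L s) (x s) k (by omega) (by linarith) (hx s (by omega)).2.1 ?_
        rw [sub_neg_eq_add]
        exact h0 q Λ l (L s) P Q (x s) hP0 hPn hQn (hx s (by omega)).1 hcop hLP hLQ
          (hx s (by omega)).2.1 (hL0 ▸ hmono' 0 _ (by omega) (by omega))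
          (hmono' _ _ (by omega) (by omega)))
    have h4 : Real.log ((n + m + 1).factorial : ℝ) ≤ C3 := by
      apply Real.log_le_log (by exact_mod_cast Nat.factorial_pos _)
      exact_mod_cast Nat.factorial_le (by omega)
    rw [Finset.sum_add_distrib, Finset.sum_const, Finset.card_range, nsmul_eq_mul,
      Nat.cast_sub (by omega)] at h3
    push_cast at h3
    have hm' : (m : ℝ) + 1 ≤ n := by exact_mod_cast hm
    have hm0' : (0 : ℝ) ≤ m := Nat.cast_nonneg m
    have h5 : ((n : ℝ) + 1 - m) * C2 + 2 * m * C2 ≤ 2 * n * C2 := by nlinarith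
    set S := ∑ b ∈ Finset.range (n + 1 - m), L b with hS
    have h6 : q - mx ≤ S + 2 * m * L 1 + (C4 + ε1 * Λ) := by linarith
    have h7 : S + 2 * m * L 1 ≤ 2 * n * Λ := by
      have h8 : S ≤ ((n : ℝ) + 1 - m) * Λ := by
        have := Finset.sum_le_card_nsmul (Finset.range (n + 1 - m)) L Λ (fun b hb =>
          hmono' _ _ (by have := Finset.mem_range.mp hb; omega) (by omega))
        rw [Finset.card_range, nsmul_eq_mul, Nat.cast_sub (by omega)] at this
        push_cast at this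
        exact this
      have h9 : L 1 ≤ Λ := hmono' _ _ (by omega) (by omega)
      nlinarith
    have h8 : ε1 * Λ ≤ ε / 16 * (3 * q) := by gcongr
    have h9 : (2 - ε) * q ≤ W * Λ + S + 2 * m * L 1 := by
      rcases max_choice (W * Λ - q) (-q / 2) with h10 | h10
      · rw [← hmx] at h10
        nlinarith
      · rw [← hmx] at h10
        have : 2 * n * Λ ≤ 3 * W * Λ := by gcongr
        nlinarith
    simp only
    rw [← Finset.sum_div, ← hS, ← hΛ, ← mul_div_assoc, ← mul_div_assoc, ← add_div, ← add_div,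
      le_div_iff₀ hqp]
    exact h9

lemma opt (n M : ℕ) (W : ℝ) (hW : 0 < W) (hM : M + 1 ≤ n) (h1 : (1 + 1 / W) ^ M ≤ 2)
    (h2 : 2 ≤ (1 + 1 / W) ^ (M + 1))
    (h3 : 2 * W < n + 1 + M + W * (2 / (1 + 1 / W) ^ M - 1)) :
    ∃ ε : ℝ, 0 < ε ∧ ¬ ∃ L : ℕ → ℝ, L 0 = L 1 ∧ 0 ≤ L 0 ∧ (∀ b < n, L b ≤ L (b + 1)) ∧
      ∑ b ∈ Finset.range (n + 1), L b ≤ 1 + ε ∧ ∀ m, m + 1 ≤ n →
        2 - ε ≤ W * L (n - m) + ∑ b ∈ Finset.range (n + 1 - m), L b + 2 * m * L 1 := by
  set ρ := 1 + 1 / W with hρ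
  have hρ0 : 0 < ρ := by positivity
  set u := ρ ^ M with hu
  have hu0 : 0 < u := by positivity
  set κ := n + 1 + M + W * (2 / u - 1) - 2 * W with hκ
  have hκ0 : 0 < κ := by linarith
  have hn0 : (0 : ℝ) ≤ n := Nat.cast_nonneg n
  refine ⟨min 1 (κ / (4 * (W + 2 * n))), lt_min one_pos (by positivity), ?_⟩
  set ε := min 1 (κ / (4 * (W + 2 * n))) with hε
  have hε1 : ε ≤ 1 := min_le_left _ _
  have hε2 : ε * (4 * (W + 2 * n)) ≤ κ := by
    rw [← le_div_iff₀ (by positivity)]; exact min_le_right _ _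
  rintro ⟨L, h01, hL0, hmono, hsum, hI⟩
  have hmono' : ∀ b, b ≤ n → L 0 ≤ L b := by
    intro b hb
    induction b with
    | zero => exact le_rfl
    | succ b ih => exact (ih (by omega)).trans (hmono b (by omega))
  set l := L 1 with hl
  set S : ℕ → ℝ := fun m => ∑ b ∈ Finset.range (n + 1 - m), L b with hS
  have hSs : ∀ m, m ≤ n → S m = S (m + 1) + L (n - m) := by
    intro m hm
    simp only [hS]
    rw [show n + 1 - m = (n - m) + 1 by omega, Finset.sum_range_succ,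
      show n + 1 - (m + 1) = n - m by omega]
  have hSl : ∀ m, m ≤ n → ((n : ℝ) + 1 - m) * l ≤ S m := by
    intro m hm
    have := Finset.card_nsmul_le_sum (Finset.range (n + 1 - m)) L l (fun b hb =>
      h01 ▸ hmono' b (by have := Finset.mem_range.mp hb; omega))
    rw [Finset.card_range, nsmul_eq_mul, Nat.cast_sub (by omega)] at this
    push_cast at this
    exact this
  have hrec : ∀ m, m ≤ n → ρ ^ m * (1 - 2 * ε - 2 * W * l) ≤
      2 - ε - S m - 2 * m * l - 2 * W * l := by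
    intro m
    induction m with
    | zero =>
      intro _
      have : S 0 ≤ 1 + ε := hsum
      simp only [pow_zero, one_mul, CharP.cast_eq_zero, mul_zero, zero_mul, sub_zero]
      linarith
    | succ m ih =>
      intro hm
      have h4 := ih (by omega)
      have h5 : 2 - ε ≤ W * L (n - m) + S m + 2 * m * l := hI m hm
      have h6 := hSs m (by omega)
      have h7 : ρ * (ρ ^ m * (1 - 2 * ε - 2 * W * l)) ≤
          ρ * (2 - ε - S m - 2 * m * l - 2 * W * l) := by gcongr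
      have h8 : (2 - ε - S m - 2 * m * l) / W ≤ L (n - m) := by
        rw [div_le_iff₀ hW]; linarith
      have h9 : ρ * (2 - ε - S m - 2 * m * l - 2 * W * l) =
          (2 - ε - S m - 2 * m * l - 2 * W * l) + (2 - ε - S m - 2 * m * l) / W - 2 * l := by
        rw [hρ]; field_simp; ring
      push_cast
      rw [pow_succ', mul_assoc]
      linarith
  have hA := hrec M (by omega)
  have hB := hrec (M + 1) hM
  have hA' := hSl M (by omega)
  have hB' := hSl (M + 1) hM
  push_cast at hB hB'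
  have hl0 : 2 - ε ≤ (W + 2 * n) * l := by
    have h4 := hI (n - 1) (by omega)
    rw [show n - (n - 1) = 1 by omega, show n + 1 - (n - 1) = 2 by omega, Nat.cast_sub (by omega),
      Finset.sum_range_succ, Finset.sum_range_one, h01] at h4
    push_cast at h4
    linarith
  rw [← hu] at hA
  rw [pow_succ, ← hu] at hB h2
  set u' := u * ρ with hu'
  have hd : (u' - u) * W = u := by rw [hu', hρ]; field_simp; ring
  have hA2 : l * (n + 1 + M + 2 * W - 2 * W * u) ≤ 2 - u + ε * (2 * u - 1) := by linarith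
  have hB2 : l * (n + 2 + M + 2 * W - 2 * W * u') ≤ 2 - u' + ε * (2 * u' - 1) := by linarith
  have hC := add_le_add (mul_le_mul_of_nonneg_left hA2 (sub_nonneg.mpr h2))
    (mul_le_mul_of_nonneg_left hB2 (sub_nonneg.mpr h1))
  have hκ' : κ * (u' - u) = (n + 1 + M - 2 * W) * (u' - u) + (2 - u) := by
    have : W * (2 / u - 1) * (u' - u) = 2 - u := by
      rw [mul_comm, ← mul_assoc, hd]; field_simp
    rw [hκ]; linarith
  have hd0 : 0 < u' - u := by
    have : 0 < (u' - u) * W := by rw [hd]; exact hu0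
    exact (pos_iff_pos_of_mul_pos this).mpr hW
  have hD : (l * κ) * (u' - u) ≤ (3 * ε) * (u' - u) := by
    rw [mul_assoc, hκ']; nlinarith
  have hE := le_of_mul_le_mul_right hD hd0
  have hWn : 0 < W + 2 * n := by positivity
  have hF : κ ≤ (W + 2 * n) * (l * κ) := by nlinarith
  nlinarith

end Pool.Agent.MP_06f5ad_nt

end

section

open Polynomial

namespace Pool.Agent.MP_06f5ad_nt

lemma Hyp.mono {n : ℕ} (hn : 1 ≤ n) {ξ W W' c : ℝ} (h : Hyp n ξ W c) (hW : W ≤ W') :
    Hyp n ξ W' c := by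
  intro R α h1 h2 h3
  have hR : R ≠ 0 := by rintro rfl; simp at h1; omega
  refine (h R α h1 h2 h3).trans (mul_le_mul_of_nonneg_left ?_ (abs_nonneg _))
  exact Real.rpow_le_rpow_of_exponent_le (one_le_supNorm hR) hW

lemma exists_min_poly (R : ℤ[X]) (hR : R ≠ 0) (h : Irreducible (R.map (Int.castRingHom ℚ))) :
    ∃ (P : ℤ[X]) (a : ℤ), a ≠ 0 ∧ R = C a * P ∧ Irreducible P ∧ 0 < P.leadingCoeff := by
  have hc : R.content ≠ 0 := fun h => hR (content_eq_zero_iff.mp h)
  have h1 : Irreducible R.primPart := by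
    rw [IsPrimitive.Int.irreducible_iff_irreducible_map_cast R.isPrimitive_primPart]
    rw [R.eq_C_content_mul_primPart, Polynomial.map_mul, map_C, irreducible_isUnit_mul] at h
    · exact h
    · exact isUnit_C.mpr (isUnit_iff_ne_zero.mpr (by simpa using hc))
  rcases lt_or_gt_of_ne (leadingCoeff_ne_zero.mpr h1.ne_zero) with h2 | h2
  · refine ⟨-R.primPart, -R.content, by simpa using hc, ?_, ?_, by simpa using h2⟩
    · rw [C_neg, neg_mul_neg]; exact R.eq_C_content_mul_primPart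
    · exact (Associated.irreducible_iff (Associated.refl _).neg_right).mp h1
  · exact ⟨R.primPart, R.content, hc, R.eq_C_content_mul_primPart, h1, h2⟩

lemma hyp_of_finite {n : ℕ} (hn : 1 ≤ n) {ξ W : ℝ} (hW : 0 ≤ W)
    (hξ : ∀ A : ℤ[X], A ≠ 0 → aeval ξ A ≠ 0)
    (hfin : Set.Finite {α : ℝ | ∃ P : ℤ[X], Irreducible P ∧ P.natDegree = n ∧
      0 < P.leadingCoeff ∧ aeval α P = 0 ∧ 0 < |ξ - α| ∧ |ξ - α| ≤ P.supNorm ^ (-W)}) :
    ∃ c : ℝ, 0 < c ∧ Hyp n ξ W c := by
  obtain ⟨b, hb⟩ := (hfin.image fun α => |ξ - α|⁻¹).bddAbove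
  refine ⟨(max b 1)⁻¹, by positivity, ?_⟩
  intro R α h1 h2 h3
  have hR : R ≠ 0 := by rintro rfl; simp at h1; omega
  obtain ⟨P, a, ha, rfl, hP, hl⟩ := exists_min_poly R hR h2
  have hPα : aeval α P = 0 := by
    rw [map_mul, aeval_C] at h3
    exact (mul_eq_zero.mp h3).resolve_left (by simpa using ha)
  have hne : 0 < |ξ - α| := by
    rw [abs_pos, sub_ne_zero]
    rintro rfl
    exact hξ P hP.ne_zero hPα
  have hP1 := one_le_supNorm hP.ne_zero
  have hle : P.supNorm ≤ (C a * P).supNorm := by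
    apply supNorm_le
    intro i
    refine le_trans ?_ (coeff_le (C a * P) i)
    rw [coeff_C_mul]
    push_cast
    rw [abs_mul]
    exact le_mul_of_one_le_left (abs_nonneg _) (by exact_mod_cast Int.one_le_abs ha)
  have h4 : P.supNorm ^ W ≤ (C a * P).supNorm ^ W := Real.rpow_le_rpow (by linarith) hle hW
  have h5 : 1 ≤ P.supNorm ^ W := Real.one_le_rpow hP1 hW
  refine le_trans ?_ (mul_le_mul_of_nonneg_left h4 hne.le)
  by_cases h6 : |ξ - α| ≤ P.supNorm ^ (-W)
  · have h7 : |ξ - α|⁻¹ ≤ b := hb ⟨α, ⟨P, hP, by rwa [natDegree_C_mul ha] at h1, hl, hPα, hne, h6⟩,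
      rfl⟩
    have h8 : (max b 1)⁻¹ ≤ |ξ - α| := inv_le_of_inv_le₀ hne (h7.trans (le_max_left _ _))
    nlinarith
  · push Not at h6
    rw [Real.rpow_neg (by linarith), inv_lt_iff_one_lt_mul₀ (by linarith)] at h6
    exact (inv_le_one_of_one_le₀ (le_max_right _ _)).trans h6.le

lemma numeric (n : ℕ) (hn : 4 ≤ n) : ∃ (W : ℝ) (M : ℕ), (n : ℝ) / (2 - Real.log 2) + 1 ≤ W ∧
    M + 1 ≤ n ∧ (1 + 1 / W) ^ M ≤ 2 ∧ 2 ≤ (1 + 1 / W) ^ (M + 1) ∧
    2 * W < n + 1 + M + W * (2 / (1 + 1 / W) ^ M - 1) := by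
  have hl1 := Real.log_two_gt_d9
  have hl2 := Real.log_two_lt_d9
  have hd : 0 < 2 - Real.log 2 := by linarith
  have key : ∀ W : ℝ, (n : ℝ) ≤ (W - 1) * (2 - 0.6931471808) →
      (n : ℝ) / (2 - Real.log 2) + 1 ≤ W := by
    intro W h
    have h0 : (0 : ℝ) ≤ n := Nat.cast_nonneg n
    have : (n : ℝ) / (2 - Real.log 2) ≤ W - 1 := by
      rw [div_le_iff₀ hd]
      nlinarith
    linarith
  by_cases h21 : n ≤ 20
  · interval_cases n
    · exact ⟨407 / 100, 3, key _ (by norm_num), by norm_num, by norm_num, by norm_num, by norm_num⟩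
    · exact ⟨483 / 100, 3, key _ (by norm_num), by norm_num, by norm_num, by norm_num, by norm_num⟩
    · exact ⟨28 / 5, 4, key _ (by norm_num), by norm_num, by norm_num, by norm_num, by norm_num⟩
    · exact ⟨159 / 25, 4, key _ (by norm_num), by norm_num, by norm_num, by norm_num, by norm_num⟩
    · exact ⟨713 / 100, 5, key _ (by norm_num), by norm_num, by norm_num, by norm_num, by norm_num⟩
    · exact ⟨79 / 10, 5, key _ (by norm_num), by norm_num, by norm_num, by norm_num, by norm_num⟩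
    · exact ⟨433 / 50, 6, key _ (by norm_num), by norm_num, by norm_num, by norm_num, by norm_num⟩
    · exact ⟨471 / 50, 6, key _ (by norm_num), by norm_num, by norm_num, by norm_num, by norm_num⟩
    · exact ⟨1019 / 100, 7, key _ (by norm_num), by norm_num, by norm_num, by norm_num, by norm_num⟩
    · exact ⟨219 / 20, 7, key _ (by norm_num), by norm_num, by norm_num, by norm_num, by norm_num⟩
    · exact ⟨293 / 25, 8, key _ (by norm_num), by norm_num, by norm_num, by norm_num, by norm_num⟩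
    · exact ⟨25 / 2, 9, key _ (by norm_num), by norm_num, by norm_num, by norm_num, by norm_num⟩
    · exact ⟨53 / 4, 9, key _ (by norm_num), by norm_num, by norm_num, by norm_num, by norm_num⟩
    · exact ⟨701 / 50, 10, key _ (by norm_num), by norm_num, by norm_num, by norm_num, by norm_num⟩
    · exact ⟨739 / 50, 10, key _ (by norm_num), by norm_num, by norm_num, by norm_num, by norm_num⟩
    · exact ⟨311 / 20, 11, key _ (by norm_num), by norm_num, by norm_num, by norm_num, by norm_num⟩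
    · exact ⟨408 / 25, 11, key _ (by norm_num), by norm_num, by norm_num, by norm_num, by norm_num⟩
  have hn21 : (21 : ℝ) ≤ n := by exact_mod_cast (by omega : 21 ≤ n)
  set W := (n : ℝ) / (2 - Real.log 2) + 1 with hW
  have hWn : (W - 1) * (2 - Real.log 2) = n := by rw [hW]; field_simp; ring
  have hW17 : 17 ≤ W := by nlinarith
  have hWlt : W < n := by nlinarith
  have hW0 : 0 < W := by linarith
  set ρ := 1 + 1 / W with hρ
  have hρ1 : 1 < ρ := by rw [hρ]; have := one_div_pos.mpr hW0; linarith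
  have hex : ∃ k : ℕ, 2 < ρ ^ (k + 1) := by
    obtain ⟨k, hk⟩ := pow_unbounded_of_one_lt 2 hρ1
    exact ⟨k, hk.trans_le (pow_le_pow_right₀ hρ1.le (by omega))⟩
  classical
  set M := Nat.find hex with hM
  have hM1 : 2 < ρ ^ (M + 1) := Nat.find_spec hex
  have hM2 : ρ ^ M ≤ 2 := by
    rcases Nat.eq_zero_or_pos M with h | h
    · rw [h]; norm_num
    · have := Nat.find_min hex (m := M - 1) (by omega)
      rw [Nat.sub_add_cancel h] at this
      exact not_lt.mp this
  have hMW : (M : ℝ) ≤ W := by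
    have := one_add_mul_le_pow (a := 1 / W) (by have := one_div_pos.mpr hW0; linarith) M
    have h2 : (M : ℝ) * (1 / W) ≤ 1 := by linarith
    rwa [mul_one_div, div_le_one hW0] at h2
  refine ⟨W, M, le_rfl, ?_, hM2, hM1.le, ?_⟩
  · have : (M : ℝ) < n := by linarith
    exact_mod_cast this
  set u := ρ ^ M with hu
  have hu0 : 0 < u := by positivity
  set y := 2 / u with hy
  have hy1 : 1 ≤ y := by rw [hy, le_div_iff₀ hu0]; linarith
  have hy2 : (y - 1) * W ≤ 1 := by
    have : y ≤ ρ := by rw [hy, div_le_iff₀ hu0, mul_comm, ← pow_succ]; exact hM1.le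
    have h2 : y - 1 ≤ 1 / W := by linarith
    rwa [le_div_iff₀ hW0] at h2
  have hlog : M * Real.log ρ = Real.log 2 - Real.log y := by
    rw [hy, Real.log_div (by norm_num) hu0.ne', hu, Real.log_pow]; ring
  have hly : Real.log y ≤ y - 1 := Real.log_le_sub_one_of_pos (by linarith)
  have hlρ : Real.log ρ ≤ 1 / (W + 0.485) := by
    rw [Real.log_le_iff_le_exp (by linarith)]
    refine le_trans ?_ (Real.quadratic_le_exp_of_nonneg (by positivity))
    rw [hρ]
    have : 1 / W ≤ 1 / (W + 0.485) + (1 / (W + 0.485)) ^ 2 / 2 := by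
      rw [div_le_iff₀ hW0]
      field_simp
      nlinarith
    linarith
  have h1 : (W + 0.485) * (Real.log 2 - (y - 1)) ≤ M := by
    have h2 : Real.log 2 - (y - 1) ≤ M * (1 / (W + 0.485)) := by
      have : M * Real.log ρ ≤ M * (1 / (W + 0.485)) := by gcongr
      linarith
    rwa [mul_one_div, le_div_iff₀' (by positivity)] at h2
  have h3 : (y - 1) * 17 ≤ 1 := by nlinarith
  nlinarith

theorem exact_degree (n : ℕ) (hn : 4 ≤ n) (ζ : ℝ) (hζ : Transcendental ℚ ζ) :
    Set.Infinite {α : ℝ | ∃ P : ℤ[X], Irreducible P ∧ P.natDegree = n ∧ 0 < P.leadingCoeff ∧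
      aeval α P = 0 ∧ 0 < |ζ - α| ∧
      |ζ - α| ≤ P.supNorm ^ (-((n : ℝ) / (2 - Real.log 2)) - 1)} := by
  intro hfin
  have hξ : ∀ A : ℤ[X], A ≠ 0 → aeval ζ A ≠ 0 := fun A hA h =>
    hA (transcendental_iff.mp (hζ.restrictScalars (algebraMap ℤ ℚ).injective_int) A h)
  have hl1 := Real.log_two_gt_d9
  have hl2 := Real.log_two_lt_d9
  have hd : 0 < 2 - Real.log 2 := by linarith
  have hn0 : (0 : ℝ) ≤ n := Nat.cast_nonneg n
  rw [show -((n : ℝ) / (2 - Real.log 2)) - 1 = -((n : ℝ) / (2 - Real.log 2) + 1) by ring] at hfin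
  obtain ⟨c, hc, h⟩ := hyp_of_finite (by omega) (by positivity) hξ hfin
  obtain ⟨W, M, h1, h2, h3, h4, h5⟩ := numeric n hn
  have h6 : 2 * n / 3 ≤ (n : ℝ) / (2 - Real.log 2) := by
    rw [le_div_iff₀ hd]; nlinarith
  obtain ⟨ε, hε, h7⟩ := opt n M W (by linarith) h2 h3 h4 h5
  exact h7 (exists_system (by omega) (by linarith) hc hξ (h.mono (by omega) h1) hε)

end Pool.Agent.MP_06f5ad_nt

end
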