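import Pool.Agent.Mg.F06f5adq.Ga417aa
import Pool.Agent.Mg.F06f5adq.G9fb972

set_option linter.all false

section

open Polynomial

namespace Pool.Agent.MP_06f5ad_nt

lemma Sm.mono_left {F : ℝ[X]} {a a' c1 c2 : ℝ} (h : Sm F a c1 c2) (h0 : a ≤ a') (h1 : 0 ≤ c1)
    (h2 : 0 ≤ c2) : Sm F a' c1 c2 :=
  ⟨h.1.mono h0, h.2.1.trans (by gcongr), h.2.2.trans (by gcongr)⟩

lemma Sm.lin_mul {F : ℝ[X]} {a c1 c2 : ℝ} (h : Sm F a c1 c2) (h0 : 0 ≤ c1) (h1 : c1 ≤ c2) (b : ℝ) :
    Sm ((X + C b) * F) ((1 + |b|) * a) c1 c2 := by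
  have ha := h.1.nonneg
  have hb := abs_nonneg b
  refine ⟨h.1.lin_mul b, ?_, ?_⟩
  · rw [add_mul, coeff_add, coeff_X_mul_zero, zero_add, coeff_C_mul, abs_mul]
    have := mul_le_mul_of_nonneg_left h.2.1 hb
    nlinarith [mul_nonneg ha h0]
  · rw [add_mul, coeff_add, coeff_X_mul, coeff_C_mul]
    refine (abs_add_le _ _).trans ?_
    rw [abs_mul]
    have := mul_le_mul_of_nonneg_left h.2.2 hb
    have := mul_le_mul_of_nonneg_left h1 ha
    nlinarith [h.2.1]

lemma Sm.lin_pow {F : ℝ[X]} {a c1 c2 : ℝ} (h : Sm F a c1 c2) (h0 : 0 ≤ c1) (h1 : c1 ≤ c2) (b : ℝ)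
    (t : ℕ) : Sm ((X + C b) ^ t * F) ((1 + |b|) ^ t * a) c1 c2 := by
  induction t with
  | zero => simpa using h
  | succ t ih => rw [pow_succ', pow_succ', mul_assoc, mul_assoc]; exact ih.lin_mul h0 h1 b

lemma Sm.add_smul {F G : ℝ[X]} {a c1 c2 : ℝ} (h : Sm F a c1 c2) (h' : Sm G a c1 c2) (s : ℝ) :
    Sm (F + s • G) ((1 + |s|) * a) c1 c2 := by
  have hs := abs_nonneg s
  refine ⟨(h.1.add (h'.1.smul s)).mono (le_of_eq (by ring)), ?_, ?_⟩
  · rw [coeff_add, coeff_smul, smul_eq_mul]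
    refine (abs_add_le _ _).trans ?_
    rw [abs_mul]
    have := mul_le_mul_of_nonneg_left h'.2.1 hs
    nlinarith [h.2.1]
  · rw [coeff_add, coeff_smul, smul_eq_mul]
    refine (abs_add_le _ _).trans ?_
    rw [abs_mul]
    have := mul_le_mul_of_nonneg_left h'.2.2 hs
    nlinarith [h.2.2]

lemma sm_of_nrm (ξ q v : ℝ) {y : ℤ[X]} {T : ℕ} (h : y.natDegree < T) :
    Sm (tau ξ (toQ y)) (T * (1 + |ξ|) ^ T * nrm ξ q v y) (Real.exp (-q)) (Real.exp (-v)) := by
  have h1 : (1 : ℝ) ≤ T * (1 + |ξ|) ^ T := one_le_mul_of_one_le_of_one_le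
    (by exact_mod_cast (by omega : 1 ≤ T)) (one_le_pow₀ (by linarith [abs_nonneg ξ]))
  have h2 := le_mul_of_one_le_left (nrm_nonneg ξ q v y) h1
  refine ⟨(tau_bd ξ h).mono ?_, ?_, ?_⟩
  · gcongr
    exact (le_max_left _ _).trans (le_max_left _ _)
  · rw [tau_coeff_zero, Real.exp_neg, ← div_eq_mul_inv, le_div_iff₀ (Real.exp_pos _), mul_comm]
    exact ((le_max_right _ _).trans (le_max_left _ _)).trans h2
  · rw [tau_coeff_one, Real.exp_neg, ← div_eq_mul_inv, le_div_iff₀ (Real.exp_pos _), mul_comm]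
    exact (le_max_right _ _).trans h2

lemma exists_partner {P Q : ℤ[X]} (h : Cop P Q) {n : ℕ} (hP : P.natDegree = n) (hP0 : P ≠ 0)
    (hQ : Q.natDegree ≤ n) {A : ℤ[X]} (hA : A ≠ 0) (t : ℕ) : ∃ s c : ℕ, s ≤ A.natDegree + 1 ∧
      c ≤ A.natDegree ∧ ((X - C (c : ℤ)) ^ t * (P + C (s : ℤ) * Q)).natDegree = n + t ∧
      Cop A ((X - C (c : ℤ)) ^ t * (P + C (s : ℤ) * Q)) := by
  classical
  obtain ⟨s, hs1, hs2⟩ := exists_nat_notMem (insert (-(P.coeff n : ℂ) / (Q.coeff n : ℂ))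
    ((A.aroots ℂ).toFinset.image fun β => -aeval β P / aeval β Q))
  obtain ⟨c, hc1, hc2⟩ := exists_nat_notMem (A.aroots ℂ).toFinset
  have h1 := card_aroots_le A
  have h2 : (P + C (s : ℤ) * Q).coeff n ≠ 0 := by
    intro h0
    rw [coeff_add, coeff_C_mul] at h0
    by_cases hq : Q.coeff n = 0
    · rw [hq, mul_zero, add_zero, ← hP] at h0
      exact leadingCoeff_ne_zero.mpr hP0 h0
    · apply hs2
      rw [Finset.mem_insert]
      left
      rw [eq_div_iff (by exact_mod_cast hq)]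
      have : ((P.coeff n + s * Q.coeff n : ℤ) : ℂ) = 0 := by rw [h0]; simp
      push_cast at this
      linear_combination this
  have h3 : (P + C (s : ℤ) * Q).natDegree = n :=
    le_antisymm ((natDegree_add_le _ _).trans (max_le hP.le ((natDegree_C_mul_le _ _).trans hQ)))
      (le_natDegree_of_ne_zero h2)
  refine ⟨s, c, hs1.trans ((Finset.card_insert_le _ _).trans ?_), hc1.trans h1, ?_, ?_⟩
  · exact Nat.succ_le_succ (Finset.card_image_le.trans h1)
  · rw [((monic_X_sub_C _).pow t).natDegree_mul' (fun h0 => h2 (by rw [h0, coeff_zero])), h3,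
      natDegree_pow, natDegree_X_sub_C, mul_one, add_comm]
  · intro β hβ h0
    have hm := mem_aroots_of hA hβ
    rw [map_mul, mul_eq_zero] at h0
    rcases h0 with h0 | h0
    · rw [map_pow, map_sub, aeval_X, aeval_C] at h0
      apply hc2
      have h4 : β = c := by simpa [sub_eq_zero] using pow_eq_zero_iff'.mp h0 |>.1
      exact h4 ▸ hm
    · rw [map_add, map_mul, aeval_C] at h0
      simp only [algebraMap_int_eq, eq_intCast, Int.cast_natCast] at h0
      by_cases hq : aeval β Q = 0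
      · rw [hq, mul_zero, add_zero] at h0
        exact h β h0 hq
      · apply hs2
        refine Finset.mem_insert_of_mem (Finset.mem_image.mpr ⟨β, hm, ?_⟩)
        rw [div_eq_iff hq]
        linear_combination -h0

lemma greedy (ξ q v : ℝ) (j t : ℕ) (hj : 2 ≤ j) (x : ℕ → ℤ[X]) (L : ℕ → ℝ) (h01 : L 0 = L 1)
    (hmono : ∀ a b, a ≤ b → b < j → L a ≤ L b)
    (hd : ∀ b, 2 ≤ b → b ≤ j → b + 2 * t ≤ Module.finrank ℚ (shiftSpan x b t))
    (hn : ∀ s < j, ∀ k ≤ t, nrm ξ q v (X ^ k * x s) ≤ Real.exp (L s)) :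
    ∃ B : Finset ℤ[X], (B : Set ℤ[X]) ⊆ shiftSet x j t ∧ LinearIndepOn ℚ toQ (B : Set ℤ[X]) ∧
      Submodule.span ℚ (toQ '' (B : Set ℤ[X])) = shiftSpan x j t ∧
      ∏ y ∈ B, nrm ξ q v y ≤ Real.exp (∑ s ∈ Finset.range j, L s + 2 * t * L 1 +
        (B.card - j - 2 * t) * L (j - 1)) := by
  classical
  have hlev : ∀ b ≤ j, ∀ y ∈ shiftSet x b t, nrm ξ q v y ≤ Real.exp (L (b - 1)) := by
    rintro b hb _ ⟨s, hs, k, hk, rfl⟩
    exact (hn s (by omega) k hk).trans (Real.exp_le_exp.mpr (hmono _ _ (by omega) (by omega)))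
  have key : ∀ b, 2 ≤ b → b ≤ j → ∃ B : Finset ℤ[X], (B : Set ℤ[X]) ⊆ shiftSet x b t ∧
      LinearIndepOn ℚ toQ (B : Set ℤ[X]) ∧
      Submodule.span ℚ (toQ '' (B : Set ℤ[X])) = shiftSpan x b t ∧
      ∏ y ∈ B, nrm ξ q v y ≤ Real.exp (∑ s ∈ Finset.range b, L s + 2 * t * L 1 +
        (B.card - b - 2 * t) * L (b - 1)) := by
    intro b hb2
    induction b, hb2 using Nat.le_induction with
    | base =>
      intro hb
      obtain ⟨B, h1, -, h3, h4⟩ := extend_basis (B := ∅) (by simp) (shiftSet_finite x 2 t) (by simp)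
      refine ⟨B, h1, h3, h4, ?_⟩
      refine (prod_le_pow_card'' B _ _ (fun y _ => nrm_nonneg _ _ _ _)
        (fun y hy => hlev 2 hb y (h1 hy))).trans (le_of_eq ?_)
      rw [← Real.exp_nat_mul]
      congr 1
      simp only [Finset.sum_range_succ, Finset.range_zero, Finset.sum_empty, h01]
      norm_num
      ring
    | succ b hb2 ih =>
      intro hb
      obtain ⟨B, h1, h2, h3, h4⟩ := ih (by omega)
      obtain ⟨B', h5, h6, h7, h8⟩ := extend_basis h2 (shiftSet_finite x (b + 1) t) (h1.trans (by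
        rintro _ ⟨s, hs, k, hk, rfl⟩
        exact ⟨s, by omega, k, hk, rfl⟩))
      refine ⟨B', h5, h7, h8, ?_⟩
      rw [← Finset.prod_sdiff h6]
      have h9 := prod_le_pow_card'' (B' \ B) _ _ (fun y _ => nrm_nonneg ξ q v y)
        (fun y hy => hlev (b + 1) hb y (h5 (Finset.mem_sdiff.mp hy).1))
      refine (mul_le_mul h9 h4 (Finset.prod_nonneg fun y _ => nrm_nonneg _ _ _ _)
        (by positivity)).trans ?_
      rw [← Real.exp_nat_mul, ← Real.exp_add, Real.exp_le_exp, Finset.sum_range_succ,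
        Finset.card_sdiff_of_subset h6, Nat.cast_sub (Finset.card_le_card h6), Nat.add_sub_cancel]
      have h10 := finrank_span_finset B h2
      rw [h3] at h10
      have h11 : (b : ℝ) + 2 * t ≤ B.card := by
        have := hd b hb2 (by omega)
        rw [h10] at this
        exact_mod_cast this
      have h12 := hmono (b - 1) b (by omega) (by omega)
      push_cast
      nlinarith
  exact key j hj le_rfl

lemma exists_first (x : ℕ → ℤ[X]) (n j : ℕ) (hj : 2 ≤ j)
    (hx : ∀ b < j, (x b).natDegree ≤ n ∧ toQ (x b) ∉ spanQ x b) :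
    ∃ t, j + 3 * t ≤ Module.finrank ℚ (shiftSpan x j t) ∧
      Module.finrank ℚ (sig (shiftSpan x j t)) ≤ Module.finrank ℚ (shiftSpan x j t) + 2 ∧
      (j = 2 → Module.finrank ℚ (shiftSpan x j t) = 2) := by
  classical
  have hgrow : ∀ t, (∀ s < t, ¬ Module.finrank ℚ (sig (shiftSpan x j s)) ≤
      Module.finrank ℚ (shiftSpan x j s) + 2) → j + 3 * t ≤ Module.finrank ℚ (shiftSpan x j t) := by
    intro t
    induction t with
    | zero =>
      intro _
      rw [shiftSpan_zero]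
      simpa using le_finrank_spanQ x j fun s hs => (hx s hs).2
    | succ t ih =>
      intro h
      have h1 := ih fun s hs => h s (by omega)
      have h2 := h t (by omega)
      rw [shiftSpan_succ]
      omega
  have hex : ∃ t, Module.finrank ℚ (sig (shiftSpan x j t)) ≤
      Module.finrank ℚ (shiftSpan x j t) + 2 := by
    by_contra h
    push Not at h
    have h1 := hgrow n fun s _ => not_le.mpr (h s)
    have h2 := Submodule.finrank_mono (shiftSpan_le x j n n fun s hs => (hx s hs).1)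
    rw [finrank_degreeLT'] at h2
    omega
  by_cases h2 : j = 2
  · have h3 := hgrow 0 (by simp)
    have h4 : Module.finrank ℚ (shiftSpan x j 0) ≤ j := by
      rw [shiftSpan_zero]; exact finrank_spanQ_le x j
    have h5 := Submodule.finrank_add_le_finrank_add_finrank (shiftSpan x j 0)
      ((shiftSpan x j 0).map (LinearMap.mulLeft ℚ (X : ℚ[X])))
    rw [finrank_map_X] at h5
    exact ⟨0, h3, le_trans h5 (by omega), fun _ => by omega⟩
  · exact ⟨Nat.find hex, hgrow _ fun s hs => Nat.find_min hex hs, Nat.find_spec hex,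
      fun h => absurd h h2⟩

/-- the improved inequality -/
theorem new_ineq (n : ℕ) (hn : 2 ≤ n) (ξ : ℝ) (hξ : ∀ c : ℕ, ξ ≠ c) : ∃ C0 : ℝ, 0 ≤ C0 ∧
    ∀ (q v : ℝ) (j : ℕ) (x : ℕ → ℤ[X]) (L : ℕ → ℝ), 0 ≤ v → 2 * v ≤ q → 2 ≤ j →
    Cop (x 0) (x 1) → (x 0).natDegree = n → L 0 = L 1 → (∀ a b, a ≤ b → b < j → L a ≤ L b) →
    (∀ b < j, (x b).natDegree ≤ n ∧ toQ (x b) ∉ spanQ x b) →
    (∀ s < j, ∀ k ≤ n, nrm ξ q v (X ^ k * x s) ≤ Real.exp (L s)) →
    ∃ e : ℕ, j + e ≤ n + 1 ∧ (j = 2 → e = 0) ∧ ∀ θ : ℝ, 0 ≤ θ → θ ≤ 1 →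
      (θ = 0 ∨ θ * (j + 3 * e) ≤ n + 1 - j - 2 * e) →
      q + v + θ * (v - ∑ s ∈ Finset.range j, L s + j * L 1 - e * (L (j - 1) - L 1)) ≤
        ∑ s ∈ Finset.range j, L s + e * L (j - 1) + 2 * (n + 1 - j - e) * L 1 + C0 := by
  classical
  set T := 2 * n + 2 with hT
  obtain ⟨C1, hC1, h1⟩ := gain_ineq ξ hξ T
  have hT0 : (1 : ℝ) ≤ T := by exact_mod_cast (by omega : 1 ≤ T)
  have hξ0 := abs_nonneg ξ
  set c0 : ℝ := T * (1 + |ξ|) ^ T with hc0
  have hc01 : 1 ≤ c0 := one_le_mul_of_one_le_of_one_le hT0 (one_le_pow₀ (by linarith))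
  set c1 : ℝ := (1 + |ξ| + T) ^ T * ((1 + T) * c0) with hc1
  have hc11 : 1 ≤ (1 + |ξ| + T) ^ T := one_le_pow₀ (by linarith)
  have hc12 : c0 ≤ c1 := (le_mul_of_one_le_left (by linarith) (by linarith)).trans
    (le_mul_of_one_le_left (by positivity) hc11)
  have ha0 : 0 ≤ Real.log c0 := Real.log_nonneg hc01
  have ha1 : 0 ≤ Real.log c1 := Real.log_nonneg (by linarith)
  refine ⟨C1 + (T + 1) * (T * Real.log c0) + 2 * T * Real.log c1, by positivity, ?_⟩
  intro q v j x L hv hq hj hcop hx0 h01 hmono hx hnr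
  obtain ⟨t, ht1, ht2, ht3⟩ := exists_first x n j hj hx
  have hle := shiftSpan_le x j t n fun s hs => (hx s hs).1
  have ht4 := Submodule.finrank_mono hle
  rw [finrank_degreeLT'] at ht4
  have hP0 : x 0 ≠ 0 := by intro h; rw [h, natDegree_zero] at hx0; omega
  have hsh : ∀ b s k, s < b → k ≤ t → X ^ k * toQ (x s) ∈ shiftSpan x b t := fun b s k hs hk =>
    Submodule.subset_span ⟨_, ⟨s, hs, k, hk, rfl⟩, by simp [toQ]⟩
  obtain ⟨B, hB1, hB2, hB3, hB4⟩ := greedy ξ q v j t hj x L h01 hmono (fun b hb hbj => by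
    rcases shiftSpan_dim x hcop b hb (fun s hs => (hx s (by omega)).2) t with ⟨r, hr⟩ | h
    · have h2 := hsh b 0 t (by omega) le_rfl
      have h0 : toQ (x 0) ≠ 0 := fun h => hP0 (toQ_injective (by simpa using h))
      rw [hr, mem_degreeLT, ← natDegree_lt_iff_degree_lt (mul_ne_zero (pow_ne_zero _ X_ne_zero) h0),
        natDegree_X_pow_mul _ h0, natDegree_toQ] at h2
      rw [hr, finrank_degreeLT']
      omega
    · exact h) (fun s hs k hk => hnr s hs k (by omega))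
  have hcard := finrank_span_finset B hB2
  rw [hB3] at hcard
  obtain ⟨u, hu⟩ : ∃ u, B.card = u + 2 := ⟨B.card - 2, by omega⟩
  obtain ⟨e, he⟩ : ∃ e, u + 2 = j + 2 * t + e := ⟨u + 2 - j - 2 * t, by omega⟩
  obtain ⟨k, hk⟩ : ∃ k, u + 2 + k = n + t + 1 := ⟨n + t + 1 - (u + 2), by omega⟩
  let σ : Fin (u + 2) ≃ B := (B.equivFinOfCardEq hu).symm
  have hsp : Submodule.span ℚ (Set.range fun b => toQ (σ b)) = shiftSpan x j t := by
    rw [← hB3, Set.image_eq_range]
    congr 1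
    exact σ.surjective.range_comp (fun y : B => toQ y)
  have hdeg : ∀ y ∈ shiftSet x j t, y.natDegree < T := by
    rintro _ ⟨s, hs, i, hi, rfl⟩
    refine natDegree_mul_le.trans_lt ?_
    have := (hx s hs).1
    rw [natDegree_X_pow]
    omega
  have hsm : ∀ s < 2, Sm (tau ξ (toQ (x s))) (c0 * Real.exp (L 1)) (Real.exp (-q))
      (Real.exp (-v)) := by
    intro s hs
    refine (sm_of_nrm ξ q v (T := T) (by have := (hx s (by omega)).1; omega)).mono_left ?_
      (Real.exp_pos _).le (Real.exp_pos _).le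
    have h2 := hnr s (by omega) 0 (by omega)
    rw [pow_zero, one_mul] at h2
    exact mul_le_mul_of_nonneg_left
      (h2.trans (Real.exp_le_exp.mpr (hmono _ _ (by omega) (by omega)))) (by positivity)
  set S := ∑ s ∈ Finset.range j, L s with hS
  have hej : ((B.card : ℝ) - j - 2 * t) = e := by
    rw [hu, he]; push_cast; ring
  rw [hej] at hB4
  have hexp : Real.exp (L 1 + Real.log c1) = c1 * Real.exp (L 1) := by
    rw [Real.exp_add, Real.exp_log (by linarith), mul_comm]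
  obtain ⟨y, hy, h2, h3⟩ := h1 (n + t) u k (by omega) hk (by omega) (by omega) (fun b => σ b)
    (LinearIndependent.comp hB2 σ σ.injective) (hsp ▸ hle) (by rw [hsp]; omega) q v
    (S + 2 * t * L 1 + e * L (j - 1) + T * Real.log c0) (L 1 + Real.log c1)
    (fun b => c0 * nrm ξ q v (σ b)) hv hq (fun b => sm_of_nrm ξ q v (hdeg _ (hB1 (σ b).2))) (by
      rw [Finset.prod_mul_distrib, Finset.prod_const, Finset.card_univ, Fintype.card_fin,
        Equiv.prod_comp σ (fun y : B => nrm ξ q v y), Finset.prod_coe_sort B, Real.exp_add,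
        Real.exp_nat_mul, Real.exp_log (by linarith), mul_comm]
      exact mul_le_mul hB4 (pow_le_pow_right₀ hc01 (by omega)) (by positivity) (by positivity))
    (x 0) hP0 (by rw [hsp]; exact mem_shiftSpan x t (by omega))
    ((hsm 0 (by omega)).mono_left (by rw [hexp]; gcongr) (Real.exp_pos _).le (Real.exp_pos _).le)
    (by
      intro A hA hAd
      obtain ⟨s, c, hs, hc, h4, h5⟩ := exists_partner hcop hx0 hP0 (hx 1 (by omega)).1 hA t
      have h6 : toQ ((X - C (c : ℤ)) ^ t * (x 0 + C (s : ℤ) * x 1)) =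
          (X - C (c : ℚ)) ^ t * (toQ (x 0) + (s : ℚ) • toQ (x 1)) := by
        simp [toQ, smul_eq_C_mul]
      refine ⟨_, ?_, h4, h5, ?_⟩
      · rw [hsp, h6]
        refine mul_mem_of_degreeLT (k := t + 1) (fun i hi => ?_) ?_
        · rw [mul_add, mul_smul_comm]
          exact Submodule.add_mem _ (hsh _ _ _ (by omega) (by omega))
            (Submodule.smul_mem _ _ (hsh _ _ _ (by omega) (by omega)))
        · rw [mem_degreeLT, degree_pow, degree_X_sub_C, nsmul_one]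
          exact_mod_cast Nat.lt_succ_self t
      · rw [h6, map_mul, map_pow, map_sub, tau_X, tau_C, map_add, tau_smul, add_sub_assoc, ← C_sub]
        refine (((hsm 0 (by omega)).add_smul (hsm 1 (by omega)) _).lin_pow (Real.exp_pos _).le
          (Real.exp_le_exp.mpr (by linarith)) _ t).mono_left ?_ (Real.exp_pos _).le
          (Real.exp_pos _).le
        rw [hexp, hc1, mul_assoc _ ((1 + T) * c0), mul_assoc (1 + T : ℝ)]
        have h7 : (s : ℝ) ≤ T := by exact_mod_cast (by omega : s ≤ T)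
        have h8 : (c : ℝ) ≤ T := by exact_mod_cast (by omega : c ≤ T)
        have h9 := abs_sub ξ c
        rw [Nat.abs_cast] at h9
        simp only [Rat.cast_natCast, Nat.abs_cast]
        refine mul_le_mul ((pow_le_pow_left₀ (by positivity) (by linarith) _).trans
          (pow_le_pow_right₀ (by linarith) (by omega))) (by gcongr) (by positivity) (by positivity))
  refine ⟨e, by omega, fun h => by have := ht3 h; omega, fun θ hθ0 hθ1 hθ => ?_⟩
  have hk0 : (0 : ℝ) ≤ k := Nat.cast_nonneg _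
  have hkT : (k : ℝ) ≤ T := by exact_mod_cast (by omega : k ≤ T)
  have hu0 : (0 : ℝ) ≤ u := Nat.cast_nonneg _
  have he' : (u : ℝ) + 2 = j + 2 * t + e := by exact_mod_cast he
  have hk' : (u : ℝ) + 2 + k = n + t + 1 := by exact_mod_cast hk
  have hte : (t : ℝ) ≤ e := by exact_mod_cast (by omega : t ≤ e)
  have hθu : θ ≤ k / (u + 2) := by
    rw [le_div_iff₀ (by linarith)]
    rcases hθ with h | h
    · rw [h, zero_mul]; exact hk0
    · have : θ * (u + 2) ≤ θ * (j + 3 * e) := mul_le_mul_of_nonneg_left (by linarith) hθ0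
      linarith
  set a := T * Real.log c0 with ha
  have ha' : 0 ≤ a := by positivity
  set Sg := S + 2 * t * L 1 + e * L (j - 1) with hSg
  set R := v - Sg + (u + 2) * L 1 with hR
  have h4 : k * ((Sg + a - y) / (u + 2)) =
      k * L 1 - k / (u + 2) * (R - (v - y)) + k / (u + 2) * a := by
    rw [hR]; field_simp; ring
  have h5 : k / (u + 2) * a ≤ T * a := by
    gcongr
    exact (div_le_self hk0 (by linarith)).trans hkT
  have h6 : k * Real.log c1 ≤ T * Real.log c1 := by gcongr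
  have h7 : θ * (v - y) ≤ v - y := mul_le_of_le_one_left (by linarith) hθ1
  have h8 : q + v + θ * R ≤ Sg + 2 * k * L 1 + (C1 + (T + 1) * a + 2 * T * Real.log c1) := by
    rcases le_total R (v - y) with h | h
    · have : θ * R ≤ θ * (v - y) := by gcongr
      nlinarith
    · have : θ * (R - (v - y)) ≤ k / (u + 2) * (R - (v - y)) := by gcongr
      nlinarith
  have h9 : R = v - S + j * L 1 - e * (L (j - 1) - L 1) := by rw [hR, hSg, he']; ring
  have h10 : (k : ℝ) = n + 1 - j - t - e := by linarith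
  rw [← h9]
  rw [hSg, h10] at h8
  linarith

end Pool.Agent.MP_06f5ad_nt

end

section

open Polynomial

namespace Pool.Agent.MP_06f5ad_nt

/-- the normalised system of inequalities with the gain -/
def Sys (n : ℕ) (W ε : ℝ) (L : ℕ → ℝ) : Prop :=
  L 0 = L 1 ∧ (∀ b ≤ n, L 1 ≤ L b) ∧ ∑ b ∈ Finset.range (n + 1), L b ≤ 1 + ε ∧
    ∀ j, 2 ≤ j → j ≤ n + 1 → ∃ e : ℕ, j + e ≤ n + 1 ∧ (j = 2 → e = 0) ∧ ∀ θ : ℝ, 0 ≤ θ → θ ≤ 1 →
      (θ = 0 ∨ θ * (j + 3 * e) ≤ n + 1 - j - 2 * e) →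
      1 + min (1 - W * L (j - 1)) (1 / 2) + θ * (min (1 - W * L (j - 1)) (1 / 2) -
        ∑ s ∈ Finset.range j, L s + j * L 1 - e * (L (j - 1) - L 1)) - ε ≤
        ∑ s ∈ Finset.range j, L s + e * L (j - 1) + 2 * (n + 1 - j - e) * L 1

theorem exists_system2 {n : ℕ} (hn : 2 ≤ n) {ξ W c : ℝ} (hW0 : 0 ≤ W) (hc : 0 < c)
    (hξ : ∀ A : ℤ[X], A ≠ 0 → aeval ξ A ≠ 0) (h : Hyp n ξ W c) {ε : ℝ} (hε : 0 < ε) :
    ∃ L : ℕ → ℝ, Sys n W ε L := by
  have hn0 : (1 : ℝ) ≤ n := by exact_mod_cast (by omega : 1 ≤ n)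
  set ε1 := min (ε / 8) 1 / (n + 1) with hε1
  have hm1 := min_le_left (ε / 8) 1
  have hm2 := min_le_right (ε / 8) 1
  have hm0 : 0 < min (ε / 8) 1 := lt_min (by positivity) one_pos
  have hε1p : 0 < ε1 := by positivity
  have hε1n : (n + 1) * ε1 = min (ε / 8) 1 := by rw [hε1]; field_simp
  have hε1l : ε1 ≤ ε / 16 := by nlinarith
  obtain ⟨C0, hC0, h0⟩ := deriv_family (n := n) (by omega) hW0 hc h hε1p
  obtain ⟨C1, hC1, h1⟩ := exists_minima n (by omega) ξ
  obtain ⟨C2, hC2, h2⟩ := nrm_shift_le n ξ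
  obtain ⟨C3, hC3, h3⟩ := new_ineq n hn ξ (fun c hc => hξ (X - C (c : ℤ)) (X_sub_C_ne_zero _)
    (by simp [hc]))
  obtain ⟨C5, hC5, h5⟩ := exists_raise n ξ
  obtain ⟨B, hB, h6⟩ := exists_deriv_const n ξ
  have hlB := Real.log_nonneg hB
  set a := Real.log B + C2 with ha
  have ha0 : 0 ≤ a := by positivity
  set C6 := C1 + (n + 1) * C5 with hC6
  have hC60 : 0 ≤ C6 := by positivity
  set C4 := 2 * C0 + C6 + C3 + 2 * (n + 1) * a with hC4
  obtain ⟨q, μ, l0, P0, Q, hq0, -, hP1, hPn0, hQn, hcop0, hμ, hlμ, hmin, hLP0, hLQ0⟩ :=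
    exists_good n (by omega) ξ hξ hε1p (C6 + 1 + 2 * C4 / ε)
  have hC4ε : 0 ≤ 2 * C4 / ε := by positivity
  have hq1 : 1 ≤ q := by linarith
  have hqp : 0 < q := by linarith
  have hC4q : 2 * C4 ≤ ε * q := by
    have : 2 * C4 / ε ≤ q := by linarith
    rwa [div_le_iff₀' hε] at this
  have hQ0 : Q ≠ 0 := by
    rintro rfl
    obtain ⟨β, hβ⟩ := exists_root_of_pos hP1
    exact hcop0 β hβ (map_zero _)
  obtain ⟨P, hPn, hcop, hLP⟩ := h5 q l0 P0 Q (by rintro rfl; simp at hP1) hQ0 hPn0 hQn hcop0 hLP0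
  set l := l0 + C5 with hl
  have hLQ : Lev ξ q l Q := hLQ0.mono (by linarith)
  have hP0 : P ≠ 0 := by rintro rfl; simp at hPn; omega
  obtain ⟨x, L, hx0, hx1, hL0, hL1, hmono, hx, hsum⟩ := h1 q μ l P Q hqp.le hPn.le hQn hP0
    (hcop.notMem_span (by omega)) (by linarith) hmin hLP hLQ
  have hl0 : 0 ≤ l := hLP.nonneg hP0
  have hmono' : ∀ a b, a ≤ b → b ≤ n → L a ≤ L b := by
    intro a b hab hb
    induction b, hab using Nat.le_induction with
    | base => exact le_rfl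
    | succ b hab ih => exact (ih (by omega)).trans (hmono b (by omega))
  have hpos : ∀ b ≤ n, 0 ≤ L b := fun b hb => (hL0 ▸ hl0).trans (hmono' 0 b (by omega) hb)
  have hsum' : ∑ b ∈ Finset.range (n + 1), L b ≤ q + C6 + min (ε / 8) 1 * q := by
    rw [← hε1n]
    refine hsum.trans ?_
    have : (n + 1) * (l0 - μ) ≤ (n + 1) * (ε1 * q) := by gcongr
    linarith
  have hup : ∀ b ≤ n, L b ≤ 3 * q := by
    intro b hb
    have := Finset.single_le_sum (f := L) (s := Finset.range (n + 1))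
      (fun i hi => hpos i (Nat.lt_succ_iff.mp (Finset.mem_range.mp hi)))
      (Finset.mem_range.mpr (Nat.lt_succ_of_le hb))
    nlinarith
  have hC42 : 0 ≤ 2 * (n + 1) * a := by positivity
  refine ⟨fun b => L b / q, by simp [hL0, hL1], fun b hb => div_le_div_of_nonneg_right
    (by rw [hL1, ← hL0]; exact hmono' _ _ (by omega) hb) hqp.le, ?_, ?_⟩
  · rw [← Finset.sum_div, div_le_iff₀ hqp]
    nlinarith
  intro j hj hjn
  set Λ := L (j - 1) with hΛ
  have hΛ0 : 0 ≤ Λ := hpos _ (by omega)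
  have hΛ3 : Λ ≤ 3 * q := hup _ (by omega)
  set mx := max (W * Λ - q) (-q / 2) with hmx
  have hmx2 : -q / 2 ≤ mx := le_max_right _ _
  have hεΛ : 0 ≤ ε1 * Λ := by positivity
  set v := max (-(C0 + ε1 * Λ + mx)) 0 with hv
  have hv1 : -(C0 + ε1 * Λ + mx) ≤ v := le_max_left _ _
  have hv2 : v ≤ q / 2 := max_le (by linarith) (by linarith)
  obtain ⟨e, he1, he2, he3⟩ := h3 q v j x (fun b => L b + a) (le_max_right _ _) (by linarith) hj
    (by rw [hx0, hx1]; exact hcop) (by rw [hx0]; exact hPn) (by simp [hL0, hL1])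
    (fun a b hab hb => by linarith [hmono' a b hab (by omega)])
    (fun b hb => ⟨(hx b (by omega)).1, (hx b (by omega)).2.2⟩) (by
      intro s hs k hk
      have hs1 := hx s (by omega)
      rw [ha, ← add_assoc]
      refine h2 q _ _ (x s) k hk (by linarith) (hs1.2.1.mono (by linarith)) ?_
      rcases max_choice (-(C0 + ε1 * Λ + mx)) 0 with h7 | h7
      · rw [hv, h7]
        refine (h0 q Λ l (L s) P Q (x s) hP0 hPn.le hQn hs1.1 hcop hLP hLQ hs1.2.1
          (hL0 ▸ hmono' 0 _ (by omega) (by omega)) (hmono' _ _ (by omega) (by omega))).trans ?_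
        rw [Real.exp_le_exp]
        linarith
      · rw [hv, h7, sub_zero, Real.exp_add, Real.exp_log (by linarith), mul_comm]
        refine ((h6 (x s) hs1.1).2.1 ξ (by simp)).trans ?_
        gcongr
        exact hs1.2.1.1)
  refine ⟨e, he1, he2, fun θ hθ0 hθ1 hθ => ?_⟩
  have h7 := he3 θ hθ0 hθ1 hθ
  rw [Finset.sum_add_distrib, Finset.sum_const, Finset.card_range, nsmul_eq_mul, ← hΛ] at h7
  set S := ∑ b ∈ Finset.range j, L b with hS
  have h8 : min (1 - W * (Λ / q)) (1 / 2) = -mx / q := by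
    rw [eq_div_iff hqp.ne', min_mul_of_nonneg _ _ hqp.le, hmx, ← min_neg_neg]
    congr 1
    · field_simp; ring
    · ring
  simp only
  rw [← Finset.sum_div, ← hS, ← hΛ, h8]
  have h9 : ε1 * Λ ≤ ε / 16 * (3 * q) := by gcongr
  have h10 : θ * (-(C0 + ε1 * Λ + mx)) ≤ θ * v := by gcongr
  have h11 : θ * (C0 + ε1 * Λ) ≤ C0 + ε1 * Λ := mul_le_of_le_one_left (by linarith) hθ1
  have h12 : ((j : ℝ) + e) * a ≥ 0 := by positivity
  have h13 : q - mx + θ * (-mx - S + j * L 1 - e * (Λ - L 1)) - ε * q ≤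
      S + e * Λ + 2 * (n + 1 - j - e) * L 1 := by nlinarith
  rw [← sub_nonneg] at h13 ⊢
  refine (div_nonneg h13 hqp.le).trans (le_of_eq ?_)
  field_simp
  ring

end Pool.Agent.MP_06f5ad_nt

end
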