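import Mathlib

set_option linter.all false

section

open Polynomial

namespace Pool.Agent.MP_06f5ad_nt

/-- Mahler measure of an integer polynomial -/
noncomputable def mm (P : ℤ[X]) : ℝ := (P.map (Int.castRingHom ℂ)).mahlerMeasure

lemma mm_mul (P Q : ℤ[X]) : mm (P * Q) = mm P * mm Q := by
  unfold mm
  rw [Polynomial.map_mul, mahlerMeasure_mul]

lemma mm_nonneg (P : ℤ[X]) : 0 ≤ mm P := mahlerMeasure_nonneg _

lemma one_le_mm {P : ℤ[X]} (h : P ≠ 0) : 1 ≤ mm P := one_le_mahlerMeasure_of_ne_zero h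

lemma mm_C (a : ℤ) : mm (C a) = |(a : ℝ)| := by
  unfold mm
  rw [Polynomial.map_C, mahlerMeasure_const]
  simp

lemma lc_le_mm (P : ℤ[X]) : |(P.leadingCoeff : ℝ)| ≤ mm P := by
  have h := (P.map (Int.castRingHom ℂ)).leadingCoeff_le_mahlerMeasure
  rw [leadingCoeff_map_of_injective (Int.castRingHom ℂ).injective_int] at h
  unfold mm
  simpa using h

lemma coeff_le (P : ℤ[X]) (i : ℕ) : |(P.coeff i : ℝ)| ≤ P.supNorm := by
  have h := P.le_supNorm i
  rwa [Int.norm_eq_abs] at h

lemma supNorm_le {P : ℤ[X]} {H : ℝ} (h : ∀ i, |(P.coeff i : ℝ)| ≤ H) : P.supNorm ≤ H := by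
  obtain ⟨i, hi⟩ := P.exists_eq_supNorm
  rw [hi, Int.norm_eq_abs]
  exact h i

lemma one_le_supNorm {P : ℤ[X]} (h : P ≠ 0) : 1 ≤ P.supNorm := by
  have h1 : (1 : ℤ) ≤ |P.leadingCoeff| := Int.one_le_abs (leadingCoeff_ne_zero.mpr h)
  have h2 : (1 : ℝ) ≤ |(P.leadingCoeff : ℝ)| := by exact_mod_cast h1
  exact h2.trans (coeff_le P _)

lemma supNorm_add_le (P Q : ℤ[X]) : (P + Q).supNorm ≤ P.supNorm + Q.supNorm := by
  apply supNorm_le
  intro i
  rw [coeff_add]
  push_cast
  exact (abs_add_le _ _).trans (add_le_add (coeff_le P i) (coeff_le Q i))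

lemma supNorm_C_mul_le (a : ℤ) (P : ℤ[X]) : (C a * P).supNorm ≤ |(a : ℝ)| * P.supNorm := by
  apply supNorm_le
  intro i
  rw [coeff_C_mul]
  push_cast
  rw [abs_mul]
  exact mul_le_mul_of_nonneg_left (coeff_le P i) (abs_nonneg _)

lemma supNorm_X_pow_mul_le (k : ℕ) (P : ℤ[X]) : (X ^ k * P).supNorm ≤ P.supNorm := by
  apply supNorm_le
  intro i
  rw [coeff_X_pow_mul']
  split_ifs
  · exact coeff_le P _
  · simpa using P.supNorm_nonneg

lemma supNorm_map_eq (P : ℤ[X]) : (P.map (Int.castRingHom ℂ)).supNorm = P.supNorm := by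
  apply le_antisymm
  · obtain ⟨i, hi⟩ := (P.map (Int.castRingHom ℂ)).exists_eq_supNorm
    rw [hi, coeff_map]
    simpa using coeff_le P i
  · apply supNorm_le
    intro i
    have h := (P.map (Int.castRingHom ℂ)).le_supNorm i
    rw [coeff_map] at h
    simpa using h

lemma supNorm_le_mm {P : ℤ[X]} {n : ℕ} (h : P.natDegree ≤ n) : P.supNorm ≤ 2 ^ n * mm P := by
  apply supNorm_le
  intro i
  have h1 := (P.map (Int.castRingHom ℂ)).norm_coeff_le_choose_mul_mahlerMeasure i
  rw [coeff_map, natDegree_map_eq_of_injective (Int.castRingHom ℂ).injective_int] at h1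
  have h2 : (P.natDegree.choose i : ℝ) ≤ 2 ^ n := by
    have : P.natDegree.choose i ≤ 2 ^ n :=
      (Nat.choose_le_two_pow _ _).trans (Nat.pow_le_pow_right (by norm_num) h)
    exact_mod_cast this
  have h3 : |(P.coeff i : ℝ)| ≤ (P.natDegree.choose i : ℝ) * mm P := by
    unfold mm
    simpa using h1
  exact h3.trans (mul_le_mul_of_nonneg_right h2 (mm_nonneg P))

lemma mm_le_supNorm {P : ℤ[X]} {n : ℕ} (h : P.natDegree ≤ n) : mm P ≤ (n + 1) * P.supNorm := by
  have h1 := (P.map (Int.castRingHom ℂ)).mahlerMeasure_le_sqrt_natDegree_add_one_mul_supNorm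
  rw [supNorm_map_eq, natDegree_map_eq_of_injective (Int.castRingHom ℂ).injective_int] at h1
  refine h1.trans (mul_le_mul_of_nonneg_right ?_ P.supNorm_nonneg)
  have h2 : (P.natDegree : ℝ) ≤ n := by exact_mod_cast h
  rw [Real.sqrt_le_left (by positivity)]
  have : (0 : ℝ) ≤ n := by positivity
  nlinarith

lemma mm_le_of_dvd {P Q : ℤ[X]} (hQ : Q ≠ 0) (h : P ∣ Q) : mm P ≤ mm Q := by
  obtain ⟨R, rfl⟩ := h
  rw [mm_mul]
  have hR : R ≠ 0 := right_ne_zero_of_mul hQ
  exact le_mul_of_one_le_right (mm_nonneg P) (one_le_mm hR)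

/-- weighted determinant bound -/
lemma abs_det_le {κ : Type*} [Fintype κ] [DecidableEq κ] (A : Matrix κ κ ℝ) (r c : κ → ℝ)
    (h : ∀ i j, |A i j| ≤ r i * c j) :
    |A.det| ≤ ((Fintype.card κ).factorial : ℝ) * ((∏ i, r i) * ∏ j, c j) := by
  rw [Matrix.det_apply']
  refine (Finset.abs_sum_le_sum_abs _ _).trans ?_
  have : ∀ σ : Equiv.Perm κ, |((Equiv.Perm.sign σ : ℤ) : ℝ) * ∏ i, A (σ i) i| ≤
      (∏ i, r i) * ∏ j, c j := by
    intro σ
    have hs : |((Equiv.Perm.sign σ : ℤ) : ℝ)| = 1 := by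
      rcases Int.units_eq_one_or (Equiv.Perm.sign σ) with h | h <;> simp [h]
    rw [abs_mul, hs, one_mul, Finset.abs_prod, ← Equiv.prod_comp σ r, ← Finset.prod_mul_distrib]
    exact Finset.prod_le_prod (fun i _ => abs_nonneg _) (fun i _ => h _ _)
  refine (Finset.sum_le_sum fun σ _ => this σ).trans ?_
  rw [Finset.sum_const, Finset.card_univ, Fintype.card_perm, nsmul_eq_mul]

/-- no common complex root -/
def Cop (P Q : ℤ[X]) : Prop := ∀ β : ℂ, aeval β P = 0 → aeval β Q ≠ 0

lemma Cop.symm {P Q : ℤ[X]} (h : Cop P Q) : Cop Q P := fun β h1 h2 => h β h2 h1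

lemma exists_nat_notMem (S : Finset ℂ) : ∃ s : ℕ, s ≤ S.card ∧ (s : ℂ) ∉ S := by
  classical
  have h : S.card < ((Finset.range (S.card + 1)).image (fun s : ℕ => (s : ℂ))).card := by
    rw [Finset.card_image_of_injective _ Nat.cast_injective]
    simp
  obtain ⟨x, hx, hxS⟩ := Finset.exists_mem_notMem_of_card_lt_card h
  obtain ⟨s, hs, rfl⟩ := Finset.mem_image.mp hx
  exact ⟨s, Nat.lt_succ_iff.mp (Finset.mem_range.mp hs), hxS⟩

lemma card_aroots_le (P : ℤ[X]) : ((P.aroots ℂ).toFinset).card ≤ P.natDegree := by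
  classical
  refine (Multiset.toFinset_card_le _).trans ((card_roots' _).trans natDegree_map_le)

lemma mem_aroots_of {P : ℤ[X]} (hP : P ≠ 0) {β : ℂ} (h : aeval β P = 0) :
    β ∈ (P.aroots ℂ).toFinset := by
  classical
  rw [Multiset.mem_toFinset, mem_aroots]
  exact ⟨hP, h⟩

/-- a small shift makes things coprime -/
lemma exists_cop_add {P Q : ℤ[X]} (hP : P ≠ 0) (h : Cop P Q) (A : ℤ[X]) :
    ∃ s : ℕ, s ≤ P.natDegree ∧ Cop P (A + C (s : ℤ) * Q) := by
  classical
  obtain ⟨s, hs, hsS⟩ := exists_nat_notMem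
    ((P.aroots ℂ).toFinset.image fun β => - aeval β A / aeval β Q)
  refine ⟨s, hs.trans (Finset.card_image_le.trans (card_aroots_le P)), fun β h1 h2 => hsS ?_⟩
  refine Finset.mem_image.mpr ⟨β, mem_aroots_of hP h1, ?_⟩
  have hQ := h β h1
  rw [map_add, map_mul, aeval_C] at h2
  simp only [algebraMap_int_eq, eq_intCast, Int.cast_natCast] at h2
  field_simp
  linear_combination -h2

lemma Cop.isCoprime {P Q : ℤ[X]} (h : Cop P Q) :
    IsCoprime (P.map (Int.castRingHom ℚ)) (Q.map (Int.castRingHom ℚ)) := by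
  rw [isCoprime_iff_aeval_ne_zero_of_isAlgClosed (k := ℚ) ℂ]
  intro a
  have e : ∀ R : ℤ[X], aeval a (R.map (Int.castRingHom ℚ)) = aeval a R := fun R =>
    aeval_map_algebraMap ℚ a R
  rw [e, e]
  by_cases h1 : aeval a P = 0
  · exact Or.inr (h a h1)
  · exact Or.inl h1

end Pool.Agent.MP_06f5ad_nt

end

section

open Polynomial

namespace Pool.Agent.MP_06f5ad_nt

section
variable {O : Type*} [CommRing O]

lemma C_dvd_of_map_mk_eq_zero (w : O) (f : O[X])
    (h : f.map (Ideal.Quotient.mk (Ideal.span {w})) = 0) : C w ∣ f := by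
  rw [C_dvd_iff_dvd_coeff]
  intro i
  have := congrArg (fun g => g.coeff i) h
  simp only [coeff_map, coeff_zero] at this
  rwa [Ideal.Quotient.eq_zero_iff_mem, Ideal.mem_span_singleton] at this

lemma map_mk_eq_zero_of_C_dvd (w : O) (f : O[X]) (h : C w ∣ f) :
    f.map (Ideal.Quotient.mk (Ideal.span {w})) = 0 := by
  obtain ⟨g, rfl⟩ := h
  rw [Polynomial.map_mul, map_C, Ideal.Quotient.eq_zero_iff_mem.mpr (Ideal.mem_span_singleton_self w)]
  simp

/-- uniqueness of lifted factorisations -/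
lemma unique_lift (w π : O) (hnil : ∃ N : ℕ, w ∣ π ^ N) (φ γ φ' γ' : O[X]) (k : ℕ)
    (hφ : φ.natDegree ≤ k) (hφ' : φ'.natDegree ≤ k) (hu : IsUnit (φ.coeff k))
    (hlc : w ∣ φ.coeff k - φ'.coeff k) (hprod : C w ∣ φ * γ - φ' * γ')
    (hcop : ∃ A B E : O[X], A * φ + B * γ' = 1 + C π * E) : C w ∣ φ - φ' := by
  set I : Ideal O := Ideal.span {w} with hI
  set m : O →+* O ⧸ I := Ideal.Quotient.mk I with hm
  apply C_dvd_of_map_mk_eq_zero
  rw [← hI, ← hm]
  rcases subsingleton_or_nontrivial (O ⧸ I) with hs | hs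
  · exact Subsingleton.elim _ _
  obtain ⟨A, B, E, hABE⟩ := hcop
  obtain ⟨N, hN⟩ := hnil
  have hπ : IsNilpotent (C (m π) * E.map m) := by
    refine ⟨N, ?_⟩
    rw [mul_pow, ← C_pow, ← map_pow,
      Ideal.Quotient.eq_zero_iff_mem.mpr (Ideal.mem_span_singleton.mpr hN)]
    simp
  have hunit : IsUnit (1 + C (m π) * E.map m) := hπ.isUnit_one_add
  have h1 : A.map m * φ.map m + B.map m * γ'.map m = 1 + C (m π) * E.map m := by
    have := congrArg (Polynomial.map m) hABE
    simpa [Polynomial.map_add, Polynomial.map_mul] using this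
  have hcop' : IsCoprime (φ.map m) (γ'.map m) := by
    obtain ⟨u, hu'⟩ := hunit.exists_left_inv
    exact ⟨u * A.map m, u * B.map m, by rw [← hu', ← h1]; ring⟩
  have h2 : φ.map m * γ.map m = φ'.map m * γ'.map m := by
    have := map_mk_eq_zero_of_C_dvd w _ hprod
    rw [← hI, ← hm, Polynomial.map_sub, Polynomial.map_mul, Polynomial.map_mul] at this
    exact sub_eq_zero.mp this
  have h3 : φ.map m ∣ φ'.map m := hcop'.dvd_of_dvd_mul_right ⟨γ.map m, h2.symm⟩
  have h4 : φ.map m ∣ (φ - φ').map m := by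
    rw [Polynomial.map_sub]
    exact dvd_sub (dvd_refl _) h3
  obtain ⟨v, hv⟩ := (hu.map m).exists_left_inv
  have hdeg : (C v * φ.map m).natDegree ≤ k :=
    (natDegree_C_mul_le _ _).trans (natDegree_map_le.trans hφ)
  have hco : (C v * φ.map m).coeff k = 1 := by
    rw [coeff_C_mul, coeff_map, hv]
  have hmon : (C v * φ.map m).Monic := monic_of_natDegree_le_of_coeff_eq_one k hdeg hco
  have hdeg' : (C v * φ.map m).natDegree = k :=
    le_antisymm hdeg (le_natDegree_of_ne_zero (by rw [hco]; exact one_ne_zero))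
  have h5 : C v * φ.map m ∣ (φ - φ').map m := by
    obtain ⟨g, hg⟩ := h4
    refine ⟨C (m (φ.coeff k)) * g, ?_⟩
    rw [hg]
    have : C v * C (m (φ.coeff k)) = 1 := by rw [← C_mul, hv, C_1]
    linear_combination (-(φ.map m * g)) * this
  by_contra hne
  refine hmon.not_dvd_of_degree_lt hne ?_ h5
  rw [degree_eq_natDegree hmon.ne_zero, hdeg', degree_lt_iff_coeff_zero]
  intro j hj
  rw [coeff_map, coeff_sub]
  rcases hj.eq_or_lt with rfl | hj
  · exact Ideal.Quotient.eq_zero_iff_mem.mpr (Ideal.mem_span_singleton.mpr hlc)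
  · rw [coeff_eq_zero_of_natDegree_lt (hφ.trans_lt hj),
      coeff_eq_zero_of_natDegree_lt (hφ'.trans_lt hj)]
    simp

lemma prod_sub_dvd_eval [IsDomain O] {ι : Type*} [DecidableEq ι] (s : Finset ι) (z : ι → O)
    (hz : Set.InjOn z s) (x : O) (c : O[X]) (hc : ∀ j ∈ s, c.eval (z j) = 0) :
    ∏ j ∈ s, (x - z j) ∣ c.eval x := by
  induction s using Finset.induction_on generalizing c with
  | empty => simp
  | insert i s hi ih =>
    rw [Finset.prod_insert hi]
    obtain ⟨c', hc'⟩ := dvd_iff_isRoot.mpr (hc i (Finset.mem_insert_self i s))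
    have h1 : ∀ j ∈ s, c'.eval (z j) = 0 := by
      intro j hj
      have h2 := hc j (Finset.mem_insert_of_mem hj)
      rw [hc', eval_mul, eval_sub, eval_X, eval_C] at h2
      refine (mul_eq_zero.mp h2).resolve_left (sub_ne_zero.mpr fun h => hi ?_)
      have := hz (Finset.mem_coe.mpr (Finset.mem_insert_of_mem hj))
        (Finset.mem_coe.mpr (Finset.mem_insert_self i s)) h
      exact this ▸ hj
    have h3 := ih (hz.mono (by simp)) c' h1
    rw [hc', eval_mul, eval_sub, eval_X, eval_C]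
    exact mul_dvd_mul_left _ h3

lemma C_prod_dvd_map [IsDomain O] {ι : Type*} [DecidableEq ι] (s : Finset ι) (z : ι → O)
    (hz : Set.InjOn z s) (x : O) (F : O[X][X])
    (hF : ∀ j ∈ s, F.map (evalRingHom (z j)) = 0) :
    C (∏ j ∈ s, (x - z j)) ∣ F.map (evalRingHom x) := by
  rw [C_dvd_iff_dvd_coeff]
  intro i
  rw [coeff_map, coe_evalRingHom]
  apply prod_sub_dvd_eval s z hz
  intro j hj
  have := congrArg (fun g => g.coeff i) (hF j hj)
  simpa [coeff_map] using this

lemma C_dvd_map_sub (π x y : O) (hx : π ∣ x) (hy : π ∣ y) (F : O[X][X]) :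
    C π ∣ F.map (evalRingHom x) - F.map (evalRingHom y) := by
  rw [C_dvd_iff_dvd_coeff]
  intro i
  rw [coeff_sub, coeff_map, coeff_map, coe_evalRingHom, coe_evalRingHom]
  exact (dvd_sub hx hy).trans (sub_dvd_eval_sub x y _)

lemma map_C_map_eval (f : O[X]) (x : O) : (f.map C).map (evalRingHom x) = f := by
  rw [Polynomial.map_map]
  have : (evalRingHom x).comp C = RingHom.id O := by
    ext a
    simp
  rw [this, Polynomial.map_id]

/-- integral interpolation of factorisations -/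
lemma interp [IsDomain O] {ι : Type*} [DecidableEq ι] (π : O)
    (hnil : ∀ w : O, w ≠ 0 → ∃ N : ℕ, w ∣ π ^ N) (z : ι → O) (φ γ : ι → O[X]) (a : O[X])
    (R : O[X][X]) (k k' : ℕ) (s : Finset ι) (hz : Set.InjOn z s) (hzπ : ∀ i ∈ s, π ∣ z i)
    (hφ : ∀ i ∈ s, (φ i).natDegree ≤ k) (hγ : ∀ i ∈ s, (γ i).natDegree ≤ k')
    (hφa : ∀ i ∈ s, (φ i).coeff k = a.eval (z i)) (hγa : ∀ i ∈ s, (γ i).coeff k' = a.eval (z i))
    (hu : ∀ i ∈ s, IsUnit (a.eval (z i)))
    (hR : ∀ i ∈ s, φ i * γ i = R.map (evalRingHom (z i)))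
    (hφφ : ∀ i ∈ s, ∀ j ∈ s, C π ∣ φ i - φ j) (hγγ : ∀ i ∈ s, ∀ j ∈ s, C π ∣ γ i - γ j)
    (hcop : ∀ i ∈ s, ∃ A B E : O[X], A * φ i + B * γ i = 1 + C π * E) :
    ∃ F G : O[X][X], F.natDegree ≤ k ∧ G.natDegree ≤ k' ∧
      (∀ i ∈ s, F.map (evalRingHom (z i)) = φ i) ∧ (∀ i ∈ s, G.map (evalRingHom (z i)) = γ i) := by
  induction s using Finset.induction_on with
  | empty => exact ⟨0, 0, by simp, by simp, by simp, by simp⟩
  | insert i s hi ih =>
    have hsub : ∀ j ∈ s, j ∈ insert i s := fun j hj => Finset.mem_insert_of_mem hj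
    have hi' : i ∈ insert i s := Finset.mem_insert_self i s
    rcases s.eq_empty_or_nonempty with rfl | ⟨j0, hj0⟩
    · refine ⟨(φ i).map C, (γ i).map C, natDegree_map_le.trans (hφ i hi'),
        natDegree_map_le.trans (hγ i hi'), ?_, ?_⟩
      · intro j hj
        have : j = i := by simpa using hj
        rw [this, map_C_map_eval]
      · intro j hj
        have : j = i := by simpa using hj
        rw [this, map_C_map_eval]
    have hzs : Set.InjOn z s := hz.mono (by simp)
    obtain ⟨F, G, hF, hG, hFφ, hGγ⟩ := ih hzs (fun j hj => hzπ j (hsub j hj))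
      (fun j hj => hφ j (hsub j hj)) (fun j hj => hγ j (hsub j hj))
      (fun j hj => hφa j (hsub j hj)) (fun j hj => hγa j (hsub j hj))
      (fun j hj => hu j (hsub j hj)) (fun j hj => hR j (hsub j hj))
      (fun j hj l hl => hφφ j (hsub j hj) l (hsub l hl))
      (fun j hj l hl => hγγ j (hsub j hj) l (hsub l hl)) (fun j hj => hcop j (hsub j hj))
    set w : O := ∏ j ∈ s, (z i - z j) with hw
    have hw0 : w ≠ 0 := by
      rw [hw, Finset.prod_ne_zero_iff]
      intro j hj h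
      have := hz (Finset.mem_coe.mpr hi') (Finset.mem_coe.mpr (hsub j hj)) (sub_eq_zero.mp h)
      exact hi (this ▸ hj)
    set φ' := F.map (evalRingHom (z i)) with hφ'
    set γ' := G.map (evalRingHom (z i)) with hγ'
    have hprod : C w ∣ φ i * γ i - φ' * γ' := by
      have h := C_prod_dvd_map s z hzs (z i) (R - F * G) (by
        intro j hj
        rw [Polynomial.map_sub, Polynomial.map_mul, hFφ j hj, hGγ j hj, hR j (hsub j hj), sub_self])
      rwa [Polynomial.map_sub, Polynomial.map_mul, ← hR i hi'] at h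
    have hlc : ∀ (F : O[X][X]) (φ : ι → O[X]) (k : ℕ),
        (∀ j ∈ s, F.map (evalRingHom (z j)) = φ j) →
        (∀ j ∈ insert i s, (φ j).coeff k = a.eval (z j)) →
        w ∣ (φ i).coeff k - (F.map (evalRingHom (z i))).coeff k := by
      intro F φ k h1 h2
      have h := prod_sub_dvd_eval s z hzs (z i) (a - F.coeff k) (by
        intro j hj
        have h3 := congrArg (fun g => g.coeff k) (h1 j hj)
        simp only [coeff_map, coe_evalRingHom] at h3
        rw [eval_sub, h3, h2 j (hsub j hj), sub_self])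
      rwa [eval_sub, ← h2 i hi', ← coe_evalRingHom, ← coeff_map] at h
    have hφc : C π ∣ φ' - φ i := by
      have h1 := C_dvd_map_sub π (z i) (z j0) (hzπ i hi') (hzπ j0 (hsub j0 hj0)) F
      rw [hFφ j0 hj0] at h1
      have h2 := hφφ j0 (hsub j0 hj0) i hi'
      simpa using dvd_add h1 h2
    have hγc : C π ∣ γ' - γ i := by
      have h1 := C_dvd_map_sub π (z i) (z j0) (hzπ i hi') (hzπ j0 (hsub j0 hj0)) G
      rw [hGγ j0 hj0] at h1
      have h2 := hγγ j0 (hsub j0 hj0) i hi'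
      simpa using dvd_add h1 h2
    obtain ⟨A, B, E, hABE⟩ := hcop i hi'
    obtain ⟨e1, he1⟩ := hφc
    obtain ⟨e2, he2⟩ := hγc
    have hd1 : C w ∣ φ i - φ' := by
      refine unique_lift w π (hnil w hw0) (φ i) (γ i) φ' γ' k (hφ i hi')
        (natDegree_map_le.trans hF) (by rw [hφa i hi']; exact hu i hi') (hlc F φ k hFφ hφa)
        hprod ⟨A, B, E + B * e2, ?_⟩
      linear_combination hABE + B * he2
    have hd2 : C w ∣ γ i - γ' := by
      refine unique_lift w π (hnil w hw0) (γ i) (φ i) γ' φ' k' (hγ i hi')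
        (natDegree_map_le.trans hG) (by rw [hγa i hi']; exact hu i hi') (hlc G γ k' hGγ hγa)
        (by rw [mul_comm (γ i), mul_comm γ']; exact hprod) ⟨B, A, E + A * e1, ?_⟩
      linear_combination hABE + A * he1
    have key : ∀ (F : O[X][X]) (φ : ι → O[X]) (k : ℕ), F.natDegree ≤ k → (φ i).natDegree ≤ k →
        (∀ j ∈ s, F.map (evalRingHom (z j)) = φ j) →
        C w ∣ φ i - F.map (evalRingHom (z i)) →
        ∃ F' : O[X][X], F'.natDegree ≤ k ∧ ∀ j ∈ insert i s, F'.map (evalRingHom (z j)) = φ j := by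
      intro F φ k h1 h2 h3 ⟨D, hD⟩
      have hDk : D.natDegree ≤ k := by
        have : (C w * D).natDegree ≤ k := by
          rw [← hD]
          exact (natDegree_sub_le _ _).trans (max_le h2 (natDegree_map_le.trans h1))
        rwa [natDegree_C_mul hw0] at this
      refine ⟨F + C (∏ j ∈ s, (X - C (z j))) * D.map C, ?_, ?_⟩
      · refine (natDegree_add_le _ _).trans (max_le h1 ?_)
        exact (natDegree_C_mul_le _ _).trans (natDegree_map_le.trans hDk)
      · intro j hj
        rw [Polynomial.map_add, Polynomial.map_mul, map_C, map_C_map_eval, coe_evalRingHom,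
          eval_prod]
        simp only [eval_sub, eval_X, eval_C]
        rcases Finset.mem_insert.mp hj with rfl | hj
        · rw [← hw, ← hD]; ring
        · rw [Finset.prod_eq_zero hj (sub_self _), h3 j hj]; simp
    obtain ⟨F', hF'1, hF'2⟩ := key F φ k hF (hφ i hi') hFφ hd1
    obtain ⟨G', hG'1, hG'2⟩ := key G γ k' hG (hγ i hi') hGγ hd2
    exact ⟨F', G', hF'1, hG'1, hF'2, hG'2⟩

end

end Pool.Agent.MP_06f5ad_nt

end

section

open Polynomial

namespace Pool.Agent.MP_06f5ad_nt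

lemma pow_dvd_det_fin {O : Type*} [CommRing O] [Nontrivial O] (π : O) (M : ℕ) (y : Fin M → O)
    (ψ : Fin M → O[X]) :
    π ^ (∑ j : Fin M, (j : ℕ)) ∣ (Matrix.of fun r c => (ψ c).eval (π * y r)).det := by
  set P : O[X] := ∏ r : Fin M, (X - C (π * y r)) with hP
  have hPm : P.Monic := monic_prod_of_monic _ _ fun r _ => monic_X_sub_C _
  have hPd : P.natDegree = M := by
    rw [hP, natDegree_prod_of_monic _ _ fun r _ => monic_X_sub_C _]
    simp only [natDegree_X_sub_C]
    simp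
  have h1 : (Matrix.of fun r c => (ψ c).eval (π * y r)) =
      Matrix.vandermonde y * Matrix.diagonal (fun j : Fin M => π ^ (j : ℕ)) *
        Matrix.of (fun (j : Fin M) c => (ψ c %ₘ P).coeff j) := by
    ext r c
    have h2 : (ψ c).eval (π * y r) = (ψ c %ₘ P).eval (π * y r) := by
      conv_lhs => rw [← modByMonic_add_div (ψ c) P]
      have : P.eval (π * y r) = 0 := by
        rw [hP, eval_prod]
        exact Finset.prod_eq_zero (Finset.mem_univ r) (by simp)
      rw [eval_add, eval_mul, this]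
      simp
    have h3 : (ψ c %ₘ P).natDegree < M := by
      have hM : P ≠ 1 := by
        intro h
        have : M = 0 := by rw [← hPd, h, natDegree_one]
        exact absurd r.2 (by omega)
      rw [← hPd]
      exact natDegree_modByMonic_lt _ hPm hM
    rw [Matrix.of_apply, h2, eval_eq_sum_range' h3, Matrix.mul_apply,
      ← Fin.sum_univ_eq_sum_range (fun j => (ψ c %ₘ P).coeff j * (π * y r) ^ j)]
    refine Finset.sum_congr rfl fun j _ => ?_
    rw [Matrix.mul_diagonal, Matrix.vandermonde_apply, Matrix.of_apply, mul_pow]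
    ring
  rw [h1, Matrix.det_mul, Matrix.det_mul, Matrix.det_diagonal, Finset.prod_pow_eq_pow_sum]
  exact Dvd.dvd.mul_right (Dvd.intro_left _ rfl) _

lemma pow_dvd_det {O : Type*} [CommRing O] [Nontrivial O] {κ : Type*} [Fintype κ]
    [DecidableEq κ] (π : O) (y : κ → O) (ψ : κ → O[X]) :
    π ^ (∑ j : Fin (Fintype.card κ), (j : ℕ)) ∣
      (Matrix.of fun r c => (ψ c).eval (π * y r)).det := by
  have e := (Fintype.equivFin κ).symm
  have h := pow_dvd_det_fin π _ (y ∘ e) (ψ ∘ e)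
  rw [← Matrix.det_submatrix_equiv_self e]
  exact h

lemma exists_kernel {κ ι : Type} [Fintype κ] [DecidableEq κ] (s : Finset ι) (v : ι → κ → ℚ)
    (h : ∀ e : κ → ι, (∀ r, e r ∈ s) → (Matrix.of fun r c => v (e r) c).det = 0) :
    ∃ w : κ → ℚ, w ≠ 0 ∧ ∀ i ∈ s, ∑ c, w c * v i c = 0 := by
  classical
  by_cases htop : Submodule.span ℚ (Set.range fun i : s => v i) = ⊤
  · exfalso
    obtain ⟨κ', a, -, hspan, hli⟩ := exists_linearIndependent' ℚ (fun i : s => v i)
    rw [htop] at hspan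
    let b : Module.Basis κ' ℚ (κ → ℚ) := Module.Basis.mk hli hspan.ge
    let e : κ ≃ κ' := (Pi.basisFun ℚ κ).indexEquiv b
    have hli' : LinearIndependent ℚ (fun r : κ => v (a (e r))) := hli.comp e e.injective
    have h1 := h (fun r => a (e r)) (fun r => (a (e r)).2)
    have h2 : IsUnit (Matrix.of fun r c => v (a (e r)) c) :=
      Matrix.linearIndependent_rows_iff_isUnit.mp hli'
    rw [Matrix.isUnit_iff_isUnit_det, h1] at h2
    exact not_isUnit_zero h2
  · obtain ⟨f, hf0, hf⟩ := Submodule.exists_le_ker_of_lt_top _ (lt_top_iff_ne_top.mpr htop)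
    refine ⟨fun c => f (fun j => if c = j then 1 else 0), ?_, ?_⟩
    · intro h0
      apply hf0
      ext c
      have := congrFun h0 c
      simp only [Pi.zero_apply] at this
      simp only [LinearMap.coe_comp, Function.comp_apply, LinearMap.zero_comp, LinearMap.zero_apply]
      rw [← this]
      congr 1
      ext j
      simp [Pi.single_apply, eq_comm]
    · intro i hi
      have h1 : f (v i) = 0 := hf (Submodule.subset_span ⟨⟨i, hi⟩, rfl⟩)
      rw [LinearMap.pi_apply_eq_sum_univ] at h1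
      refine Eq.trans ?_ h1
      exact Finset.sum_congr rfl fun c _ => by rw [smul_eq_mul, mul_comm]

lemma sum_fin_two_mul (I : ℕ) : ∑ j : Fin (2 * (I + 1)), (j : ℕ) = (I + 1) * (2 * I + 1) := by
  rw [Fin.sum_univ_eq_sum_range (fun j => j)]
  have := Finset.sum_range_id_mul_two (2 * (I + 1))
  have h2 : 2 * (I + 1) - 1 = 2 * I + 1 := by omega
  rw [h2] at this
  nlinarith

lemma sum_fin_succ (I : ℕ) : (∑ j : Fin (I + 1), (j : ℕ)) * 2 = (I + 1) * I := by
  rw [Fin.sum_univ_eq_sum_range (fun j => j)]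
  simpa using Finset.sum_range_id_mul_two (I + 1)

/-- the determinant method -/
lemma exists_relation (p : ℕ) [hp : Fact p.Prime] (I : ℕ) {ι : Type} (s : Finset ι)
    (k x : ι → ℤ) (f : ℤ_[p][X]) (hf : ∀ i ∈ s, f.eval ((p : ℤ_[p]) * k i) = x i) (K S : ℝ)
    (hK : 1 ≤ K) (hS : 1 ≤ S) (hk : ∀ i ∈ s, |(k i : ℝ)| ≤ K) (hx : ∀ i ∈ s, |(x i : ℝ)| ≤ S)
    (hpb : ((2 * (I + 1)).factorial : ℝ) * K ^ I * S < (p : ℝ) ^ (I + 1)) :
    ∃ a b : ℚ[X], a.natDegree ≤ I ∧ b.natDegree ≤ I ∧ (a ≠ 0 ∨ b ≠ 0) ∧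
      ∀ i ∈ s, a.eval ((p : ℚ) * k i) + b.eval ((p : ℚ) * k i) * x i = 0 := by
  classical
  have hcard : Fintype.card (Fin (I + 1) × Fin 2) = 2 * (I + 1) := by simp [mul_comm]
  have hp0 : (0 : ℝ) < p := by exact_mod_cast hp.out.pos
  obtain ⟨w, hw0, hw⟩ := exists_kernel (κ := Fin (I + 1) × Fin 2) s
    (fun i c => ((p : ℚ) * k i) ^ (c.1 : ℕ) * (x i : ℚ) ^ (c.2 : ℕ)) (by
      intro e he
      set A : Matrix (Fin (I + 1) × Fin 2) (Fin (I + 1) × Fin 2) ℤ :=
        Matrix.of fun r c => ((p : ℤ) * k (e r)) ^ (c.1 : ℕ) * (x (e r)) ^ (c.2 : ℕ) with hA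
      have hdvd : (p : ℤ) ^ ((I + 1) * (2 * I + 1)) ∣ A.det := by
        have h1 := pow_dvd_det (κ := Fin (I + 1) × Fin 2) (p : ℤ_[p]) (fun r => (k (e r) : ℤ_[p]))
          (fun c => X ^ (c.1 : ℕ) * f ^ (c.2 : ℕ))
        rw [hcard, sum_fin_two_mul] at h1
        rw [← PadicInt.pow_p_dvd_int_iff (p := p)]
        have h2 : ((A.det : ℤ) : ℤ_[p]) = (A.map (Int.castRingHom ℤ_[p])).det := by
          rw [← RingHom.mapMatrix_apply, ← RingHom.map_det]; rfl
        rw [h2]
        convert h1 using 2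
        ext r c
        simp [hA, hf _ (he r)]
      have hle : |((A.det : ℤ) : ℝ)| < (p : ℝ) ^ ((I + 1) * (2 * I + 1)) := by
        have h2 : ((A.det : ℤ) : ℝ) = (A.map (Int.castRingHom ℝ)).det := by
          rw [← RingHom.mapMatrix_apply, ← RingHom.map_det]; rfl
        have h3 := abs_det_le (A.map (Int.castRingHom ℝ)) (fun _ => 1)
          (fun c => (p * K) ^ (c.1 : ℕ) * S ^ (c.2 : ℕ)) (by
            intro r c
            simp only [hA, Matrix.map_apply, Matrix.of_apply, eq_intCast, Int.cast_mul,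
              Int.cast_pow, Int.cast_natCast, abs_mul, abs_pow, one_mul, Nat.abs_cast]
            gcongr
            · exact hk _ (he r)
            · exact hx _ (he r))
        rw [h2]
        refine h3.trans_lt ?_
        rw [hcard, Finset.prod_const_one, one_mul, Fintype.prod_prod_type]
        simp only [Fin.prod_univ_two, Fin.isValue, Fin.val_zero, pow_zero, mul_one, Fin.val_one,
          pow_one]
        have h4 : ∏ j : Fin (I + 1), ((p * K) ^ (j : ℕ) * ((p * K) ^ (j : ℕ) * S)) =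
            ((p : ℝ) * K) ^ ((I + 1) * I) * S ^ (I + 1) := by
          rw [Finset.prod_mul_distrib, Finset.prod_mul_distrib, Finset.prod_pow_eq_pow_sum,
            ← sum_fin_succ, Finset.prod_const, Finset.card_univ, Fintype.card_fin]
          ring
        rw [h4]
        have hF : (1 : ℝ) ≤ ((2 * (I + 1)).factorial : ℝ) := by
          exact_mod_cast Nat.factorial_pos _
        have h5 : (((2 * (I + 1)).factorial : ℝ) * K ^ I * S) ^ (I + 1) <
            ((p : ℝ) ^ (I + 1)) ^ (I + 1) :=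
          pow_lt_pow_left₀ hpb (by positivity) (by omega)
        have h6 : ((2 * (I + 1)).factorial : ℝ) ≤ ((2 * (I + 1)).factorial : ℝ) ^ (I + 1) :=
          le_self_pow₀ hF (by omega)
        calc ((2 * (I + 1)).factorial : ℝ) * (((p : ℝ) * K) ^ ((I + 1) * I) * S ^ (I + 1))
            ≤ ((2 * (I + 1)).factorial : ℝ) ^ (I + 1) *
              (((p : ℝ) * K) ^ ((I + 1) * I) * S ^ (I + 1)) := by gcongr
          _ = (((2 * (I + 1)).factorial : ℝ) * K ^ I * S) ^ (I + 1) * (p : ℝ) ^ ((I + 1) * I) := by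
              rw [mul_pow, mul_pow, mul_pow, ← pow_mul, mul_comm I (I + 1)]; ring
          _ < ((p : ℝ) ^ (I + 1)) ^ (I + 1) * (p : ℝ) ^ ((I + 1) * I) := by gcongr
          _ = (p : ℝ) ^ ((I + 1) * (2 * I + 1)) := by
              rw [← pow_mul, ← pow_add]; congr 1; ring
      have h0 : A.det = 0 := by
        apply Int.eq_zero_of_abs_lt_dvd hdvd
        exact_mod_cast hle
      have h2 : ((A.det : ℤ) : ℚ) = (A.map (Int.castRingHom ℚ)).det := by
        rw [← RingHom.mapMatrix_apply, ← RingHom.map_det]; rfl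
      rw [h0] at h2
      rw [Int.cast_zero] at h2
      rw [h2]
      congr 1
      ext r c
      simp [hA])
  have hdeg : ∀ j : Fin 2,
      (∑ c : Fin (I + 1), monomial (c : ℕ) (w (c, j)) : ℚ[X]).natDegree ≤ I := by
    intro j
    apply natDegree_sum_le_of_forall_le
    intro c _
    exact (natDegree_monomial_le _).trans (Nat.lt_succ_iff.mp c.2)
  have hco : ∀ (j : Fin 2) (c : Fin (I + 1)),
      (∑ c : Fin (I + 1), monomial (c : ℕ) (w (c, j)) : ℚ[X]).coeff c = w (c, j) := by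
    intro j c
    rw [finsetSum_coeff, Finset.sum_eq_single c]
    · simp
    · intro d _ hd
      rw [coeff_monomial, if_neg (fun h => hd (Fin.ext h))]
    · simp
  refine ⟨∑ c : Fin (I + 1), monomial (c : ℕ) (w (c, 0)),
    ∑ c : Fin (I + 1), monomial (c : ℕ) (w (c, 1)), hdeg 0, hdeg 1, ?_, ?_⟩
  · by_contra hcon
    push Not at hcon
    apply hw0
    ext ⟨c, j⟩
    fin_cases j
    · have := hco 0 c
      rw [hcon.1] at this
      simpa using this.symm
    · have := hco 1 c
      rw [hcon.2] at this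
      simpa using this.symm
  · intro i hi
    have h1 := hw i hi
    rw [Fintype.sum_prod_type] at h1
    simp only [Fin.sum_univ_two, Fin.isValue, Fin.val_zero, pow_zero, mul_one, Fin.val_one,
      pow_one] at h1
    rw [eval_finsetSum, eval_finsetSum, Finset.sum_mul, ← Finset.sum_add_distrib, ← h1]
    refine Finset.sum_congr rfl fun c _ => ?_
    rw [eval_monomial, eval_monomial]
    ring

end Pool.Agent.MP_06f5ad_nt

end

section

open Polynomial

namespace Pool.Agent.MP_06f5ad_nt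

lemma eval_map_C_C (g : ℚ[X]) (z : ℚ) : (g.map C).eval (C z) = C (g.eval z) := by
  rw [eval_map, eval₂_at_apply]

lemma exists_eval_ne_zero {ι : Type} (s : Finset ι) (z : ι → ℚ) (hz : Set.InjOn z s) (b : ℚ[X])
    (hb : b ≠ 0) (hcard : b.natDegree < s.card) : ∃ i ∈ s, b.eval (z i) ≠ 0 := by
  classical
  by_contra h
  push Not at h
  apply hb
  apply eq_zero_of_natDegree_lt_card_of_eval_eq_zero' b (s.image z)
  · intro x hx
    obtain ⟨i, hi, rfl⟩ := Finset.mem_image.mp hx
    exact h i hi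
  · rwa [Finset.card_image_of_injOn hz]

lemma rational_param {ι : Type} (s : Finset ι) (z : ι → ℚ) (hz : Set.InjOn z s) (I : ℕ)
    (hI : I < s.card) (φ : ι → ℚ[X])
    (h : ∀ j : ℕ, ∃ a b : ℚ[X], a.natDegree ≤ I ∧ b.natDegree ≤ I ∧ (a ≠ 0 ∨ b ≠ 0) ∧
      ∀ i ∈ s, a.eval (z i) + b.eval (z i) * (φ i).coeff j = 0) (m : ℕ) :
    ∃ (b : ℚ[X]) (Φ : ℚ[X][X]), b ≠ 0 ∧ b.natDegree ≤ m * I ∧ Φ.natDegree ≤ m * I ∧
      ∀ i ∈ s, Φ.eval (C (z i)) =
        C (b.eval (z i)) * ∑ j ∈ Finset.range m, monomial j ((φ i).coeff j) := by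
  induction m with
  | zero => exact ⟨1, 0, one_ne_zero, by simp, by simp, by simp⟩
  | succ m ih =>
    obtain ⟨b, Φ, hb0, hb, hΦ, hev⟩ := ih
    obtain ⟨a', b', ha', hb', hne, hrel⟩ := h m
    have hb'0 : b' ≠ 0 := by
      intro h0
      have ha0 : a' ≠ 0 := hne.resolve_right (fun h => h h0)
      obtain ⟨i, hi, hi0⟩ := exists_eval_ne_zero s z hz a' ha0 (ha'.trans_lt hI)
      have := hrel i hi
      rw [h0] at this
      simp at this
      exact hi0 this
    refine ⟨b * b', Φ * b'.map C + (-(a' * b)).map C * C (X ^ m), mul_ne_zero hb0 hb'0, ?_, ?_, ?_⟩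
    · refine natDegree_mul_le.trans ?_
      nlinarith
    · refine (natDegree_add_le _ _).trans (max_le ?_ ?_)
      · refine natDegree_mul_le.trans ?_
        have : (b'.map (C : ℚ →+* ℚ[X])).natDegree ≤ I := natDegree_map_le.trans hb'
        nlinarith
      · refine (natDegree_mul_C_le _ _).trans (natDegree_map_le.trans ?_)
        rw [natDegree_neg]
        refine natDegree_mul_le.trans ?_
        nlinarith
    · intro i hi
      rw [eval_add, eval_mul, eval_mul, eval_map_C_C, eval_map_C_C, eval_C, hev i hi,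
        Finset.sum_range_succ, eval_mul, eval_neg, eval_mul, ← C_mul_X_pow_eq_monomial (n := m)]
      have h1 : a'.eval (z i) = - (b'.eval (z i) * (φ i).coeff m) := by
        linear_combination hrel i hi
      rw [h1]
      simp only [map_mul, map_neg]
      ring

lemma no_many_factor {ι : Type} (s : Finset ι) (z : ι → ℚ) (hz : Set.InjOn z s) (I n : ℕ)
    (hcard : 2 * n * I + I + 2 < s.card) (U V a : ℚ[X]) (hV : V ≠ 0) (hUV : IsCoprime U V)
    (ha : a.natDegree ≤ 1) (φ γ : ι → ℚ[X]) (hφ : ∀ i ∈ s, (φ i).natDegree < n)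
    (hγ : ∀ i ∈ s, (γ i).natDegree < n) (ha0 : ∀ i ∈ s, a.eval (z i) ≠ 0)
    (hdeg : ∀ i ∈ s, (U + C (z i) * V).natDegree = n)
    (hprod : ∀ i ∈ s, φ i * γ i = C (a.eval (z i)) * (U + C (z i) * V))
    (h1 : ∀ j : ℕ, ∃ a b : ℚ[X], a.natDegree ≤ I ∧ b.natDegree ≤ I ∧ (a ≠ 0 ∨ b ≠ 0) ∧
      ∀ i ∈ s, a.eval (z i) + b.eval (z i) * (φ i).coeff j = 0)
    (h2 : ∀ j : ℕ, ∃ a b : ℚ[X], a.natDegree ≤ I ∧ b.natDegree ≤ I ∧ (a ≠ 0 ∨ b ≠ 0) ∧
      ∀ i ∈ s, a.eval (z i) + b.eval (z i) * (γ i).coeff j = 0) : False := by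
  classical
  obtain ⟨b, Φ, hb0, hb, hΦ, hevΦ⟩ := rational_param s z hz I (by omega) φ h1 n
  obtain ⟨b', Γ, hb'0, hb', hΓ, hevΓ⟩ := rational_param s z hz I (by omega) γ h2 n
  have hevΦ' : ∀ i ∈ s, Φ.eval (C (z i)) = C (b.eval (z i)) * φ i := by
    intro i hi
    rw [hevΦ i hi, ← as_sum_range' _ _ (hφ i hi)]
  have hevΓ' : ∀ i ∈ s, Γ.eval (C (z i)) = C (b'.eval (z i)) * γ i := by
    intro i hi
    rw [hevΓ i hi, ← as_sum_range' _ _ (hγ i hi)]
  set R : ℚ[X][X] := C V * X + C U with hR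
  have hRirr : Irreducible R := irreducible_C_mul_X_add_C hV hUV.symm.isRelPrime
  have hRev : ∀ i, R.eval (C (z i)) = U + C (z i) * V := by
    intro i
    simp [hR]
    ring
  have hR1 : R.natDegree ≤ 1 := by
    rw [hR]
    compute_degree
  have hΔ : Φ * Γ - (b * b' * a).map C * R = 0 := by
    apply eq_zero_of_natDegree_lt_card_of_eval_eq_zero' _ (s.image fun i => C (z i))
    · intro x hx
      obtain ⟨i, hi, rfl⟩ := Finset.mem_image.mp hx
      rw [eval_sub, eval_mul, eval_mul, hevΦ' i hi, hevΓ' i hi, eval_map_C_C, hRev, eval_mul,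
        eval_mul, C_mul, C_mul]
      linear_combination C (b.eval (z i)) * C (b'.eval (z i)) * hprod i hi
    · rw [Finset.card_image_of_injOn (fun i hi j hj h => hz hi hj (C_injective h))]
      refine lt_of_le_of_lt ((natDegree_sub_le _ _).trans (max_le ?_ ?_)) hcard
      · refine natDegree_mul_le.trans ?_
        nlinarith
      · refine natDegree_mul_le.trans ?_
        have h3 : ((b * b' * a).map (C : ℚ →+* ℚ[X])).natDegree ≤ n * I + n * I + 1 :=
          natDegree_map_le.trans (natDegree_mul_le.trans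
            (add_le_add (natDegree_mul_le.trans (add_le_add hb hb')) ha))
        nlinarith
  have hdvd : R ∣ Φ * Γ := ⟨(b * b' * a).map C, by linear_combination hΔ⟩
  have hne : ∀ i ∈ s, φ i * γ i ≠ 0 := by
    intro i hi
    rw [hprod i hi]
    refine mul_ne_zero (C_ne_zero.mpr (ha0 i hi)) fun h0 => ?_
    have := hdeg i hi
    have h3 := hφ i hi
    rw [h0, natDegree_zero] at this
    omega
  have key : ∀ (Φ : ℚ[X][X]) (b : ℚ[X]) (φ : ι → ℚ[X]), b ≠ 0 → b.natDegree ≤ n * I →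
      (∀ i ∈ s, (φ i).natDegree < n) → (∀ i ∈ s, φ i ≠ 0) →
      (∀ i ∈ s, Φ.eval (C (z i)) = C (b.eval (z i)) * φ i) → ¬ R ∣ Φ := by
    intro Φ b φ hb0 hb hφ hφ0 hev ⟨Ψ, hΨ⟩
    obtain ⟨i, hi, hi0⟩ := exists_eval_ne_zero s z hz b hb0 (by nlinarith)
    have h3 := hev i hi
    rw [hΨ, eval_mul, hRev] at h3
    have h4 : U + C (z i) * V ∣ C (b.eval (z i)) * φ i := ⟨_, h3.symm⟩
    have h5 := natDegree_le_of_dvd h4 (mul_ne_zero (C_ne_zero.mpr hi0) (hφ0 i hi))
    rw [natDegree_C_mul hi0, hdeg i hi] at h5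
    have := hφ i hi
    omega
  rcases hRirr.prime.dvd_or_dvd hdvd with h | h
  · exact key Φ b φ hb0 hb hφ (fun i hi => left_ne_zero_of_mul (hne i hi)) hevΦ' h
  · exact key Γ b' γ hb'0 hb' hγ (fun i hi => right_ne_zero_of_mul (hne i hi)) hevΓ' h

end Pool.Agent.MP_06f5ad_nt

end

section

open MeasureTheory Matrix

namespace Pool.Agent.MP_06f5ad_nt

/-- Minkowski's linear forms theorem -/
lemma linear_forms {d : ℕ} (G : Matrix (Fin d) (Fin d) ℝ) (h0 : G.det ≠ 0) (h1 : |G.det| < 1) :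
    ∃ z : Fin d → ℤ, z ≠ 0 ∧ ∀ i, |(G *ᵥ fun j => (z j : ℝ)) i| < 1 := by
  classical
  have hdet : LinearMap.det (Matrix.toLin' G) = G.det := LinearMap.det_toLin' G
  have hc : Countable (Submodule.span ℤ (Set.range (Pi.basisFun ℝ (Fin d)))).toAddSubgroup :=
    inferInstanceAs (Countable (Submodule.span ℤ (Set.range (Pi.basisFun ℝ (Fin d)))))
  obtain ⟨x, hx0, hx⟩ := exists_ne_zero_mem_lattice_of_measure_mul_two_pow_lt_measure
    (μ := volume) (s := (Matrix.toLin' G) ⁻¹' (Metric.ball 0 1))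
    (ZSpan.isAddFundamentalDomain' (Pi.basisFun ℝ (Fin d)) volume)
    (by
      intro x hx
      simpa [Matrix.mulVec_neg] using hx)
    ((convex_ball 0 1).linear_preimage _)
    (by
      rw [Measure.addHaar_preimage_linearMap _ (by rw [hdet]; exact h0), hdet,
        Real.volume_pi_ball _ one_pos, ZSpan.volume_fundamentalDomain]
      have : (Matrix.of (Pi.basisFun ℝ (Fin d))) = (1 : Matrix (Fin d) (Fin d) ℝ) := by
        ext i j
        simp [Matrix.one_apply, Pi.single_apply, eq_comm]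
      rw [this, Matrix.det_one, abs_one, ENNReal.ofReal_one, one_mul, Module.finrank_fin_fun,
        Fintype.card_fin, mul_one, ← ENNReal.ofReal_mul (abs_nonneg _)]
      have h2 : (2 : ENNReal) ^ d = ENNReal.ofReal (2 ^ d) := by
        rw [ENNReal.ofReal_pow (by norm_num)]; simp
      rw [h2, ENNReal.ofReal_lt_ofReal_iff (by positivity)]
      have h3 : 1 < |G.det⁻¹| := by
        rw [abs_inv]
        exact (one_lt_inv₀ (abs_pos.mpr h0)).mpr h1
      have h4 : (0 : ℝ) < 2 ^ d := by positivity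
      nlinarith)
  have hz := ((Pi.basisFun ℝ (Fin d)).mem_span_iff_repr_mem ℤ (x : Fin d → ℝ)).mp x.2
  choose z hz using hz
  have e : (fun j => (z j : ℝ)) = (x : Fin d → ℝ) := by
    ext j
    simpa using hz j
  refine ⟨z, ?_, ?_⟩
  · rintro rfl
    apply hx0
    ext j
    rw [← e]
    simp
  · intro i
    rw [e]
    have h2 : ‖G *ᵥ (x : Fin d → ℝ)‖ < 1 := by simpa using hx
    exact (norm_le_pi_norm _ i).trans_lt h2

/-- Minkowski's second theorem, upper bound, in a flexible form -/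
theorem mink2 {d : ℕ} (F : Matrix (Fin d) (Fin d) ℝ) (hF : F.det ≠ 0) (x : Fin d → Fin d → ℝ)
    (lam : Fin d → ℝ) (hpos : ∀ i, 0 < lam i) (hmono : Monotone lam)
    (h : ∀ (z : Fin d → ℤ) (i : Fin d),
      (fun j => (z j : ℝ)) ∉ Submodule.span ℝ (x '' Set.Iio i) →
      ∃ j, lam i ≤ |(F *ᵥ fun j => (z j : ℝ)) j|) :
    ∏ i, lam i ≤ (d : ℝ) ^ d * |F.det| := by
  classical
  rcases Nat.eq_zero_or_pos d with rfl | hd
  · simp
  have hd' : (0 : ℝ) < d := by exact_mod_cast hd
  by_contra hcon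
  push Not at hcon
  have hrk : Module.finrank ℝ (EuclideanSpace ℝ (Fin d)) = Fintype.card (Fin d) := by simp
  set f : Fin d → EuclideanSpace ℝ (Fin d) := fun i => WithLp.toLp 2 (F *ᵥ x i) with hf
  set e := InnerProductSpace.gramSchmidtOrthonormalBasis hrk f with he
  set E : Matrix (Fin d) (Fin d) ℝ := Matrix.of fun i j => e i j with hE
  have hEdet : |E.det| = 1 := by
    have h1 := (EuclideanSpace.basisFun (Fin d) ℝ).det_to_matrix_orthonormalBasis e
    rw [Module.Basis.det_apply, Real.norm_eq_abs, ← Matrix.det_transpose] at h1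
    have h2 : E = ((EuclideanSpace.basisFun (Fin d) ℝ).toBasis.toMatrix e)ᵀ := by
      ext i j
      simp [hE, Module.Basis.toMatrix_apply]
    rw [h2, h1]
  have hEv : ∀ (v : Fin d → ℝ) (i : Fin d), (E *ᵥ v) i = inner ℝ (e i) (WithLp.toLp 2 v) := by
    intro v i
    simp [hE, Matrix.mulVec, dotProduct, PiLp.inner_apply, mul_comm]
  set G := Matrix.diagonal (fun i => (d : ℝ) / lam i) * (E * F) with hG
  have hprod : 0 < ∏ i, lam i := Finset.prod_pos fun i _ => hpos i
  have hGdet : |G.det| = (d : ℝ) ^ d * |F.det| / ∏ i, lam i := by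
    rw [hG, Matrix.det_mul, Matrix.det_mul, Matrix.det_diagonal, abs_mul, abs_mul, hEdet,
      Finset.prod_div_distrib, Finset.prod_const, Finset.card_univ, Fintype.card_fin,
      abs_of_pos (by positivity)]
    ring
  obtain ⟨z, hz0, hz⟩ := linear_forms G (by
    rw [← abs_pos, hGdet]
    have := abs_pos.mpr hF
    positivity) (by rw [hGdet, div_lt_one hprod]; exact hcon)
  set w : Fin d → ℝ := fun j => (z j : ℝ) with hw
  set v : EuclideanSpace ℝ (Fin d) := WithLp.toLp 2 (F *ᵥ w) with hv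
  have hz' : ∀ i, |inner ℝ (e i) v| < lam i / d := by
    intro i
    have h1 := hz i
    rw [hG, ← Matrix.mulVec_mulVec, ← Matrix.mulVec_mulVec, Matrix.mulVec_diagonal, hEv, abs_mul,
      abs_of_pos (div_pos hd' (hpos i)), ← hv] at h1
    rw [lt_div_iff₀ hd']
    rw [div_mul_eq_mul_div, div_lt_one (hpos i)] at h1
    linarith
  have hv0 : v ≠ 0 := by
    intro h0
    have h1 : F *ᵥ w = 0 := by simpa [hv] using h0
    have h2 := Matrix.eq_zero_of_mulVec_eq_zero hF h1
    apply hz0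
    ext j
    have := congrFun h2 j
    simpa [hw] using this
  have hne : (Finset.univ.filter fun i => inner ℝ (e i) v ≠ 0).Nonempty := by
    by_contra hem
    rw [Finset.not_nonempty_iff_eq_empty, Finset.filter_eq_empty_iff] at hem
    apply hv0
    rw [← e.sum_repr' v]
    exact Finset.sum_eq_zero fun i hi => by rw [not_not.mp (hem hi), zero_smul]
  set i := (Finset.univ.filter fun i => inner ℝ (e i) v ≠ 0).max' hne with hi
  have hi1 : inner ℝ (e i) v ≠ 0 := (Finset.mem_filter.mp (Finset.max'_mem _ hne)).2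
  have hi2 : ∀ s, |inner ℝ (e s) v| < lam i / d := by
    intro s
    by_cases hs : inner ℝ (e s) v = 0
    · rw [hs, abs_zero]; exact div_pos (hpos i) hd'
    · have : s ≤ i := Finset.le_max' _ s (Finset.mem_filter.mpr ⟨Finset.mem_univ _, hs⟩)
      exact (hz' s).trans_le (div_le_div_of_nonneg_right (hmono this) hd'.le)
  obtain ⟨j, hj⟩ := h z i (by
    intro hmem
    apply hi1
    have : ∀ u ∈ Submodule.span ℝ (x '' Set.Iio i),
        inner ℝ (e i) (WithLp.toLp 2 (F *ᵥ u) : EuclideanSpace ℝ (Fin d)) = 0 := by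
      intro u hu
      induction hu using Submodule.span_induction with
      | mem u hu =>
        obtain ⟨s, hs, rfl⟩ := hu
        exact InnerProductSpace.gramSchmidtOrthonormalBasis_inv_triangular hrk f hs
      | zero => simp
      | add u u' _ _ h1 h2 => rw [Matrix.mulVec_add, WithLp.toLp_add, inner_add_right, h1, h2, add_zero]
      | smul a u _ h1 => rw [Matrix.mulVec_smul, WithLp.toLp_smul, inner_smul_right, h1, mul_zero]
    exact this w hmem)
  have h1 : |(F *ᵥ w) j| ≤ ‖v‖ := by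
    have := PiLp.norm_apply_le v j
    simpa [hv] using this
  have h2 : ‖v‖ ≤ ∑ s, |inner ℝ (e s) v| := by
    conv_lhs => rw [← e.sum_repr' v]
    refine (norm_sum_le _ _).trans (Finset.sum_le_sum fun s _ => ?_)
    rw [norm_smul, e.orthonormal.1 s, mul_one, Real.norm_eq_abs]
  have h3 : ∑ s, |inner ℝ (e s) v| < ∑ _s : Fin d, lam i / d :=
    Finset.sum_lt_sum_of_nonempty ⟨i, Finset.mem_univ _⟩ fun s _ => hi2 s
  rw [Finset.sum_const, Finset.card_univ, Fintype.card_fin, nsmul_eq_mul,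
    mul_div_cancel₀ _ hd'.ne'] at h3
  linarith

end Pool.Agent.MP_06f5ad_nt

end
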