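import Pool.Agent.MP_06f5ad_nt.CertPoly
import Pool.Agent.Mg.F06f5adq.G691a13
import Pool.Agent.Mg.F06f5adq.G9fb972

set_option linter.all false

open Polynomial

namespace Pool.Agent.MP_06f5ad_nt

/-- the weight of the gain -/
noncomputable def th (s η : ℝ) : ℝ :=
  if 1 - s - 2 * η ≤ 0 then 0 else min 1 ((1 - s - 2 * η) / (s + 3 * η))

lemma quad_nonneg {α β γ η : ℝ} (hα : 0 < α) (h : β ^ 2 ≤ 4 * α * γ ∨ (0 ≤ β ∧ 0 ≤ γ))
    (hη : 0 ≤ η) : 0 ≤ α * η ^ 2 + β * η + γ := by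
  rcases h with h | ⟨h1, h2⟩
  · refine le_of_mul_le_mul_left ?_ (show 0 < 4 * α by positivity)
    nlinarith [sq_nonneg (2 * α * η + β)]
  · positivity

lemma step_of_polys {x p L s h η : ℝ} (hs0 : 0 < s) (hs1 : s ≤ 1) (hη : 0 ≤ η) (hx : 0 ≤ x)
    (ha : 0 ≤ 2 * x - L - 1 / 10)
    (h1 : s ≤ 1 / 2 → 0 ≤ 3 * x - 2 * L ∧ 0 ≤ cX x p L s h + cY x p L s h)
    (h2 : 0 ≤ 4 * (4 * x - L) * cG x p L s h - cB x p L s h ^ 2 ∨
      (0 ≤ cB x p L s h ∧ 0 ≤ cG x p L s h)) :
    0 ≤ cX x p L s h + (2 * x - L) * η + th s η * (cY x p L s h + (x - L) * η) := by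
  have hQ : ∀ η' : ℝ, 0 ≤ η' → 0 ≤ (s + 3 * η') * (cX x p L s h + (2 * x - L) * η') +
      (1 - s - 2 * η') * (cY x p L s h + (x - L) * η') := by
    intro η' h3
    refine (quad_nonneg (α := 4 * x - L) (β := cB x p L s h) (γ := cG x p L s h) (by linarith)
      (h2.imp_left fun h => by linarith) h3).trans_eq ?_
    rw [cB, cG]
    ring
  generalize cX x p L s h = X0 at *
  generalize cY x p L s h = Y0 at *
  unfold th
  split_ifs with h3
  · have h4 := hQ ((1 - s) / 2) (by linarith)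
    rw [show 1 - s - 2 * ((1 - s) / 2) = 0 by ring, zero_mul, add_zero] at h4
    have h5 := nonneg_of_mul_nonneg_right h4 (by linarith)
    nlinarith
  · have hu : 0 < s + 3 * η := by linarith
    rcases le_total 1 ((1 - s - 2 * η) / (s + 3 * η)) with h4 | h4
    · rw [min_eq_left h4]
      rw [le_div_iff₀ hu] at h4
      obtain ⟨h5, h6⟩ := h1 (by linarith)
      nlinarith
    · rw [min_eq_right h4]
      refine (div_nonneg (hQ η hη) hu.le).trans_eq ?_
      field_simp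

lemma stepA {s h η : ℝ} (h1 : 13 / 50 ≤ s) (h2 : s ≤ 1) (h3 : 0 ≤ h) (h4 : h ≤ 1 / 4)
    (hη : 0 ≤ η) : 0 ≤ cX (104 / 125 + 37 / 100 * h) (phiA s h) (lamA s h) s h +
      (2 * (104 / 125 + 37 / 100 * h) - lamA s h) * η + th s η *
      (cY (104 / 125 + 37 / 100 * h) (phiA s h) (lamA s h) s h +
        (104 / 125 + 37 / 100 * h - lamA s h) * η) := by
  refine step_of_polys (by linarith) h2 hη (by positivity) (Aa s h h1 h2 h3 h4)
    (fun h5 => ⟨Aab s h h1 h5 h3 h4, Axy s h h1 h5 h3 h4⟩) ?_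
  rcases le_total s (17 / 25) with h5 | h5
  · exact Or.inl (Adisc s h h1 h5 h3 h4)
  · exact Or.inr ⟨Abe s h h5 h2 h3 h4, Aga s h h5 h2 h3 h4⟩

lemma stepB {s h η : ℝ} (h1 : 13 / 50 ≤ s) (h2 : s ≤ 1) (h3 : 0 ≤ h) (h4 : h ≤ 1 / 4)
    (hη : 0 ≤ η) : 0 ≤ cX (10001 / 10000) (phiB s) (lamB s h) s h +
      (2 * (10001 / 10000) - lamB s h) * η + th s η *
      (cY (10001 / 10000) (phiB s) (lamB s h) s h + (10001 / 10000 - lamB s h) * η) := by
  refine step_of_polys (by linarith) h2 hη (by positivity) (Ba s h h1 h2 h3 h4)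
    (fun h5 => ⟨Bab s h h1 h5 h3 h4, Bxy s h h1 h5 h3 h4⟩) ?_
  rcases le_total s (18 / 25) with h5 | h5
  · exact Or.inl (Bdisc s h h1 h5 h3 h4)
  · exact Or.inr ⟨Bbe s h h5 h2 h3 h4, Bga s h h5 h2 h3 h4⟩

lemma th_spec {s η : ℝ} (hs : 0 < s) (hη : 0 ≤ η) : 0 ≤ th s η ∧ th s η ≤ 1 ∧
    (th s η = 0 ∨ th s η * (s + 3 * η) ≤ 1 - s - 2 * η) := by
  unfold th
  have hu : 0 < s + 3 * η := by linarith
  split_ifs with h
  · exact ⟨le_rfl, zero_le_one, Or.inl rfl⟩
  · refine ⟨le_min zero_le_one (div_nonneg (by linarith) hu.le), min_le_left _ _, Or.inr ?_⟩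
    rw [← le_div_iff₀ hu]
    exact min_le_right _ _

theorem no_sys (n : ℕ) (hn : 3 ≤ n) (L : ℕ → ℝ) : ¬ Sys n (4 * n / 5 + 1) (1 / 10000) L := by
  rintro ⟨h01, hmin, hsum, hI⟩
  have hn3 : (3 : ℝ) ≤ n := by exact_mod_cast hn
  set h : ℝ := 1 / (n + 1) with hh
  have hN : h * (n + 1) = 1 := by rw [hh]; field_simp
  have h0 : 0 < h := by positivity
  have h4 : h ≤ 1 / 4 := by nlinarith
  set x := (n + 1) * L 1 with hx
  have hl : L 1 = x * h := by rw [hx]; linear_combination (-L 1) * hN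
  set S : ℕ → ℝ := fun j => ∑ b ∈ Finset.range j, L b with hS
  have hSl : ∀ j ≤ n + 1, j * L 1 ≤ S j := by
    intro j hj
    have := Finset.card_nsmul_le_sum (Finset.range j) L (L 1) (fun b hb =>
      hmin b (by have := Finset.mem_range.mp hb; omega))
    rwa [Finset.card_range, nsmul_eq_mul] at this
  have hxb : x ≤ 10001 / 10000 := by
    have := (hSl _ le_rfl).trans hsum
    push_cast at this
    linarith
  have hW : ∀ y : ℝ, (4 * n / 5 + 1) * (y * h) = (4 / 5 + h / 5) * y := fun y => by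
    linear_combination (4 / 5 * y) * hN
  have hxa : 104 / 125 + 37 / 100 * h ≤ x := by
    obtain ⟨e, -, he, h1⟩ := hI 2 le_rfl (by omega)
    obtain rfl := he rfl
    have h2 := h1 1 zero_le_one le_rfl (Or.inr (by push_cast; linarith))
    rw [Finset.sum_range_succ, Finset.sum_range_one, h01, show 2 - 1 = 1 from rfl, hl, hW] at h2
    push_cast at h2
    have h3 : (n + 1 - 2 - 0) * (x * h) = x * (1 - 2 * h) := by linear_combination x * hN
    rcases min_choice (1 - (4 / 5 + h / 5) * x) (1 / 2) with h5 | h5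
    · rw [h5] at h2
      by_contra h6
      have h7 : x * (18 / 5 - 8 / 5 * h) ≤ (104 / 125 + 37 / 100 * h) * (18 / 5 - 8 / 5 * h) :=
        mul_le_mul_of_nonneg_right (by linarith) (by linarith)
      nlinarith
    · rw [h5] at h2
      by_contra h6
      have h7 : x * (1 - h) ≤ (104 / 125 + 37 / 100 * h) * (1 - h) :=
        mul_le_mul_of_nonneg_right (by linarith) (by linarith)
      nlinarith
  obtain ⟨α, hα0, hα1, hα⟩ : ∃ α : ℝ, 0 ≤ α ∧ α ≤ 1 ∧
      x = α * (104 / 125 + 37 / 100 * h) + (1 - α) * (10001 / 10000) := by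
    have hd : 0 < 10001 / 10000 - (104 / 125 + 37 / 100 * h) := by linarith
    refine ⟨(10001 / 10000 - x) / (10001 / 10000 - (104 / 125 + 37 / 100 * h)),
      div_nonneg (by linarith) hd.le, (div_le_one hd).mpr (by linarith), ?_⟩
    linear_combination div_mul_cancel₀ (10001 / 10000 - x) hd.ne'
  set Φ : ℝ → ℝ := fun s => α * phiA s h + (1 - α) * phiB s with hΦ
  set j0 := ⌈(13 / 50 : ℝ) * (n + 1)⌉₊ with hj0
  have hj1 : (13 / 50 : ℝ) * (n + 1) ≤ j0 := Nat.le_ceil _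
  have hj2 : (j0 : ℝ) < 13 / 50 * (n + 1) + 1 := Nat.ceil_lt_add_one (by positivity)
  have hj3 : 1 ≤ j0 := by
    have : (0 : ℝ) < j0 := lt_of_lt_of_le (by positivity) hj1
    exact_mod_cast this
  have hj4 : j0 ≤ n + 1 := by
    have : (j0 : ℝ) ≤ n + 1 := by linarith
    exact_mod_cast this
  have hstep : ∀ j, j0 ≤ j → j ≤ n → S (j + 1) ≤ Φ ((j + 1 : ℕ) * h) → S j ≤ Φ (j * h) := by
    intro j hj hjn hSj
    obtain ⟨e, he, -, h1⟩ := hI (j + 1) (by omega) (by omega)
    set s : ℝ := (j + 1 : ℕ) * h with hs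
    set η : ℝ := e * h with hη
    have hj' : (j0 : ℝ) ≤ j := by exact_mod_cast hj
    have hjn' : (j : ℝ) ≤ n := by exact_mod_cast hjn
    have hs' : s = j * h + h := by rw [hs]; push_cast; ring
    have hs1 : 13 / 50 ≤ s := by nlinarith
    have hs2 : s ≤ 1 := by nlinarith
    have hη0 : 0 ≤ η := by positivity
    obtain ⟨t0, t1, t2⟩ := th_spec (s := s) (by linarith) hη0
    set θ := th s η with hθ
    have h2 := h1 θ t0 t1 (t2.imp_right fun t2 => by
      refine le_of_mul_le_mul_right ?_ h0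
      have : θ * ((j + 1 : ℕ) + 3 * e) * h = θ * (s + 3 * η) := by rw [hs, hη]; ring
      rw [this]
      linarith)
    set y := (n + 1) * L j with hy
    have hyl : L j = y * h := by rw [hy]; linear_combination (-L j) * hN
    have hxy : x ≤ y := by
      rw [hx, hy]
      exact mul_le_mul_of_nonneg_left (hmin j hjn) (by positivity)
    rw [Nat.add_sub_cancel, hl, hyl, hW, min_eq_left (by nlinarith)] at h2
    have e1 : ((j + 1 : ℕ) : ℝ) * (x * h) = x * s := by rw [hs]; ring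
    have e2 : (e : ℝ) * (y * h - x * h) = η * (y - x) := by rw [hη]; ring
    have e3 : (e : ℝ) * (y * h) = η * y := by rw [hη]; ring
    have e4 : 2 * ((n : ℝ) + 1 - (j + 1 : ℕ) - e) * (x * h) = 2 * (1 - s - η) * x := by
      rw [hs, hη]; linear_combination (2 * x) * hN
    rw [e1, e2, e3, e4] at h2
    have hA := stepA hs1 hs2 h0.le h4 hη0
    have hB := stepB hs1 hs2 h0.le h4 hη0
    rw [← hθ] at hA hB
    set Λ := α * lamA s h + (1 - α) * lamB s h with hΛ
    have hd : Φ s - Φ (j * h) = h * Λ := by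
      rw [show j * h = s - h by linarith]
      simp only [hΦ, hΛ, phiA, phiB, lamA, lamB]
      ring
    have hC : 0 ≤ cX x (Φ s) Λ s h + (2 * x - Λ) * η + θ * (cY x (Φ s) Λ s h + (x - Λ) * η) := by
      refine (add_nonneg (mul_nonneg hα0 hA) (mul_nonneg (sub_nonneg.mpr hα1) hB)).trans_eq ?_
      simp only [hΦ, hΛ, cX, cY]
      rw [hα]
      ring
    have hSs : S (j + 1) = S j + y * h := by
      simp only [hS]
      rw [Finset.sum_range_succ, hyl]
    by_contra hcon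
    have h5 : y < Λ := lt_of_mul_lt_mul_left (a := h) (by linarith) h0.le
    have h6 : (4 / 5 + h / 5 + η) * y < (4 / 5 + h / 5 + η) * Λ :=
      mul_lt_mul_of_pos_left h5 (by positivity)
    have h7 : (1 + θ) * ((4 / 5 + h / 5 + η) * y + S (j + 1)) <
        (1 + θ) * ((4 / 5 + h / 5 + η) * Λ + Φ s) :=
      mul_lt_mul_of_pos_left (by linarith) (by positivity)
    simp only [cX, cY] at hC
    change _ ≤ S (j + 1) + _ + _ at h2
    change _ + θ * (_ - S (j + 1) + _ - _) - _ ≤ _ at h2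
    linarith
  have hall : ∀ m, m ≤ n + 1 - j0 → S (n + 1 - m) ≤ Φ ((n + 1 - m : ℕ) * h) := by
    intro m
    induction m with
    | zero =>
      intro _
      rw [Nat.sub_zero, show ((n + 1 : ℕ) : ℝ) * h = 1 by push_cast; linarith]
      refine hsum.trans ?_
      simp only [hΦ, phiA, phiB]
      nlinarith
    | succ m ih =>
      intro hm
      refine hstep _ (by omega) (by omega) ?_
      rw [show n + 1 - (m + 1) + 1 = n + 1 - m by omega]
      exact ih (by omega)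
  have h5 := hall _ le_rfl
  rw [show n + 1 - (n + 1 - j0) = j0 by omega] at h5
  have h6 := hSl j0 hj4
  set t : ℝ := j0 - 13 / 50 * (n + 1) with ht
  have h7 : j0 * h = 13 / 50 + t * h := by rw [ht]; linear_combination (13 / 50) * hN
  have hA := Afin t h (by linarith) (by linarith) h0.le h4
  have hB := Bfin t h (by linarith) (by linarith) h0.le h4
  have h8 := add_nonneg (mul_nonneg hα0 hA) (mul_nonneg (sub_nonneg.mpr hα1) hB)
  rw [← h7] at h8
  rw [hl, hα] at h6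
  simp only [hΦ] at h5
  linarith

theorem four_fifths (n : ℕ) (hn : 3 ≤ n) (ζ : ℝ) (hζ : Transcendental ℚ ζ) :
    Set.Infinite {α : ℝ | ∃ P : ℤ[X], Irreducible P ∧ P.natDegree = n ∧ 0 < P.leadingCoeff ∧
      aeval α P = 0 ∧ 0 < |ζ - α| ∧ |ζ - α| ≤ P.supNorm ^ (-(4 * (n : ℝ) / 5) - 1)} := by
  intro hfin
  have hξ : ∀ A : ℤ[X], A ≠ 0 → aeval ζ A ≠ 0 := fun A hA h =>
    hA (transcendental_iff.mp (hζ.restrictScalars (algebraMap ℤ ℚ).injective_int) A h)
  rw [show -(4 * (n : ℝ) / 5) - 1 = -(4 * (n : ℝ) / 5 + 1) by ring] at hfin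
  obtain ⟨c, hc, h⟩ := hyp_of_finite (by omega) (by positivity) hξ hfin
  obtain ⟨L, hL⟩ := exists_system2 (by omega) (by positivity) hc hξ h
    (ε := 1 / 10000) (by norm_num)
  exact no_sys n hn L hL

end Pool.Agent.MP_06f5ad_nt
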