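import Pool.Agent.Mg.F06f5adq.Ge8190d

set_option linter.all false

section

open Polynomial Matrix

namespace Pool.Agent.MP_06f5ad_nt

/-- size condition on the coefficients -/
def Sm (F : ℝ[X]) (a c1 c2 : ℝ) : Prop := Bd F a ∧ |F.coeff 0| ≤ a * c1 ∧ |F.coeff 1| ≤ a * c2

lemma Sm.mono {F : ℝ[X]} {a c1 c2 c1' c2' : ℝ} (h : Sm F a c1 c2) (h1 : c1 ≤ c1')
    (h2 : c2 ≤ c2') : Sm F a c1' c2' :=
  ⟨h.1, h.2.1.trans (mul_le_mul_of_nonneg_left h1 h.1.nonneg),
    h.2.2.trans (mul_le_mul_of_nonneg_left h2 h.1.nonneg)⟩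

lemma tau_mem_span (ξ : ℝ) {ι : Type} (F : ι → ℚ[X]) {y : ℚ[X]}
    (hy : y ∈ Submodule.span ℚ (Set.range F)) :
    tau ξ y ∈ Submodule.span ℝ (Set.range fun i => tau ξ (F i)) := by
  induction hy using Submodule.span_induction with
  | mem x hx =>
    obtain ⟨i, rfl⟩ := hx
    exact Submodule.subset_span ⟨i, rfl⟩
  | zero => rw [map_zero]; exact Submodule.zero_mem _
  | add x y _ _ hx hy => rw [map_add]; exact Submodule.add_mem _ hx hy
  | smul a x _ hx => rw [tau_smul]; exact Submodule.smul_mem _ _ hx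

lemma exists_real_compl (ξ : ℝ) {ι : Type} [Fintype ι] (F : ι → ℚ[X])
    (h : Module.finrank ℚ (sig (Submodule.span ℚ (Set.range F))) ≤
      Module.finrank ℚ (Submodule.span ℚ (Set.range F)) + 2) :
    ∃ (G : Submodule ℝ ℝ[X]) (_ : FiniteDimensional ℝ G), Module.finrank ℝ G ≤ 2 ∧
      ∀ y ∈ Submodule.span ℝ (Set.range fun i => tau ξ (F i)),
        X * y ∈ Submodule.span ℝ (Set.range fun i => tau ξ (F i)) ⊔ G := by
  set U := Submodule.span ℚ (Set.range F) with hU
  have : FiniteDimensional ℚ U := FiniteDimensional.span_of_finite ℚ (Set.finite_range _)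
  obtain ⟨U', hU'⟩ := U.exists_isCompl
  set G := sig U ⊓ U' with hG
  have h1 : U ⊔ G = sig U := by
    rw [hG, inf_comm, ← sup_inf_assoc_of_le _ (show U ≤ sig U from le_sup_left), hU'.sup_eq_top,
      top_inf_eq]
  have h2 : U ⊓ G = ⊥ := by
    rw [hG, inf_comm (sig U), ← inf_assoc, hU'.inf_eq_bot, bot_inf_eq]
  have h3 := Submodule.finrank_sup_add_finrank_inf_eq U G
  rw [h1, h2, finrank_bot] at h3
  set b := Module.finBasis ℚ G with hb
  have h4 : G = Submodule.span ℚ (Set.range fun i => (b i : ℚ[X])) := by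
    have := congrArg (Submodule.map G.subtype) b.span_eq
    rw [Submodule.map_span, Submodule.map_top, Submodule.range_subtype, ← Set.range_comp] at this
    exact this.symm
  refine ⟨Submodule.span ℝ (Set.range fun i => tau ξ (b i)),
    FiniteDimensional.span_of_finite ℝ (Set.finite_range _), ?_, ?_⟩
  · refine (finrank_range_le_card _).trans ?_
    rw [Fintype.card_fin]
    omega
  · intro y hy
    induction hy using Submodule.span_induction with
    | mem x hx =>
      obtain ⟨i, rfl⟩ := hx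
      have h5 : X * F i ∈ U ⊔ G :=
        h1 ▸ Submodule.mem_sup_right ⟨F i, Submodule.subset_span ⟨i, rfl⟩, rfl⟩
      obtain ⟨y, hy, z, hz, h6⟩ := Submodule.mem_sup.mp h5
      have h7 : X * tau ξ (F i) = tau ξ y + tau ξ z - ξ • tau ξ (F i) := by
        rw [← map_add, h6, map_mul, tau_X, smul_eq_C_mul]
        ring
      simp only
      rw [h7]
      refine Submodule.sub_mem _ (Submodule.add_mem_sup (tau_mem_span ξ F hy)
        (tau_mem_span ξ _ (h4 ▸ hz))) (Submodule.mem_sup_left (Submodule.smul_mem _ _ ?_))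
      exact Submodule.subset_span ⟨i, rfl⟩
    | zero => rw [mul_zero]; exact Submodule.zero_mem _
    | add x y _ _ hx hy => rw [mul_add]; exact Submodule.add_mem _ hx hy
    | smul a x _ hx => rw [mul_smul_comm]; exact Submodule.smul_mem _ _ hx

lemma toQ_lprod (l : List ℕ) : toQ (lprod ℤ l) = lprod ℚ l := by
  induction l with
  | nil => simp [lprod_nil]
  | cons c l ih =>
    rw [lprod_cons, lprod_cons, ← ih]
    simp [toQ]

lemma lprod_bd (ξ : ℝ) {T : ℕ} {m : ℝ} (hm0 : 0 ≤ m) (hm : ∀ c : ℕ, c < T → m ≤ |ξ - c|)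
    (l : List ℕ) (hl : ∀ c ∈ l, c < T) : Bd (tau ξ (lprod ℚ l)) ((1 + |ξ| + T) ^ l.length) ∧
      m ^ l.length ≤ |(tau ξ (lprod ℚ l)).coeff 0| := by
  induction l with
  | nil => simpa [lprod_nil] using Bd.one
  | cons c l ih =>
    obtain ⟨h1, h2⟩ := ih fun d hd => hl d (List.mem_cons_of_mem _ hd)
    have hc := hl c List.mem_cons_self
    have h3 : tau ξ (lprod ℚ (c :: l)) = (X + C (ξ - c)) * tau ξ (lprod ℚ l) := by
      rw [lprod_cons, map_mul, map_sub, tau_X, tau_C, C_sub]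
      simp [add_sub_assoc]
    rw [h3, List.length_cons, pow_succ', pow_succ']
    constructor
    · refine (h1.lin_mul _).mono (mul_le_mul_of_nonneg_right ?_ h1.nonneg)
      have h4 := abs_sub ξ c
      have h5 : (c : ℝ) ≤ T := by exact_mod_cast hc.le
      rw [Nat.abs_cast] at h4
      linarith
    · rw [mul_coeff_zero, abs_mul]
      refine mul_le_mul ?_ h2 (by positivity) (abs_nonneg _)
      simpa using hm c hc

lemma exists_gap (ξ : ℝ) (hξ : ∀ c : ℕ, ξ ≠ c) (T : ℕ) :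
    ∃ m : ℝ, 0 < m ∧ m ≤ 1 ∧ ∀ c : ℕ, c < T → m ≤ |ξ - c| := by
  induction T with
  | zero => exact ⟨1, one_pos, le_rfl, by simp⟩
  | succ T ih =>
    obtain ⟨m, h1, h2, h3⟩ := ih
    refine ⟨min m |ξ - T|, lt_min h1 (abs_pos.mpr (sub_ne_zero.mpr (hξ T))),
      (min_le_left _ _).trans h2, fun c hc => ?_⟩
    rcases (Nat.lt_succ_iff.mp hc).lt_or_eq with h | rfl
    · exact (min_le_left _ _).trans (h3 c h)
    · exact min_le_right _ _

lemma mul_mem_of_degreeLT {S : Submodule ℚ ℚ[X]} {A a : ℚ[X]} {k : ℕ}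
    (h : ∀ i < k, X ^ i * A ∈ S) (ha : a ∈ degreeLT ℚ k) : a * A ∈ S := by
  have : degreeLT ℚ k ≤ S.comap (LinearMap.mulRight ℚ A) := degreeLT_le_of_X_pow h
  exact this ha

lemma mul_mem_degreeLT {a F : ℚ[X]} {k N : ℕ} (ha : a.natDegree ≤ k)
    (hF : F ∈ degreeLT ℚ (N + 1)) : a * F ∈ degreeLT ℚ (N + k + 1) := by
  rw [mem_degreeLT] at hF ⊢
  refine (degree_mul_le _ _).trans_lt ?_
  have h1 : a.degree ≤ k := degree_le_of_natDegree_le ha
  refine (add_le_add h1 le_rfl).trans_lt ?_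
  rw [show N + k + 1 = k + (N + 1) by ring, Nat.cast_add k]
  exact WithBot.add_lt_add_left (by simp) hF

lemma natDegree_lprod (l : List ℕ) : (lprod ℚ l).natDegree ≤ l.length := by
  induction l with
  | nil => simp [lprod_nil]
  | cons c l ih =>
    rw [lprod_cons, List.length_cons]
    refine natDegree_mul_le.trans ?_
    rw [natDegree_X_sub_C]
    omega

lemma core_A (ξ : ℝ) (hξ : ∀ c : ℕ, ξ ≠ c) (T : ℕ) : ∃ C0 : ℝ, 1 ≤ C0 ∧ ∀ (N u k : ℕ), 1 ≤ N →
    u + 2 + k = N + 1 → 3 ≤ N + k + 1 → N + k + 1 ≤ T → ∀ F : Fin (u + 2) → ℤ[X],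
    (LinearIndependent ℚ fun b => toQ (F b)) →
    Submodule.span ℚ (Set.range fun b => toQ (F b)) ≤ degreeLT ℚ (N + 1) →
    Module.finrank ℚ (sig (Submodule.span ℚ (Set.range fun b => toQ (F b)))) ≤ u + 4 →
    ∀ E : ℕ → ℝ[X], (∀ i, Bd (E i) 1) → (∀ i j, j < i → (E i).coeff j = 0) →
    ∀ M : Matrix (Fin (u + 2)) (Fin (u + 2)) ℝ, (∀ b, tau ξ (toQ (F b)) = ∑ i, M b i • E i) →
    ∀ A B : ℤ[X], toQ A ∈ Submodule.span ℚ (Set.range fun b => toQ (F b)) →
    toQ B ∈ Submodule.span ℚ (Set.range fun b => toQ (F b)) → B.natDegree = N → Cop A B →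
    ∀ a b c1 c2 : ℝ, 0 < c1 → c1 ≤ c2 → c2 ≤ 1 → |(E 2).coeff 2| ≤ c2 →
    Sm (tau ξ (toQ A)) a c1 c2 → Sm (tau ξ (toQ B)) b c1 c2 →
    1 ≤ C0 * (a * b) ^ k * (|M.det| * (|(E 0).coeff 0| * (|(E 1).coeff 1| * c2 + c1))) := by
  classical
  obtain ⟨m, hm0, hm1, hm⟩ := exists_gap ξ hξ T
  set p : ℝ := (1 + |ξ| + T) ^ T with hp
  have hT0 : (0 : ℝ) ≤ T := Nat.cast_nonneg _
  have hb1 : 1 ≤ 1 + |ξ| + T := by linarith [abs_nonneg ξ]
  have hp1 : 1 ≤ p := one_le_pow₀ hb1
  set r : ℝ := p + p / m ^ T * p with hr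
  have hr1 : 1 ≤ r := hp1.trans (le_add_of_nonneg_right (by positivity))
  have hq1 : 1 ≤ (T + 1 : ℝ) * p := one_le_mul_of_one_le_of_one_le (by linarith) hp1
  have hq2 : 1 ≤ (T + 1 : ℝ) * r := one_le_mul_of_one_le_of_one_le (by linarith) hr1
  refine ⟨T.factorial * ((T + 1) * p) ^ T * ((T + 1) * r) ^ (2 * T), ?_, ?_⟩
  · exact one_le_mul_of_one_le_of_one_le (one_le_mul_of_one_le_of_one_le
      (by exact_mod_cast Nat.factorial_pos T) (one_le_pow₀ hq1)) (one_le_pow₀ hq2)
  intro N u k hN hk h3 hT F hli hle hsig E hE1 hE2 M hM A B hAU hBU hBN hcop a b c1 c2 hc1 hc12 hc2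
    he2 hA hB
  set U := Submodule.span ℚ (Set.range fun b => toQ (F b)) with hU
  have : FiniteDimensional ℚ U := FiniteDimensional.span_of_finite ℚ (Set.finite_range _)
  have hfr : Module.finrank ℚ U = u + 2 := by
    rw [hU, finrank_span_eq_card hli, Fintype.card_fin]
  have hAd : (toQ A).natDegree ≤ N := by
    have := mem_degreeLT.mp (hle hAU)
    exact natDegree_le_iff_degree_le.mpr (Order.le_of_lt_succ this)
  obtain ⟨l, hl1, hl2, hl3⟩ := bez_span U (k := k) hcop.isCoprime ((natDegree_toQ B).trans hBN) hN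
    hAd hAU hBU hle (by omega) (by omega)
  obtain ⟨D, hD⟩ : ∃ D, N + k + 1 = D + 3 := ⟨N + k + 1 - 3, by omega⟩
  let e : Fin (u + 2) ⊕ (Fin k ⊕ Fin k) ≃ Fin (D + 3) :=
    Fintype.equivFinOfCardEq (by simp; omega)
  set R : Fin (u + 2) ⊕ (Fin k ⊕ Fin k) → ℤ[X] := Sum.elim (fun b => lprod ℤ l * F b)
    (Sum.elim (fun i => X ^ (i : ℕ) * A) (fun i => X ^ (i : ℕ) * B)) with hR
  have hspan : Submodule.span ℚ (Set.range fun i => toQ (R i)) = degreeLT ℚ (D + 3) := by
    rw [← hD]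
    apply le_antisymm
    · rw [Submodule.span_le]
      rintro _ ⟨b | i | i, rfl⟩
      · simp only [hR, Sum.elim_inl, toQ, Polynomial.map_mul]
        exact mul_mem_degreeLT (((congrArg natDegree (toQ_lprod l)).trans_le
          (natDegree_lprod l)).trans hl1.le) (hle (Submodule.subset_span ⟨b, rfl⟩))
      · simp only [hR, Sum.elim_inl, Sum.elim_inr, toQ, Polynomial.map_mul, Polynomial.map_pow,
          map_X]
        exact mul_mem_degreeLT (by rw [natDegree_X_pow]; exact i.2.le) (hle hAU)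
      · simp only [hR, Sum.elim_inr, toQ, Polynomial.map_mul, Polynomial.map_pow, map_X]
        exact mul_mem_degreeLT (by rw [natDegree_X_pow]; exact i.2.le) (hle hBU)
    · intro y hy
      obtain ⟨G, hG, a', ha', b', hb', rfl⟩ := hl3 y hy
      refine Submodule.add_mem _ (Submodule.add_mem _ ?_ (mul_mem_of_degreeLT ?_ ha'))
        (mul_mem_of_degreeLT ?_ hb')
      · have : U ≤ (Submodule.span ℚ (Set.range fun i => toQ (R i))).comap
            (LinearMap.mulLeft ℚ (lprod ℚ l)) := by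
          rw [hU, Submodule.span_le]
          rintro _ ⟨b, rfl⟩
          refine Submodule.subset_span ⟨Sum.inl b, ?_⟩
          simp only [hR, Sum.elim_inl, LinearMap.mulLeft_apply, ← toQ_lprod, toQ,
            Polynomial.map_mul]
        exact this hG
      · intro i hi
        exact Submodule.subset_span ⟨Sum.inr (Sum.inl ⟨i, hi⟩), by simp [hR, toQ]⟩
      · intro i hi
        exact Submodule.subset_span ⟨Sum.inr (Sum.inr ⟨i, hi⟩), by simp [hR, toQ]⟩
  have h1 := det_int ξ e R hspan (by omega)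
  obtain ⟨hP1, hP2⟩ := lprod_bd ξ hm0.le hm l fun c hc => (hl2 c hc).trans_le (by omega)
  set Pi := tau ξ (lprod ℚ l) with hPi
  rw [hl1] at hP1 hP2
  have hP3 : Bd Pi p := hP1.mono (pow_le_pow_right₀ hb1 (by omega))
  have hP4 : m ^ T ≤ |Pi.coeff 0| := (pow_le_pow_of_le_one hm0.le hm1 (by omega)).trans hP2
  have hP5 : Pi.coeff 0 ≠ 0 := abs_pos.mp ((pow_pos hm0 T).trans_le hP4)
  set α : Fin k → ℝ := fun i => ((X + C ξ) ^ (i : ℕ)).coeff 0 / Pi.coeff 0 with hα
  set ρ : Fin k → ℝ[X] := fun i => ((X + C ξ) ^ (i : ℕ) - α i • Pi).divX with hρ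
  have hlin : ∀ i : Fin k, Bd ((X + C ξ) ^ (i : ℕ)) p := fun i => (Bd.lin_pow ξ i).mono
    ((pow_le_pow_left₀ (by positivity) (by linarith) _).trans
      (pow_le_pow_right₀ hb1 (by have := i.2; omega)))
  have hρ1 : ∀ i, Bd (ρ i) r := fun i => (((hlin i).sub (hP3.smul _)).mono (by
    rw [hr, hα, abs_div]
    gcongr
    exact hlin i 0)).divX
  have hρ2 : ∀ i : Fin k, (X + C ξ) ^ (i : ℕ) = α i • Pi + X * ρ i := by
    intro i
    have h4 := X_mul_divX_add ((X + C ξ) ^ (i : ℕ) - α i • Pi)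
    rw [coeff_sub, coeff_smul, smul_eq_mul, hα, div_mul_cancel₀ _ hP5, sub_self, C_0,
      add_zero] at h4
    rw [h4]
    ring
  have hco : ∀ y ∈ U, ∃ c : Fin (u + 2) → ℝ, tau ξ y = ∑ i, c i • E i := by
    intro y hy
    have h4 : Submodule.span ℝ (Set.range fun b => tau ξ (toQ (F b))) ≤
        Submodule.span ℝ (Set.range fun i : Fin (u + 2) => E i) := by
      rw [Submodule.span_le]
      rintro _ ⟨b, rfl⟩
      simp only [hM b]
      exact Submodule.sum_mem _ fun i _ => Submodule.smul_mem _ _ (Submodule.subset_span ⟨i, rfl⟩)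
    obtain ⟨c, hc⟩ := (Submodule.mem_span_range_iff_exists_fun ℝ).mp (h4 (tau_mem_span ξ _ hy))
    exact ⟨c, hc.symm⟩
  obtain ⟨ca, hca⟩ := hco _ hAU
  obtain ⟨cb, hcb⟩ := hco _ hBU
  have h2 := core_det e Pi _ _ E hE1 hE2 M ca cb hca hcb α ρ hc1 hc12 hc2 he2 hP3 hρ1
    (by linarith) hA.1 hA.2.1 hA.2.2 hB.1 hB.2.1 hB.2.2
  have h4 : (fun i => tau ξ (toQ (R i))) = Sum.elim (fun l => Pi * ∑ i, M l i • E i) (Sum.elim
      (fun i => (α i • Pi + X * ρ i) * tau ξ (toQ A))
      (fun i => (α i • Pi + X * ρ i) * tau ξ (toQ B))) := by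
    ext1 i
    rcases i with b | i | i
    · simp only [hR, Sum.elim_inl, ← hM b, hPi, ← toQ_lprod, toQ, Polynomial.map_mul, map_mul]
    · simp only [hR, Sum.elim_inl, Sum.elim_inr, ← hρ2 i, toQ, Polynomial.map_mul, map_mul,
        Polynomial.map_pow, map_X, map_pow, tau_X]
    · simp only [hR, Sum.elim_inr, ← hρ2 i, toQ, Polynomial.map_mul, map_mul,
        Polynomial.map_pow, map_X, map_pow, tau_X]
  rw [h4] at h1
  refine (h1.trans h2).trans ?_
  have hD1 : ((D + 3 : ℕ) : ℝ) ≤ T + 1 := by exact_mod_cast (by omega : D + 3 ≤ T + 1)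
  have ha := hA.1.nonneg
  have hb := hB.1.nonneg
  have hc2' : 0 < c2 := by linarith
  have h5 : (((D + 3 : ℕ) : ℝ) * p) ^ (u + 2) ≤ ((T + 1) * p) ^ T :=
    (pow_le_pow_left₀ (by positivity) (by gcongr) _).trans (pow_le_pow_right₀ hq1 (by omega))
  have h6 : (((D + 3 : ℕ) : ℝ) * r) ^ (2 * k) ≤ ((T + 1) * r) ^ (2 * T) :=
    (pow_le_pow_left₀ (by positivity) (by gcongr) _).trans (pow_le_pow_right₀ hq2 (by omega))
  have h7 : ((D + 3).factorial : ℝ) ≤ T.factorial := by
    exact_mod_cast Nat.factorial_le (by omega)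
  gcongr

end Pool.Agent.MP_06f5ad_nt

end

section

open Polynomial Matrix

namespace Pool.Agent.MP_06f5ad_nt

lemma det_col_le {d : ℕ} (M : Matrix (Fin d) (Fin d) ℝ) (r c : Fin d → ℝ) (G : ℝ)
    (hG : (d.factorial : ℝ) * ∏ i, r i ≤ G) (hc : ∀ j, 0 ≤ c j) (h : ∀ i j, |M i j| ≤ r i * c j) :
    |M.det| ≤ G * ∏ j, c j := by
  refine (abs_det_le M r c h).trans ?_
  rw [Fintype.card_fin, ← mul_assoc]
  exact mul_le_mul_of_nonneg_right hG (Finset.prod_nonneg fun j _ => hc j)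

lemma det_col_one {d : ℕ} (M : Matrix (Fin d) (Fin d) ℝ) (r : Fin d → ℝ) (G : ℝ)
    (hG : (d.factorial : ℝ) * ∏ i, r i ≤ G) (h : ∀ i j, |M i j| ≤ r i) (j : Fin d) (w : Fin d → ℝ)
    (t : ℝ) (ht : 0 ≤ t) (hw : ∀ i, |∑ l, M i l * w l| ≤ r i * t) : |M.det| * |w j| ≤ G * t := by
  have h1 := det_col_le (M.updateCol j fun k => ∑ l, w l • M k l) r (Function.update 1 j t) G hG
    (fun l => by
      by_cases hl : l = j
      · rw [hl, Function.update_self]; exact ht
      · rw [Function.update_of_ne hl]; exact zero_le_one) (fun i l => by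
      by_cases hl : l = j
      · rw [hl, Function.update_self, updateCol_self]
        simpa [mul_comm] using hw i
      · rw [Function.update_of_ne hl, updateCol_ne hl]
        simpa using h i l)
  rw [det_updateCol_sum, Finset.prod_update_of_mem (Finset.mem_univ _), smul_eq_mul, abs_mul,
    mul_comm] at h1
  simpa using h1

lemma det_col_two {u : ℕ} (M : Matrix (Fin (u + 2)) (Fin (u + 2)) ℝ) (r : Fin (u + 2) → ℝ) (G : ℝ)
    (hG : ((u + 2).factorial : ℝ) * ∏ i, r i ≤ G) (h : ∀ i j, |M i j| ≤ r i)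
    (w : Fin (u + 2) → ℝ) (a t t' : ℝ) (ht : 0 ≤ t) (ht' : 0 ≤ t')
    (hw : ∀ i, |∑ l, M i l * w l| ≤ r i * t) (ha : ∀ i, |M i 0 * a| ≤ r i * t') :
    |M.det| * (|a| * |w 1|) ≤ G * (t' * t) := by
  set M' := M.updateCol 1 fun k => ∑ l, w l • M k l with hM'
  have h1 := det_col_le (M'.updateCol 0 (a • fun k => M' k 0)) r
    (fun l => if l = 0 then t' else if l = 1 then t else 1) G hG
    (fun l => by split_ifs <;> positivity) (fun i l => by
      split_ifs with h0 h1
      · rw [h0, updateCol_self, hM', Pi.smul_apply, updateCol_ne (by simp), smul_eq_mul, mul_comm]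
        exact ha i
      · rw [updateCol_ne h0, h1, hM', updateCol_self]
        simpa [mul_comm] using hw i
      · rw [updateCol_ne h0, hM', updateCol_ne h1, mul_one]
        exact h i l)
  rw [det_updateCol_smul, updateCol_eq_self, hM', det_updateCol_sum, Fin.prod_univ_succ,
    Fin.prod_univ_succ, Finset.prod_eq_one (fun i _ => by
      rw [if_neg (Fin.succ_ne_zero _), if_neg (Fin.succ_succ_ne_one i)]), smul_eq_mul, abs_mul,
    abs_mul] at h1
  simp only [if_true, Fin.succ_zero_eq_one, mul_one, one_ne_zero, if_false] at h1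
  refine le_trans (le_of_eq ?_) h1
  ring

lemma short_vector {d : ℕ} (M : Matrix (Fin d) (Fin d) ℝ) (hd : 1 ≤ d) (hM : M.det ≠ 0)
    (t : Fin d → ℝ) (ht : ∀ i, 0 < t i) (h : |M.det| ≤ ∏ i, t i) :
    ∃ z : Fin d → ℤ, z ≠ 0 ∧ ∀ i, |∑ b, (z b : ℝ) * M b i| ≤ 2 * t i := by
  have hp : 0 < ∏ i, t i := Finset.prod_pos fun i _ => ht i
  have hdet : (Matrix.diagonal (fun i => (2 * t i)⁻¹) * Mᵀ).det = M.det / (2 ^ d * ∏ i, t i) := by
    rw [det_mul, det_diagonal, det_transpose, Finset.prod_inv_distrib, Finset.prod_mul_distrib,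
      Finset.prod_const, Finset.card_univ, Fintype.card_fin, div_eq_inv_mul]
  obtain ⟨z, hz, h1⟩ := linear_forms (Matrix.diagonal (fun i => (2 * t i)⁻¹) * Mᵀ)
    (by rw [hdet]; positivity) (by
      rw [hdet, abs_div, abs_of_pos (a := 2 ^ d * ∏ i, t i) (by positivity),
        div_lt_one (by positivity)]
      have : (1 : ℝ) < 2 ^ d := one_lt_pow₀ (by norm_num) (by omega)
      nlinarith)
  refine ⟨z, hz, fun i => ?_⟩
  have h2 := h1 i
  have h3 := ht i
  rw [← mulVec_mulVec, mulVec_diagonal, abs_mul, abs_of_pos (by positivity), ← div_eq_inv_mul,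
    div_lt_one (by positivity)] at h2
  refine le_trans (le_of_eq ?_) h2.le
  simp [mulVec, dotProduct, mul_comm]

/-- the inequality with the gain coming from the third column -/
theorem gain_ineq (ξ : ℝ) (hξ : ∀ c : ℕ, ξ ≠ c) (T : ℕ) : ∃ C0 : ℝ, 0 ≤ C0 ∧ ∀ (N u k : ℕ), 1 ≤ N →
    u + 2 + k = N + 1 → 3 ≤ N + k + 1 → N + k + 1 ≤ T → ∀ F : Fin (u + 2) → ℤ[X],
    (LinearIndependent ℚ fun b => toQ (F b)) →
    Submodule.span ℚ (Set.range fun b => toQ (F b)) ≤ degreeLT ℚ (N + 1) →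
    Module.finrank ℚ (sig (Submodule.span ℚ (Set.range fun b => toQ (F b)))) ≤ u + 4 →
    ∀ (q v S l : ℝ) (r : Fin (u + 2) → ℝ), 0 ≤ v → 2 * v ≤ q →
    (∀ b, Sm (tau ξ (toQ (F b))) (r b) (Real.exp (-q)) (Real.exp (-v))) →
    ∏ b, r b ≤ Real.exp S →
    ∀ P : ℤ[X], P ≠ 0 → toQ P ∈ Submodule.span ℚ (Set.range fun b => toQ (F b)) →
    Sm (tau ξ (toQ P)) (Real.exp l) (Real.exp (-q)) (Real.exp (-v)) →
    (∀ A : ℤ[X], A ≠ 0 → A.natDegree ≤ N → ∃ B : ℤ[X],
      toQ B ∈ Submodule.span ℚ (Set.range fun b => toQ (F b)) ∧ B.natDegree = N ∧ Cop A B ∧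
      Sm (tau ξ (toQ B)) (Real.exp l) (Real.exp (-q)) (Real.exp (-v))) →
    ∃ y : ℝ, y ≤ v ∧ q + 2 * v - y ≤ S + 2 * k * l + C0 ∧
      q + 2 * v - y ≤ S + k * l + k * ((S - y) / (u + 2)) + C0 := by
  classical
  obtain ⟨C1, hC1, hcore⟩ := core_A ξ hξ T
  set K : ℝ := 3 ^ T with hK
  have hK1 : 1 ≤ K := one_le_pow₀ (by norm_num)
  set C2 : ℝ := Real.log (T.factorial * K ^ T) with hC2
  have hf1 : (1 : ℝ) ≤ T.factorial * K ^ T := one_le_mul_of_one_le_of_one_le
    (by exact_mod_cast Nat.factorial_pos T) (one_le_pow₀ hK1)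
  have hC20 : 0 ≤ C2 := Real.log_nonneg hf1
  set C3 : ℝ := Real.log (C1 * (6 * K + 3)) with hC3
  have hC30 : 0 ≤ C3 := Real.log_nonneg (one_le_mul_of_one_le_of_one_le hC1 (by linarith))
  have hT0 : (0 : ℝ) ≤ T := Nat.cast_nonneg _
  refine ⟨C3 + C2 + T * (C2 + 2 * T), by positivity, ?_⟩
  intro N u k hN hk h3 hT F hli hle hsig q v S l r hv hq hF hr P hP0 hPU hP hB
  set U := Submodule.span ℚ (Set.range fun b => toQ (F b)) with hU
  set UR := Submodule.span ℝ (Set.range fun b => tau ξ (toQ (F b))) with hUR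
  have : FiniteDimensional ℝ UR := FiniteDimensional.span_of_finite ℝ (Set.finite_range _)
  have hfr : Module.finrank ℚ U = u + 2 := by
    rw [hU, finrank_span_eq_card hli, Fintype.card_fin]
  obtain ⟨G, _, hG1, hG2⟩ := exists_real_compl ξ (fun b => toQ (F b)) (by rw [← hU]; omega)
  obtain ⟨E, hE1, hE2, hE3, hE4'⟩ := exists_flag (u + 2) 0 UR
    ((finrank_range_le_card _).trans (Fintype.card_fin _).le)
  simp only [zero_add] at hE3
  have hE4 : ∀ y ∈ UR, ∀ M, Bd y M → ∃ c : ℕ → ℝ, (∀ i, |c i| ≤ K * M) ∧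
      y = ∑ i ∈ Finset.range (u + 2), c i • E i := by
    intro y hy M hM
    obtain ⟨c, hc1, hc2⟩ := hE4' y hy M hM
    refine ⟨c, fun i => (hc1 i).trans (mul_le_mul_of_nonneg_right ?_ hM.nonneg), hc2⟩
    exact pow_le_pow_right₀ (by norm_num) (by omega)
  choose c hc1 hc2 using fun b => hE4 _ (Submodule.subset_span ⟨b, rfl⟩) _ (hF b).1
  set M : Matrix (Fin (u + 2)) (Fin (u + 2)) ℝ := Matrix.of fun b i => c b i with hM
  have hM1 : ∀ b, tau ξ (toQ (F b)) = ∑ i, M b i • E i := fun b =>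
    (hc2 b).trans (Finset.sum_range _)
  have hM2 : ∀ b j, ∑ i, M b i * (E i).coeff j = (tau ξ (toQ (F b))).coeff j := fun b j => by
    rw [hM1 b, finsetSum_coeff]; simp
  have hr0 : ∀ b, 0 ≤ r b := fun b => (hF b).1.nonneg
  have hrK : ∀ b, r b ≤ K * r b := fun b => le_mul_of_one_le_left (hr0 b) hK1
  set S' := S + C2 with hS'
  have hG : ((u + 2).factorial : ℝ) * ∏ b, K * r b ≤ Real.exp S' := by
    rw [Finset.prod_mul_distrib, Finset.prod_const, Finset.card_univ, Fintype.card_fin, hS',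
      Real.exp_add, Real.exp_log (by linarith), mul_comm (Real.exp S), ← mul_assoc]
    refine mul_le_mul (mul_le_mul ?_ (pow_le_pow_right₀ hK1 (by omega)) (by positivity)
      (by positivity)) hr (Finset.prod_nonneg fun b _ => hr0 b) (by positivity)
    exact_mod_cast Nat.factorial_le (by omega)
  have hq1 : ∀ b, |∑ i, M b i * (E i).coeff 0| ≤ K * r b * Real.exp (-q) := fun b => by
    rw [hM2]; exact (hF b).2.1.trans (mul_le_mul_of_nonneg_right (hrK b) (Real.exp_pos _).le)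
  have hv1 : ∀ b, |∑ i, M b i * (E i).coeff 1| ≤ K * r b * Real.exp (-v) := fun b => by
    rw [hM2]; exact (hF b).2.2.trans (mul_le_mul_of_nonneg_right (hrK b) (Real.exp_pos _).le)
  have hd0 : |M.det| ≤ Real.exp S' := by
    simpa using det_col_le M (fun b => K * r b) 1 _ hG (fun _ => zero_le_one)
      (fun b i => (hc1 b i).trans (mul_one _).ge)
  have hd1 := det_col_one M _ _ hG (fun b i => hc1 b i) 0 (fun i => (E i).coeff 0) _
    (Real.exp_pos _).le hq1
  have hd2 := fun j => det_col_one M _ _ hG (fun b i => hc1 b i) j (fun i => (E i).coeff 1) _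
    (Real.exp_pos _).le hv1
  have hd3 := det_col_two M _ _ hG (fun b i => hc1 b i) (fun i => (E i).coeff 1) ((E 0).coeff 0)
    _ (Real.exp (-q)) (Real.exp_pos _).le (Real.exp_pos _).le hv1 (fun b => by
      have := hq1 b
      rw [Fin.sum_univ_succ, Finset.sum_eq_zero (fun i _ => by
        rw [hE3 _ 0 (by simp), mul_zero]), add_zero] at this
      exact this)
  have hd20 := hd2 0
  have hd21 := hd2 1
  simp only [Fin.val_zero, Fin.val_one] at hd1 hd3 hd20 hd21
  set δ := |M.det| with hδ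
  set e0 := |(E 0).coeff 0| with he0
  set e1 := |(E 1).coeff 1| with he1
  set e2 := |(E 2).coeff 2| with he2
  set e3 := |(E 0).coeff 1| with he3
  have he00 : 0 ≤ e0 := abs_nonneg _
  have he10 : 0 ≤ e1 := abs_nonneg _
  have he20 : 0 ≤ e2 := abs_nonneg _
  have he30 : 0 ≤ e3 := abs_nonneg _
  have he21 : e2 ≤ 1 := hE2 2 2
  have hAd : ∀ A : ℤ[X], toQ A ∈ U → A.natDegree ≤ N := fun A hA => by
    rw [← natDegree_toQ]
    exact natDegree_le_iff_degree_le.mpr (Order.le_of_lt_succ (mem_degreeLT.mp (hle hA)))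
  have hmain : ∀ (A : ℤ[X]) (a y : ℝ), A ≠ 0 → toQ A ∈ U → 0 ≤ y → y ≤ v →
      Sm (tau ξ (toQ A)) a (Real.exp (y - q)) (Real.exp (y - v)) →
      1 ≤ C1 * (a * Real.exp l) ^ k *
        (δ * (e0 * (e1 * (e2 + Real.exp (y - v)) + Real.exp (y - q)))) := by
    intro A a y hA0 hAU hy0 hyv hA
    obtain ⟨B, hB1, hB2, hB3, hB4⟩ := hB A hA0 (hAd A hAU)
    have h1 := hcore N u k hN hk h3 hT F hli hle hsig E hE2 hE3 M hM1 A B hAU hB1 hB2 hB3 a
      (Real.exp l) (Real.exp (y - q)) (max e2 (Real.exp (y - v))) (Real.exp_pos _)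
      (le_max_of_le_right (Real.exp_le_exp.mpr (by linarith)))
      (max_le he21 (Real.exp_le_one_iff.mpr (by linarith))) (le_max_left _ _)
      (hA.mono le_rfl (le_max_right _ _)) (hB4.mono (Real.exp_le_exp.mpr (by linarith))
        (le_max_of_le_right (Real.exp_le_exp.mpr (by linarith))))
    refine h1.trans ?_
    have h2 := hA.1.nonneg
    have h4 : max e2 (Real.exp (y - v)) ≤ e2 + Real.exp (y - v) :=
      max_le (le_add_of_nonneg_right (Real.exp_pos _).le) (le_add_of_nonneg_left he20)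
    gcongr
  have hPy : ∀ y, 0 ≤ y → Sm (tau ξ (toQ P)) (Real.exp l) (Real.exp (y - q)) (Real.exp (y - v)) :=
    fun y hy => hP.mono (Real.exp_le_exp.mpr (by linarith)) (Real.exp_le_exp.mpr (by linarith))
  have h0 := hmain P _ 0 hP0 hPU le_rfl hv (hPy 0 le_rfl)
  have hδ0 : 0 < δ := by
    refine lt_of_le_of_ne (abs_nonneg _) fun h => ?_
    rw [← h] at h0
    norm_num at h0
  have he0' : e0 ≠ 0 := by
    intro h
    rw [h] at h0
    norm_num at h0
  set x := S' - Real.log δ with hx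
  have hδx : δ = Real.exp (S' - x) := by rw [hx, sub_sub_cancel, Real.exp_log hδ0]
  have hx0 : 0 ≤ x := by
    rw [hδx, Real.exp_le_exp] at hd0
    linarith
  have hdiv : ∀ a t : ℝ, δ * a ≤ Real.exp S' * Real.exp (-t) → a ≤ Real.exp (x - t) := by
    intro a t h
    refine le_of_mul_le_mul_left (h.trans (le_of_eq ?_)) hδ0
    rw [hδx, ← Real.exp_add, ← Real.exp_add]
    congr 1
    ring
  set y := min x v with hy
  have hyx : y ≤ x := min_le_left _ _
  have hyv : y ≤ v := min_le_right _ _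
  have hy0 : 0 ≤ y := le_min hx0 hv
  have hb0 := hdiv _ _ hd1
  have hb1 : ∀ a : ℝ, a ≤ 1 → δ * a ≤ Real.exp S' * Real.exp (-v) → a ≤ Real.exp (y - v) := by
    intro a h1 h2
    rcases min_choice x v with h | h
    · rw [hy, h]; exact hdiv _ _ h2
    · rw [hy, h, sub_self, Real.exp_zero]; exact h1
  have hb10 : e3 ≤ Real.exp (y - v) := hb1 _ (hE2 0 1) hd20
  have hb11 : e1 ≤ Real.exp (y - v) := hb1 _ (hE2 1 1) hd21
  set Z := Real.exp (S' + y - q - 2 * v) with hZ
  have hZ1 : δ * (e0 * e1) * Real.exp (y - v) ≤ Z := by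
    refine (mul_le_mul_of_nonneg_right hd3 (Real.exp_pos _).le).trans (le_of_eq ?_)
    rw [← Real.exp_add, ← Real.exp_add, ← Real.exp_add]
    congr 1
    ring
  have hZ2 : δ * e0 * Real.exp (y - q) ≤ Z := by
    refine (mul_le_mul_of_nonneg_right hd1 (Real.exp_pos _).le).trans ?_
    rw [← Real.exp_add, ← Real.exp_add, hZ, Real.exp_le_exp]
    linarith
  have hZ0 : 0 < Z := Real.exp_pos _
  have hZ3 : δ * (e0 * (e1 * e2)) ≤ (6 * K + 1) * Z := by
    rcases min_choice x v with h | h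
    · rw [← hy] at h
      have h1 := flag_gain UR G hG1 hG2 u K (by linarith) E hE1 hE2 hE3 hE4
        (fun h => he0' (by rw [he0, h, abs_zero]))
      rw [← h] at hb0
      have h2 : e1 * e2 ≤ 2 * K * (e1 * (2 * Real.exp (y - v)) + Real.exp (y - q)) := by
        refine h1.trans ?_
        gcongr
        linarith
      calc _ ≤ δ * (e0 * (2 * K * (e1 * (2 * Real.exp (y - v)) + Real.exp (y - q)))) := by gcongr
        _ = 2 * K * (2 * (δ * (e0 * e1) * Real.exp (y - v)) + δ * e0 * Real.exp (y - q)) := by ring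
        _ ≤ 2 * K * (2 * Z + Z) := by gcongr
        _ ≤ _ := by linarith
    · rw [← hy] at h
      rw [h, sub_self, Real.exp_zero, mul_one] at hZ1
      have h2 : δ * (e0 * e1) * e2 ≤ δ * (e0 * e1) := mul_le_of_le_one_right (by positivity) he21
      nlinarith
  have hfin : ∀ (A : ℤ[X]) (α : ℝ), A ≠ 0 → toQ A ∈ U →
      Sm (tau ξ (toQ A)) (Real.exp α) (Real.exp (y - q)) (Real.exp (y - v)) →
      q + 2 * v - y ≤ S' + k * (α + l) + C3 := by
    intro A α hA0 hAU hA
    have h1 := hmain A _ y hA0 hAU hy0 hyv hA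
    have h2 : δ * (e0 * (e1 * (e2 + Real.exp (y - v)) + Real.exp (y - q))) ≤ (6 * K + 3) * Z := by
      linarith
    have h4 := h1.trans (mul_le_mul_of_nonneg_left h2 (by positivity))
    rw [← Real.exp_add, ← Real.exp_nat_mul, mul_mul_mul_comm, ← Real.exp_log (x := C1 * (6 * K + 3))
      (by positivity), hZ, ← Real.exp_add, ← Real.exp_add, Real.one_le_exp_iff] at h4
    linarith
  have hk0 : (0 : ℝ) ≤ k := Nat.cast_nonneg _
  have hkT : (k : ℝ) ≤ T := by exact_mod_cast (by omega : k ≤ T)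
  have hC4 : 0 ≤ T * (C2 + 2 * T) := by positivity
  refine ⟨y, hyv, ?_, ?_⟩
  · have := hfin P l hP0 hPU (hPy y hy0)
    linarith
  set ν := (S' - y) / (u + 2) with hν
  have hu0 : (0 : ℝ) ≤ u := Nat.cast_nonneg _
  obtain ⟨z, hz0, hz⟩ := short_vector M (by omega) (abs_pos.mp hδ0)
    (Function.update (fun _ => Real.exp ν) 0 (Real.exp (ν - (x - y)))) (fun i => by
      by_cases h : i = 0
      · rw [h, Function.update_self]; exact Real.exp_pos _
      · rw [Function.update_of_ne h]; exact Real.exp_pos _) (by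
      rw [Finset.prod_update_of_mem (Finset.mem_univ _), Finset.prod_const, ← hδ, hδx,
        ← Real.exp_nat_mul, ← Real.exp_add, Real.exp_le_exp, Finset.card_sdiff_of_subset
        (Finset.subset_univ _), Finset.card_univ, Fintype.card_fin, Finset.card_singleton]
      have : ν * (u + 2) = S' - y := by rw [hν]; field_simp
      rw [show u + 2 - 1 = u + 1 from rfl]
      push_cast
      linarith)
  have hz1 : ∀ i, |∑ b, (z b : ℝ) * M b i| ≤ 2 * Real.exp ν := fun i => (hz i).trans (by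
    by_cases h : i = 0
    · rw [h, Function.update_self]
      gcongr
      linarith
    · rw [Function.update_of_ne h])
  have hz2 := hz 0
  rw [Function.update_self] at hz2
  set A : ℤ[X] := ∑ b, C (z b) * F b with hA
  have hAQ : toQ A = ∑ b, (z b : ℚ) • toQ (F b) := by
    simp [hA, toQ, Polynomial.map_sum, smul_eq_C_mul]
  have hA0 : A ≠ 0 := by
    intro h
    apply hz0
    ext b
    have := Fintype.linearIndependent_iff.mp hli (fun b => (z b : ℚ)) (by
      rw [← hAQ, h]; simp) b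
    exact_mod_cast this
  have hAU : toQ A ∈ U := by
    rw [hAQ]
    exact Submodule.sum_mem _ fun b _ => Submodule.smul_mem _ _ (Submodule.subset_span ⟨b, rfl⟩)
  set w : ℕ → ℝ := fun i => if h : i < u + 2 then ∑ b, (z b : ℝ) * M b ⟨i, h⟩ else 0 with hw
  have hAt : tau ξ (toQ A) = ∑ i ∈ Finset.range (u + 2), w i • E i := by
    rw [hAQ, map_sum, Finset.sum_range]
    simp only [tau_smul, hM1, Finset.smul_sum, hw, Fin.is_lt, dite_true, Finset.sum_smul]
    rw [Finset.sum_comm]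
    simp [smul_smul]
  have hw1 : ∀ i, |w i| ≤ 2 * Real.exp ν := fun i => by
    simp only [hw]
    split_ifs
    · exact hz1 _
    · rw [abs_zero]; positivity
  have hw0 : |w 0| ≤ 2 * Real.exp (ν - (x - y)) := by
    simp only [hw, Nat.ofNat_pos, add_pos_iff, or_true, dite_true]
    exact hz2
  have hT2 : (u : ℝ) + 2 ≤ T := by exact_mod_cast (by omega : u + 2 ≤ T)
  have hex : 2 * (u + 2 : ℝ) ≤ Real.exp (2 * T) := by linarith [Real.add_one_le_exp (2 * T : ℝ)]
  have hν0 := Real.exp_pos ν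
  have h5 := hfin A (ν + 2 * T) hA0 hAU (by
    rw [hAt, Real.exp_add]
    refine ⟨?_, ?_, ?_⟩
    · refine (Bd.sum _ (M := 2 * Real.exp ν) fun i _ => ((hE2 i).smul _).mono
        (by rw [mul_one]; exact hw1 i)).mono ?_
      rw [Finset.card_range]
      push_cast
      nlinarith
    · rw [coeff_flag_zero hE3, abs_mul]
      refine (mul_le_mul hw0 hb0 he00 (by positivity)).trans ?_
      rw [mul_assoc, ← Real.exp_add, show ν - (x - y) + (x - q) = ν + (y - q) by ring, Real.exp_add,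
        ← mul_assoc, mul_comm 2]
      gcongr
      linarith
    · rw [coeff_flag_one hE3]
      refine (abs_add_le _ _).trans ?_
      rw [abs_mul, abs_mul]
      refine (add_le_add (mul_le_mul (hw1 0) hb10 he30 (by positivity))
        (mul_le_mul (hw1 1) hb11 he10 (by positivity))).trans ?_
      rw [← add_mul]
      gcongr
      nlinarith)
  have h6 : ν ≤ (S - y) / (u + 2) + C2 := by
    rw [hν, hS', show S + C2 - y = S - y + C2 by ring, add_div]
    gcongr
    exact div_le_self hC20 (by linarith)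
  have h7 : k * ν ≤ k * ((S - y) / (u + 2) + C2) := by gcongr
  have h8 : k * (C2 + 2 * T) ≤ T * (C2 + 2 * T) := by gcongr
  linarith

end Pool.Agent.MP_06f5ad_nt

end
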