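import Pool.Agent.Mg.F06f5adq.G140f38
import Pool.Agent.Mg.F06f5adq.G7c20c1

set_option linter.all false

section

open Polynomial Matrix

namespace Pool.Agent.MP_06f5ad_nt

/-- cast to rational polynomials -/
noncomputable abbrev toQ (P : ℤ[X]) : ℚ[X] := P.map (Int.castRingHom ℚ)

lemma toQ_injective : Function.Injective toQ :=
  Polynomial.map_injective _ (Int.castRingHom ℚ).injective_int

lemma natDegree_toQ (P : ℤ[X]) : (toQ P).natDegree = P.natDegree :=
  natDegree_map_eq_of_injective (Int.castRingHom ℚ).injective_int P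

/-- span of the first polynomials of a sequence -/
noncomputable def spanQ (x : ℕ → ℤ[X]) (b : ℕ) : Submodule ℚ ℚ[X] :=
  Submodule.span ℚ ((fun s => toQ (x s)) '' Set.Iio b)

instance spanQ_fin (x : ℕ → ℤ[X]) (b : ℕ) : FiniteDimensional ℚ (spanQ x b) :=
  FiniteDimensional.span_of_finite ℚ ((Set.finite_Iio b).image _)

lemma spanQ_zero (x : ℕ → ℤ[X]) : spanQ x 0 = ⊥ := by simp [spanQ]

lemma spanQ_succ (x : ℕ → ℤ[X]) (b : ℕ) :
    spanQ x (b + 1) = spanQ x b ⊔ Submodule.span ℚ {toQ (x b)} := by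
  unfold spanQ
  rw [← Submodule.span_union]
  congr 1
  have : Set.Iio (b + 1) = Set.Iio b ∪ {b} := by
    ext s
    simp only [Set.mem_Iio, Set.mem_union, Set.mem_singleton_iff]
    omega
  rw [this, Set.image_union, Set.image_singleton]

lemma finrank_spanQ_le (x : ℕ → ℤ[X]) (b : ℕ) : Module.finrank ℚ (spanQ x b) ≤ b := by
  induction b with
  | zero => rw [spanQ_zero]; simp
  | succ b ih =>
    rw [spanQ_succ]
    refine (Submodule.finrank_add_le_finrank_add_finrank _ _).trans (add_le_add ih ?_)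
    simpa using finrank_span_le_card (R := ℚ) ({toQ (x b)} : Set ℚ[X])

lemma le_finrank_spanQ (x : ℕ → ℤ[X]) (b : ℕ) (h : ∀ s < b, toQ (x s) ∉ spanQ x s) :
    b ≤ Module.finrank ℚ (spanQ x b) := by
  induction b with
  | zero => simp
  | succ b ih =>
    have h1 := ih (fun s hs => h s (by omega))
    have h2 : spanQ x b < spanQ x (b + 1) := by
      rw [spanQ_succ]
      refine lt_of_le_of_ne le_sup_left fun h3 => h b (by omega) ?_
      rw [h3]
      exact Submodule.mem_sup_right (Submodule.mem_span_singleton_self _)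
    have := Submodule.finrank_lt_finrank_of_lt h2
    omega

lemma finrank_degreeLT' (r : ℕ) : Module.finrank ℚ (degreeLT ℚ r) = r := by
  rw [(degreeLTEquiv ℚ r).finrank_eq]; simp

lemma exists_X_pow_notMem (W : Submodule ℚ ℚ[X]) [FiniteDimensional ℚ W] (n : ℕ)
    (h : Module.finrank ℚ W ≤ n) : ∃ k ≤ n, (X ^ k : ℚ[X]) ∉ W := by
  classical
  by_contra hcon
  push Not at hcon
  have h1 : degreeLT ℚ (n + 1) ≤ W := by
    rw [degreeLT_eq_span_X_pow, Submodule.span_le]
    intro f hf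
    simp only [Finset.coe_image, Finset.coe_range, Set.mem_image, Set.mem_Iio] at hf
    obtain ⟨k, hk, rfl⟩ := hf
    exact hcon k (by omega)
  have h2 := Submodule.finrank_mono h1
  rw [finrank_degreeLT'] at h2
  omega

lemma exists_lev (ξ : ℝ) {q : ℝ} (hq : 0 ≤ q) (A : ℤ[X]) : ∃ L, Lev ξ q L A := by
  refine ⟨A.supNorm + |aeval ξ A| + q, ?_, ?_⟩
  · have := Real.add_one_le_exp (A.supNorm + |aeval ξ A| + q)
    have := abs_nonneg (aeval ξ A)
    linarith
  · have := Real.add_one_le_exp (A.supNorm + |aeval ξ A| + q - q)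
    have := A.supNorm_nonneg
    linarith

/-- coefficient vector -/
noncomputable def cvec (n : ℕ) : ℚ[X] →ₗ[ℚ] (Fin (n + 1) → ℝ) :=
  LinearMap.pi fun j => (Algebra.linearMap ℚ ℝ) ∘ₗ lcoeff ℚ j

lemma cvec_toQ (n : ℕ) (A : ℤ[X]) (j : Fin (n + 1)) : cvec n (toQ A) j = (A.coeff j : ℝ) := by
  simp [cvec]

lemma mink_poly (n : ℕ) (ξ : ℝ) : ∃ C0 : ℝ, 0 ≤ C0 ∧ ∀ (q : ℝ), 0 ≤ q → ∀ (x : ℕ → ℤ[X])
    (lam : ℕ → ℝ), (∀ b < n, lam b ≤ lam (b + 1)) →
    (∀ b ≤ n, ∀ (A : ℤ[X]) (L : ℝ), A.natDegree ≤ n → toQ A ∉ spanQ x b → Lev ξ q L A →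
      lam b ≤ L) → ∑ b ∈ Finset.range (n + 1), lam b ≤ q + C0 := by
  classical
  have hρ : 1 ≤ |ξ| + 1 := by linarith [abs_nonneg ξ]
  set B : ℝ := 1 + n * (|ξ| + 1) ^ n with hB
  have hB1 : 1 ≤ B := by
    have : (0 : ℝ) ≤ n * (|ξ| + 1) ^ n := by positivity
    linarith
  have hl1 := Real.log_nonneg hB1
  have hl2 : 0 ≤ Real.log ((n : ℝ) + 1) :=
    Real.log_nonneg (by linarith [Nat.cast_nonneg (α := ℝ) n])
  refine ⟨(n + 1) * (1 + Real.log B + Real.log (n + 1)), by positivity, ?_⟩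
  intro q hq x lam hmono h
  set F : Matrix (Fin (n + 1)) (Fin (n + 1)) ℝ :=
    Matrix.of fun i j => if i = 0 then Real.exp q * ξ ^ (j : ℕ) else if i = j then 1 else 0 with hF
  have hdet : F.det = Real.exp q := by
    rw [Matrix.det_of_isUpperTriangular]
    · rw [Fin.prod_univ_succ]
      simp [hF]
    · intro i j hij
      have h1 : j < i := hij
      have h2 : i ≠ 0 := fun h => by rw [h] at h1; exact absurd h1 (Fin.not_lt_zero _)
      simp [hF, h2, h1.ne']
  have hm := mink2 F (by rw [hdet]; exact (Real.exp_pos _).ne') (fun i => cvec n (toQ (x i)))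
    (fun i => Real.exp (lam i - 1 - Real.log B)) (fun i => Real.exp_pos _) (by
      rw [Fin.monotone_iff_le_succ]
      intro i
      simp only [Fin.val_castSucc, Fin.val_succ, Real.exp_le_exp]
      linarith [hmono i i.2]) (by
      intro z i hz
      by_contra hcon
      push Not at hcon
      set t := Real.exp (lam i - 1 - Real.log B) with ht
      have ht0 : 0 < t := Real.exp_pos _
      have htB : Real.exp (lam i - 1) = B * t := by
        rw [ht, Real.exp_sub (lam i - 1), Real.exp_log (by linarith)]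
        field_simp
      set A : ℤ[X] := ofFn (n + 1) z with hA
      have hAd : A.natDegree ≤ n := Nat.lt_succ_iff.mp (ofFn_natDegree_lt (by omega) z)
      have hAc : ∀ j : Fin (n + 1), A.coeff j = z j := fun j => ofFn_coeff_eq_val_of_lt z j.2
      have hAe : aeval ξ A = ∑ j : Fin (n + 1), (z j : ℝ) * ξ ^ (j : ℕ) := by
        rw [hA, ofFn_eq_sum_monomial, map_sum]
        simp [aeval_monomial]
      have h0 : Real.exp q * |aeval ξ A| < t := by
        have := hcon 0
        have e : (F *ᵥ fun j => (z j : ℝ)) 0 = Real.exp q * aeval ξ A := by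
          rw [hAe, Finset.mul_sum]
          simp only [hF, Matrix.mulVec, dotProduct, Matrix.of_apply, if_true]
          exact Finset.sum_congr rfl fun j _ => by ring
        rwa [e, abs_mul, abs_of_pos (Real.exp_pos q)] at this
      have h1 : ∀ j : Fin n, |(z j.succ : ℝ)| < t := by
        intro j
        have := hcon j.succ
        simpa [hF, Matrix.mulVec, dotProduct, Fin.succ_ne_zero] using this
      have he1 : 1 ≤ Real.exp q := Real.one_le_exp hq
      have h2 : |aeval ξ A| < t := by nlinarith [abs_nonneg (aeval ξ A)]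
      have h3 : |(z 0 : ℝ)| ≤ B * t := by
        rw [Fin.sum_univ_succ] at hAe
        have h4 : |∑ j : Fin n, (z j.succ : ℝ) * ξ ^ ((j.succ : Fin (n + 1)) : ℕ)| ≤
            n * ((|ξ| + 1) ^ n * t) := by
          refine (Finset.abs_sum_le_sum_abs _ _).trans ?_
          refine (Finset.sum_le_card_nsmul _ _ ((|ξ| + 1) ^ n * t) fun j _ => ?_).trans ?_
          · rw [abs_mul, abs_pow, mul_comm]
            refine mul_le_mul ?_ (h1 j).le (abs_nonneg _) (by positivity)
            refine (pow_le_pow_left₀ (abs_nonneg _) (by linarith) _).trans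
              (pow_le_pow_right₀ hρ ?_)
            simp
          · simp
        have h5 : (z 0 : ℝ) = aeval ξ A -
            ∑ j : Fin n, (z j.succ : ℝ) * ξ ^ ((j.succ : Fin (n + 1)) : ℕ) := by
          rw [hAe]; simp
        rw [h5, hB]
        refine (abs_sub _ _).trans ?_
        linarith
      have hBt : t ≤ B * t := le_mul_of_one_le_left ht0.le hB1
      have hLev : Lev ξ q (lam i - 1) A := by
        constructor
        · rw [htB]
          apply supNorm_le
          intro j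
          by_cases hj : j < n + 1
          · have := hAc ⟨j, hj⟩
            simp only at this
            rw [this]
            refine Fin.cases ?_ (fun j => ?_) (⟨j, hj⟩ : Fin (n + 1))
            · exact h3
            · exact (h1 j).le.trans hBt
          · rw [coeff_eq_zero_of_natDegree_lt (by omega)]
            simp
            positivity
        · rw [Real.exp_sub, htB, le_div_iff₀ (Real.exp_pos _)]
          linarith
      have hnot : toQ A ∉ spanQ x i := by
        intro hmem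
        apply hz
        have e : (fun j => (z j : ℝ)) = cvec n (toQ A) := by
          ext j
          rw [cvec_toQ, hAc]
        rw [e]
        have : spanQ x i ≤ ((Submodule.span ℝ ((fun s : Fin (n + 1) => cvec n (toQ (x s))) ''
            Set.Iio i)).restrictScalars ℚ).comap (cvec n) := by
          unfold spanQ
          rw [Submodule.span_le]
          rintro _ ⟨s, hs, rfl⟩
          have hs' : s < (i : ℕ) := hs
          exact Submodule.subset_span ⟨⟨s, by omega⟩, hs', rfl⟩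
        exact this hmem
      have := h i (Nat.lt_succ_iff.mp i.2) A _ hAd hnot hLev
      linarith)
  rw [hdet, abs_of_pos (Real.exp_pos _), ← Real.exp_sum] at hm
  have e1 : (((n + 1 : ℕ) : ℝ)) ^ (n + 1) = Real.exp ((n + 1) * Real.log (n + 1)) := by
    rw [mul_comm, Real.exp_mul, Real.exp_log (by positivity)]
    push_cast
    rw [← Real.rpow_natCast]
    push_cast
    rfl
  rw [e1, ← Real.exp_add, Real.exp_le_exp, Finset.sum_sub_distrib, Finset.sum_sub_distrib,
    Fin.sum_univ_eq_sum_range lam] at hm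
  simp only [Finset.sum_const, Finset.card_univ, Fintype.card_fin, nsmul_eq_mul] at hm
  push_cast at hm
  linarith

theorem exists_minima (n : ℕ) (hn : 1 ≤ n) (ξ : ℝ) : ∃ C0 : ℝ, 0 ≤ C0 ∧ ∀ (q μ l : ℝ)
    (P Q : ℤ[X]), 0 ≤ q → P.natDegree ≤ n → Q.natDegree ≤ n → P ≠ 0 →
    toQ Q ∉ Submodule.span ℚ {toQ P} → μ ≤ l →
    (∀ (A : ℤ[X]) (L : ℝ), A ≠ 0 → A.natDegree ≤ n → Lev ξ q L A → μ ≤ L) →
    Lev ξ q l P → Lev ξ q l Q → ∃ (x : ℕ → ℤ[X]) (L : ℕ → ℝ), x 0 = P ∧ x 1 = Q ∧ L 0 = l ∧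
      L 1 = l ∧ (∀ b < n, L b ≤ L (b + 1)) ∧
      (∀ b ≤ n, (x b).natDegree ≤ n ∧ Lev ξ q (L b) (x b) ∧ toQ (x b) ∉ spanQ x b) ∧
      ∑ b ∈ Finset.range (n + 1), L b ≤ q + C0 + (n + 1) * (l - μ) := by
  classical
  obtain ⟨C0, hC0, hmk⟩ := mink_poly n ξ
  refine ⟨C0 + (n + 1), by positivity, ?_⟩
  intro q μ l P Q hq hPn hQn hP hQP hμ hmin hLP hLQ
  set S : Submodule ℚ ℚ[X] → Set ℝ :=
    fun W => {L | ∃ A : ℤ[X], A.natDegree ≤ n ∧ toQ A ∉ W ∧ Lev ξ q L A} with hS
  have hbdd : ∀ W, ∀ L ∈ S W, μ ≤ L := by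
    rintro W L ⟨A, h1, h2, h3⟩
    refine hmin A L ?_ h1 h3
    rintro rfl
    simp at h2
  have hex : ∀ W : Submodule ℚ ℚ[X], ∃ A : ℤ[X], (S W).Nonempty →
      A.natDegree ≤ n ∧ toQ A ∉ W ∧ Lev ξ q (sInf (S W) + 1) A := by
    intro W
    by_cases h : (S W).Nonempty
    · obtain ⟨L, ⟨A, h1, h2, h3⟩, hL⟩ := exists_lt_of_csInf_lt h (lt_add_one (sInf (S W)))
      exact ⟨A, fun _ => ⟨h1, h2, h3.mono hL.le⟩⟩
    · exact ⟨0, fun h' => absurd h' h⟩
  choose g hg using hex
  set g' : ℕ → Submodule ℚ ℚ[X] → ℤ[X] :=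
    fun b W => if b = 0 then P else if b = 1 then Q else g W with hg'
  let Wd : ℕ → Submodule ℚ ℚ[X] := fun b =>
    Nat.rec ⊥ (fun b W => W ⊔ Submodule.span ℚ {toQ (g' b W)}) b
  set x : ℕ → ℤ[X] := fun b => g' b (Wd b) with hx
  have hW : ∀ b, Wd b = spanQ x b := by
    intro b
    induction b with
    | zero => rw [spanQ_zero]; rfl
    | succ b ih => rw [spanQ_succ, ← ih]
  have hx0 : x 0 = P := by simp [hx, hg']
  have hx1 : x 1 = Q := by simp [hx, hg']
  have hx2 : ∀ b, 2 ≤ b → x b = g (spanQ x b) := by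
    intro b hb
    rw [← hW]
    simp only [hx, hg']
    rw [if_neg (by omega), if_neg (by omega)]
  have hne : ∀ b ≤ n, (S (spanQ x b)).Nonempty := by
    intro b hb
    obtain ⟨k, hk, h⟩ := exists_X_pow_notMem (spanQ x b) n ((finrank_spanQ_le x b).trans hb)
    obtain ⟨L, hL⟩ := exists_lev ξ hq (X ^ k)
    exact ⟨L, X ^ k, by simpa using hk, by simpa using h, hL⟩
  set lam : ℕ → ℝ := fun b => if b ≤ 1 then μ else sInf (S (spanQ x b)) with hlam
  have hlamμ : ∀ b ≤ n, μ ≤ sInf (S (spanQ x b)) := fun b hb =>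
    le_csInf (hne b hb) (hbdd _)
  have hlamm : ∀ b < n, lam b ≤ lam (b + 1) := by
    intro b hb
    simp only [hlam]
    split_ifs with h1 h2 h2
    · exact le_rfl
    · exact hlamμ _ hb
    · omega
    · refine csInf_le_csInf ⟨μ, hbdd _⟩ (hne _ hb) ?_
      rintro L ⟨A, h3, h4, h5⟩
      refine ⟨A, h3, fun h6 => h4 ?_, h5⟩
      rw [spanQ_succ]
      exact Submodule.mem_sup_left h6
  have hsum := hmk q hq x lam hlamm (by
    intro b hb A L h1 h2 h3
    simp only [hlam]
    split_ifs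
    · exact hbdd _ L ⟨A, h1, h2, h3⟩
    · exact csInf_le ⟨μ, hbdd _⟩ ⟨A, h1, h2, h3⟩)
  refine ⟨x, fun b => if b ≤ 1 then l else lam b + 1 + (l - μ), hx0, hx1, by simp, by simp, ?_,
    ?_, ?_⟩
  · intro b hb
    have h0 := hlamm b hb
    simp only
    split_ifs with h1 h2 h2
    · exact le_rfl
    · simp only [hlam, if_pos h1] at h0
      simp only [hlam]
      linarith
    · omega
    · linarith
  · intro b hb
    rcases Nat.lt_or_ge b 2 with h | h
    · interval_cases b
      · rw [hx0, spanQ_zero]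
        refine ⟨hPn, by simpa using hLP, ?_⟩
        rw [Submodule.mem_bot]
        exact fun h => hP (toQ_injective (by simpa using h))
      · rw [hx1, spanQ_succ, spanQ_zero, hx0, bot_sup_eq]
        exact ⟨hQn, by simpa using hLQ, hQP⟩
    · obtain ⟨h1, h2, h3⟩ := hg _ (hne b hb)
      rw [← hx2 b h] at h1 h2 h3
      refine ⟨h1, ?_, h2⟩
      simp only [hlam]
      rw [if_neg (by omega), if_neg (by omega)]
      exact h3.mono (by linarith)
  · have : ∑ b ∈ Finset.range (n + 1), (if b ≤ 1 then l else lam b + 1 + (l - μ)) ≤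
        ∑ b ∈ Finset.range (n + 1), (lam b + (1 + (l - μ))) := by
      refine Finset.sum_le_sum fun b _ => ?_
      split_ifs with h
      · simp only [hlam, if_pos h]; linarith
      · linarith
    rw [Finset.sum_add_distrib, Finset.sum_const, Finset.card_range, nsmul_eq_mul] at this
    push_cast at this
    linarith

end Pool.Agent.MP_06f5ad_nt

end

section

open Polynomial Matrix

namespace Pool.Agent.MP_06f5ad_nt

/-- one step of shifting -/
noncomputable def sig (V : Submodule ℚ ℚ[X]) : Submodule ℚ ℚ[X] :=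
  V ⊔ V.map (LinearMap.mulLeft ℚ X)

instance sig_fin (V : Submodule ℚ ℚ[X]) [FiniteDimensional ℚ V] : FiniteDimensional ℚ (sig V) := by
  unfold sig
  infer_instance

lemma degreeLT_le_of_X_pow {V : Submodule ℚ ℚ[X]} {r : ℕ} (h : ∀ k < r, (X ^ k : ℚ[X]) ∈ V) :
    degreeLT ℚ r ≤ V := by
  classical
  rw [degreeLT_eq_span_X_pow, Submodule.span_le]
  intro f hf
  simp only [Finset.coe_image, Finset.coe_range, Set.mem_image, Set.mem_Iio] at hf
  obtain ⟨k, hk, rfl⟩ := hf
  exact h k hk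

lemma finrank_map_X (V : Submodule ℚ ℚ[X]) :
    Module.finrank ℚ (V.map (LinearMap.mulLeft ℚ (X : ℚ[X]))) = Module.finrank ℚ V := by
  refine (Submodule.equivMapOfInjective _ ?_ V).finrank_eq.symm
  intro a b h
  exact mul_left_cancel₀ X_ne_zero h

lemma dim_step (V : Submodule ℚ ℚ[X]) [FiniteDimensional ℚ V]
    (hg : ∀ A : ℚ[X], (∀ P ∈ V, A ∣ P) → IsUnit A) :
    (∃ r, V = degreeLT ℚ (r + 1)) ∨ Module.finrank ℚ V + 2 ≤ Module.finrank ℚ (sig V) := by
  classical
  by_cases hcon : Module.finrank ℚ V + 2 ≤ Module.finrank ℚ (sig V)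
  · exact Or.inr hcon
  left
  have h1 := Submodule.finrank_sup_add_finrank_inf_eq V (V.map (LinearMap.mulLeft ℚ (X : ℚ[X])))
  rw [finrank_map_X] at h1
  have hex : ∃ d, ∃ A ∈ V, A ≠ 0 ∧ A.natDegree = d := by
    by_contra h
    push Not at h
    exact not_isUnit_zero (hg 0 fun P hP => by
      by_contra h0
      exact h _ P hP (fun h1 => h0 (h1 ▸ dvd_refl _)) rfl)
  obtain ⟨A, hAV, hA0, hAd⟩ := Nat.find_spec hex
  have hmin : ∀ P ∈ V, P ≠ 0 → A.natDegree ≤ P.natDegree := fun P hP h0 =>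
    hAd ▸ Nat.find_min' hex ⟨P, hP, h0, rfl⟩
  set U := V ⊓ V.map (LinearMap.mulLeft ℚ (X : ℚ[X])) with hU
  have hAU : A ∉ U := by
    rintro ⟨-, B, hB, hBA⟩
    have hBA' : X * B = A := hBA
    have hB0 : B ≠ 0 := by rintro rfl; exact hA0 (by simpa using hBA'.symm)
    have h2 := hmin B hB hB0
    rw [← hBA', natDegree_X_mul hB0] at h2
    omega
  have hle : U ⊔ Submodule.span ℚ {A} ≤ V :=
    sup_le inf_le_left ((Submodule.span_singleton_le_iff_mem _ _).mpr hAV)
  have hfin : FiniteDimensional ℚ (U ⊔ Submodule.span ℚ {A} : Submodule ℚ ℚ[X]) :=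
    Submodule.finiteDimensional_of_le hle
  have hlt : U < U ⊔ Submodule.span ℚ {A} :=
    lt_of_le_of_ne le_sup_left fun h => hAU
      (h ▸ Submodule.mem_sup_right (Submodule.mem_span_singleton_self _))
  have h3 := Submodule.finrank_lt_finrank_of_lt hlt
  have heq : U ⊔ Submodule.span ℚ {A} = V := by
    apply Submodule.eq_of_le_of_finrank_le hle
    unfold sig at hcon
    omega
  have hdec : ∀ P ∈ V, ∃ B ∈ V, ∃ c : ℚ, P = X * B + C c * A := by
    intro P hP
    rw [← heq, Submodule.mem_sup] at hP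
    obtain ⟨u, ⟨-, B, hB, rfl⟩, w, hw, rfl⟩ := hP
    obtain ⟨c, rfl⟩ := Submodule.mem_span_singleton.mp hw
    exact ⟨B, hB, c, by simp [smul_eq_C_mul]⟩
  have hdeg : ∀ P ∈ V, P ≠ 0 → ∀ (B : ℚ[X]) (c : ℚ), P = X * B + C c * A → B ≠ 0 →
      B.natDegree + 1 ≤ P.natDegree := by
    intro P hP h0 B c h hB
    rw [← natDegree_X_mul hB, show X * B = P - C c * A by rw [h]; ring]
    exact (natDegree_sub_le _ _).trans
      (max_le le_rfl ((natDegree_C_mul_le _ _).trans (hmin P hP h0)))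
  have hdvd : ∀ d, ∀ P ∈ V, P.natDegree = d → A ∣ P := by
    intro d
    induction d using Nat.strong_induction_on with
    | _ d ih =>
      intro P hP hd
      by_cases h0 : P = 0
      · rw [h0]; exact dvd_zero _
      obtain ⟨B, hB, c, h⟩ := hdec P hP
      by_cases hB0 : B = 0
      · rw [h, hB0]; simp
      have h4 := hdeg P hP h0 B c h hB0
      rw [h]
      exact dvd_add ((ih _ (by omega) B hB rfl).mul_left _) (dvd_mul_left _ _)
  have hAu := hg A fun P hP => hdvd _ P hP rfl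
  obtain ⟨a, ha, haA⟩ := isUnit_iff.mp hAu
  have hone : (1 : ℚ[X]) ∈ V := by
    have := V.smul_mem a⁻¹ hAV
    rwa [← haA, smul_C, smul_eq_mul, inv_mul_cancel₀ ha.ne_zero, C_1] at this
  have hpow : ∀ d, ∀ P ∈ V, P ≠ 0 → P.natDegree = d → ∀ k ≤ d, (X ^ k : ℚ[X]) ∈ V := by
    intro d
    induction d with
    | zero =>
      intro P _ _ _ k hk
      obtain rfl : k = 0 := by omega
      simpa using hone
    | succ d ih =>
      intro P hP h0 hd k hk
      obtain ⟨B, hB, c, h⟩ := hdec P hP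
      have hB0 : B ≠ 0 := by
        rintro rfl
        rw [h, ← haA, mul_zero, zero_add, ← C_mul, natDegree_C] at hd
        omega
      have hBd : B.natDegree = d := by
        have h4 := hdeg P hP h0 B c h hB0
        have h5 : P.natDegree ≤ B.natDegree + 1 := by
          rw [h, ← haA, ← C_mul]
          refine (natDegree_add_le _ _).trans (max_le (natDegree_X_mul hB0).le ?_)
          rw [natDegree_C]; omega
        omega
      have h6 := ih B hB hB0 hBd
      rcases hk.lt_or_eq with hk | rfl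
      · exact h6 k (by omega)
      · have h7 : P.eraseLead ∈ V := by
          apply degreeLT_le_of_X_pow (r := d + 1) (fun k hk => h6 k (by omega))
          rw [mem_degreeLT]
          refine (degree_eraseLead_lt h0).trans_le ?_
          rw [degree_eq_natDegree h0, hd]
        have h8 := V.sub_mem hP h7
        have h9 : P - P.eraseLead = C P.leadingCoeff * X ^ (d + 1) := by
          rw [← hd]
          linear_combination (P.eraseLead_add_C_mul_X_pow).symm
        have h10 := V.smul_mem P.leadingCoeff⁻¹ h8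
        rwa [h9, smul_eq_C_mul, ← mul_assoc, ← C_mul,
          inv_mul_cancel₀ (leadingCoeff_ne_zero.mpr h0), C_1, one_mul] at h10
  have hle2 : V ≤ degreeLT ℚ (Module.finrank ℚ V) := by
    intro P hP
    rw [mem_degreeLT]
    by_cases h0 : P = 0
    · rw [h0, degree_zero]; exact WithBot.bot_lt_coe _
    have h4 : degreeLT ℚ (P.natDegree + 1) ≤ V :=
      degreeLT_le_of_X_pow fun k hk => hpow _ P hP h0 rfl k (by omega)
    have h5 := Submodule.finrank_mono h4
    rw [finrank_degreeLT'] at h5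
    rw [degree_eq_natDegree h0]
    exact_mod_cast h5
  have h9 : 1 ≤ Module.finrank ℚ V := by
    rw [heq] at h3
    omega
  refine ⟨Module.finrank ℚ V - 1, ?_⟩
  rw [Nat.sub_add_cancel h9]
  exact Submodule.eq_of_le_of_finrank_le hle2 (finrank_degreeLT' _).le

lemma sig_degreeLT (r : ℕ) : sig (degreeLT ℚ (r + 1)) = degreeLT ℚ (r + 2) := by
  apply le_antisymm
  · refine sup_le (degreeLT_mono (by omega)) ?_
    rintro _ ⟨B, hB, rfl⟩
    have hB' : B.degree < (r + 1 : ℕ) := mem_degreeLT.mp hB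
    rw [mem_degreeLT, LinearMap.mulLeft_apply]
    by_cases h0 : B = 0
    · rw [h0, mul_zero, degree_zero]; exact WithBot.bot_lt_coe _
    rw [degree_eq_natDegree h0] at hB'
    rw [degree_eq_natDegree (mul_ne_zero X_ne_zero h0), natDegree_X_mul h0]
    have : B.natDegree < r + 1 := by exact_mod_cast hB'
    exact_mod_cast (by omega : B.natDegree + 1 < r + 2)
  · apply degreeLT_le_of_X_pow
    intro k hk
    rcases Nat.eq_zero_or_pos k with rfl | hk0
    · refine Submodule.mem_sup_left (mem_degreeLT.mpr ?_)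
      rw [degree_X_pow]
      exact_mod_cast Nat.succ_pos r
    · refine Submodule.mem_sup_right ⟨X ^ (k - 1), mem_degreeLT.mpr ?_, ?_⟩
      · rw [degree_X_pow]
        exact_mod_cast (by omega : k - 1 < r + 1)
      · rw [LinearMap.mulLeft_apply, ← pow_succ', Nat.sub_add_cancel hk0]

/-- the set of shifted polynomials -/
def shiftSet (x : ℕ → ℤ[X]) (b m : ℕ) : Set ℤ[X] := {y | ∃ s < b, ∃ k ≤ m, y = X ^ k * x s}

lemma shiftSet_finite (x : ℕ → ℤ[X]) (b m : ℕ) : (shiftSet x b m).Finite := by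
  refine (((Set.finite_Iio b).prod (Set.finite_Iic m)).image
    (fun p : ℕ × ℕ => X ^ p.2 * x p.1)).subset ?_
  rintro _ ⟨s, hs, k, hk, rfl⟩
  exact ⟨(s, k), ⟨hs, hk⟩, rfl⟩

/-- span of the shifted polynomials -/
noncomputable def shiftSpan (x : ℕ → ℤ[X]) (b m : ℕ) : Submodule ℚ ℚ[X] :=
  Submodule.span ℚ (toQ '' shiftSet x b m)

instance shiftSpan_fin (x : ℕ → ℤ[X]) (b m : ℕ) : FiniteDimensional ℚ (shiftSpan x b m) :=
  FiniteDimensional.span_of_finite ℚ ((shiftSet_finite x b m).image _)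

lemma shiftSpan_zero (x : ℕ → ℤ[X]) (b : ℕ) : shiftSpan x b 0 = spanQ x b := by
  unfold shiftSpan spanQ
  congr 1
  ext f
  constructor
  · rintro ⟨_, ⟨s, hs, k, hk, rfl⟩, rfl⟩
    obtain rfl : k = 0 := by omega
    exact ⟨s, hs, by simp⟩
  · rintro ⟨s, hs, rfl⟩
    exact ⟨x s, ⟨s, hs, 0, le_rfl, by simp⟩, rfl⟩

lemma shiftSpan_succ (x : ℕ → ℤ[X]) (b m : ℕ) :
    shiftSpan x b (m + 1) = sig (shiftSpan x b m) := by
  unfold sig shiftSpan
  rw [Submodule.map_span, ← Submodule.span_union]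
  congr 1
  ext f
  constructor
  · rintro ⟨_, ⟨s, hs, k, hk, rfl⟩, rfl⟩
    rcases Nat.eq_zero_or_pos k with rfl | hk0
    · exact Or.inl ⟨_, ⟨s, hs, 0, by omega, rfl⟩, rfl⟩
    · refine Or.inr ⟨_, ⟨_, ⟨s, hs, k - 1, by omega, rfl⟩, rfl⟩, ?_⟩
      obtain ⟨k, rfl⟩ : ∃ k', k = k' + 1 := ⟨k - 1, by omega⟩
      simp [toQ, pow_succ]
      ring
  · rintro (⟨_, ⟨s, hs, k, hk, rfl⟩, rfl⟩ | ⟨_, ⟨_, ⟨s, hs, k, hk, rfl⟩, rfl⟩, rfl⟩)
    · exact ⟨_, ⟨s, hs, k, by omega, rfl⟩, rfl⟩
    · refine ⟨_, ⟨s, hs, k + 1, by omega, rfl⟩, ?_⟩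
      simp [toQ, pow_succ]
      ring

lemma mem_shiftSpan (x : ℕ → ℤ[X]) {b s : ℕ} (m : ℕ) (hs : s < b) :
    toQ (x s) ∈ shiftSpan x b m :=
  Submodule.subset_span ⟨_, ⟨s, hs, 0, Nat.zero_le _, by simp⟩, rfl⟩

lemma shiftSpan_dim (x : ℕ → ℤ[X]) (hcop : Cop (x 0) (x 1)) (b : ℕ) (hb : 2 ≤ b)
    (hind : ∀ s < b, toQ (x s) ∉ spanQ x s) (m : ℕ) :
    (∃ r, shiftSpan x b m = degreeLT ℚ (r + 1)) ∨
      b + 2 * m ≤ Module.finrank ℚ (shiftSpan x b m) := by
  induction m with
  | zero =>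
    right
    rw [shiftSpan_zero]
    simpa using le_finrank_spanQ x b hind
  | succ m ih =>
    rw [shiftSpan_succ]
    rcases ih with ⟨r, hr⟩ | ih
    · exact Or.inl ⟨r + 1, by rw [hr, sig_degreeLT]⟩
    rcases dim_step (shiftSpan x b m) (fun A hA => hcop.isCoprime.isUnit_of_dvd'
      (hA _ (mem_shiftSpan x m (by omega))) (hA _ (mem_shiftSpan x m (by omega)))) with ⟨r, hr⟩ | h
    · exact Or.inl ⟨r + 1, by rw [hr, sig_degreeLT]⟩
    · right; omega

lemma shiftSpan_le (x : ℕ → ℤ[X]) (b m n : ℕ) (h : ∀ s < b, (x s).natDegree ≤ n) :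
    shiftSpan x b m ≤ degreeLT ℚ (n + m + 1) := by
  unfold shiftSpan
  rw [Submodule.span_le]
  rintro _ ⟨_, ⟨s, hs, k, hk, rfl⟩, rfl⟩
  rw [SetLike.mem_coe, mem_degreeLT]
  refine degree_le_natDegree.trans_lt ?_
  have : (toQ (X ^ k * x s)).natDegree < n + m + 1 := by
    rw [natDegree_toQ]
    refine natDegree_mul_le.trans_lt ?_
    have := h s hs
    rw [natDegree_X_pow]
    omega
  exact_mod_cast this

/-- weighted norm -/
noncomputable def nrm (ξ q v : ℝ) (y : ℤ[X]) : ℝ :=
  max (max y.supNorm (Real.exp q * |aeval ξ y|)) (Real.exp v * |aeval ξ (derivative y)|)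

lemma nrm_nonneg (ξ q v : ℝ) (y : ℤ[X]) : 0 ≤ nrm ξ q v y :=
  y.supNorm_nonneg.trans ((le_max_left _ _).trans (le_max_left _ _))

lemma finrank_span_finset (B : Finset ℤ[X]) (hB : LinearIndepOn ℚ toQ (B : Set ℤ[X])) :
    Module.finrank ℚ (Submodule.span ℚ (toQ '' (B : Set ℤ[X]))) = B.card := by
  have := finrank_span_eq_card (R := ℚ) (b := fun y : B => toQ y) hB
  rw [Fintype.card_coe] at this
  rw [← this, Set.image_eq_range]
  rfl

lemma det_ineq (ξ q v : ℝ) (r : ℕ) (B : Finset ℤ[X]) (hB : LinearIndepOn ℚ toQ (B : Set ℤ[X]))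
    (hspan : Submodule.span ℚ (toQ '' (B : Set ℤ[X])) = degreeLT ℚ (r + 2)) :
    Real.exp (q + v) ≤ ((r + 2).factorial : ℝ) * ∏ y ∈ B, nrm ξ q v y := by
  classical
  have hcard : B.card = r + 2 := by
    rw [← finrank_span_finset B hB, hspan, finrank_degreeLT']
  let e : Fin (r + 2) ≃ B := (B.equivFinOfCardEq hcard).symm
  have hdeg : ∀ i, (e i : ℤ[X]).natDegree < r + 2 := by
    intro i
    have h1 : toQ (e i) ∈ degreeLT ℚ (r + 2) := hspan ▸ Submodule.subset_span ⟨_, (e i).2, rfl⟩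
    rw [← natDegree_toQ]
    by_cases h0 : toQ (e i) = 0
    · rw [h0]; simp
    · exact (natDegree_lt_iff_degree_lt h0).mpr (mem_degreeLT.mp h1)
  set A : Matrix (Fin (r + 2)) (Fin (r + 2)) ℤ := Matrix.of fun i j => (e i : ℤ[X]).coeff j with hA
  have hA0 : A.det ≠ 0 := by
    have h1 : LinearIndependent ℚ (fun i => toQ (e i)) := LinearIndependent.comp hB e e.injective
    have h2 : LinearIndependent ℚ (A.map (Int.castRingHom ℚ)).row := by
      apply LinearIndependent.of_comp (ofFn (r + 2))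
      convert h1 using 1
      ext1 i
      rw [← ofFn_comp_toFn_eq_id_of_natDegree_lt (n := r + 2) (p := toQ (e i))
        (by rw [natDegree_toQ]; exact hdeg i)]
      simp only [Function.comp_apply]
      congr 1
      ext j
      simp [hA, toFn, Matrix.row]
    have h3 := Matrix.linearIndependent_rows_iff_isUnit.mp h2
    rw [Matrix.isUnit_iff_isUnit_det, ← RingHom.mapMatrix_apply, ← RingHom.map_det] at h3
    intro h0
    rw [h0, map_zero] at h3
    exact not_isUnit_zero h3
  have hA1 : (1 : ℝ) ≤ |(A.map (Int.castRingHom ℝ)).det| := by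
    rw [← RingHom.mapMatrix_apply, ← RingHom.map_det, eq_intCast]
    exact_mod_cast Int.one_le_abs hA0
  set T : Matrix (Fin (r + 2)) (Fin (r + 2)) ℝ := Matrix.of fun i j =>
    if j = 0 then ξ ^ (i : ℕ) else if j = 1 then i * ξ ^ ((i : ℕ) - 1) else
      if i = j then 1 else 0 with hT
  have hTdet : T.det = 1 := by
    rw [Matrix.det_of_isLowerTriangular]
    · rw [Fin.prod_univ_succ, Fin.prod_univ_succ]
      simp [hT, Fin.succ_ne_zero]
      exact Finset.prod_eq_one fun x _ => if_neg (Fin.succ_succ_ne_one x)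
    · intro i j hij
      have h1 : i < j := hij
      have h2 : j ≠ 0 := fun h => by rw [h] at h1; exact absurd h1 (Fin.not_lt_zero _)
      by_cases h3 : j = 1
      · have h4 : i = 0 := by
          rw [h3] at h1
          apply Fin.ext
          have : (i : ℕ) < 1 := h1
          simpa using this
        simp [hT, h3, h4]
      · simp [hT, h2, h3, h1.ne]
  have h1 := abs_det_le (A.map (Int.castRingHom ℝ) * T) (fun i => nrm ξ q v (e i))
    (fun j => if j = 0 then Real.exp (-q) else if j = 1 then Real.exp (-v) else 1) (by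
      intro i j
      rw [Matrix.mul_apply]
      simp only [hA, hT, Matrix.map_apply, Matrix.of_apply, eq_intCast]
      split_ifs with h0 h1
      · have : ∑ k : Fin (r + 2), ((e i : ℤ[X]).coeff k : ℝ) * ξ ^ (k : ℕ) = aeval ξ (e i : ℤ[X]) := by
          rw [aeval_eq_sum_range' (hdeg i), ← Fin.sum_univ_eq_sum_range
            (fun k => (e i : ℤ[X]).coeff k • ξ ^ k)]
          simp
        rw [this, Real.exp_neg, ← div_eq_mul_inv, le_div_iff₀ (Real.exp_pos _), mul_comm]
        exact (le_max_right _ _).trans (le_max_left _ _)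
      · have : ∑ k : Fin (r + 2), ((e i : ℤ[X]).coeff k : ℝ) * (k * ξ ^ ((k : ℕ) - 1)) =
            aeval ξ (derivative (e i : ℤ[X])) := by
          have hd : (derivative (e i : ℤ[X])).natDegree < r + 1 := by
            have := natDegree_derivative_le (e i : ℤ[X])
            have := hdeg i
            omega
          rw [aeval_eq_sum_range' hd, Fin.sum_univ_succ, ← Fin.sum_univ_eq_sum_range
            (fun k => (derivative (e i : ℤ[X])).coeff k • ξ ^ k)]
          simp only [Fin.val_zero, Nat.cast_zero, zero_mul, mul_zero, zero_add, Fin.val_succ,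
            coeff_derivative, zsmul_eq_mul]
          refine Finset.sum_congr rfl fun k _ => ?_
          push_cast
          ring
        rw [this, Real.exp_neg, ← div_eq_mul_inv, le_div_iff₀ (Real.exp_pos _), mul_comm]
        exact le_max_right _ _
      · simp only [mul_ite, mul_one, mul_zero, Finset.sum_ite_eq', Finset.mem_univ, if_true]
        exact (coeff_le _ _).trans ((le_max_left _ _).trans (le_max_left _ _)))
  rw [Matrix.det_mul, hTdet, mul_one, Fintype.card_fin] at h1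
  have h2 : ∏ j : Fin (r + 2), (if j = 0 then Real.exp (-q) else if j = 1 then Real.exp (-v) else 1)
      = Real.exp (-(q + v)) := by
    rw [Fin.prod_univ_succ, Fin.prod_univ_succ, neg_add, Real.exp_add]
    simp [Fin.succ_ne_zero]
    exact Finset.prod_eq_one fun x _ => if_neg (Fin.succ_succ_ne_one x)
  have h3 : ∏ i, nrm ξ q v (e i) = ∏ y ∈ B, nrm ξ q v y := by
    rw [Equiv.prod_comp e (fun y : B => nrm ξ q v y), Finset.prod_coe_sort B]
  rw [h2, h3, Real.exp_neg, ← mul_assoc, ← div_eq_mul_inv] at h1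
  have h4 := hA1.trans h1
  rwa [le_div_iff₀ (Real.exp_pos _), one_mul] at h4

lemma prod_le_pow_card'' {ι : Type*} (s : Finset ι) (f : ι → ℝ) (a : ℝ) (h0 : ∀ y ∈ s, 0 ≤ f y)
    (h : ∀ y ∈ s, f y ≤ a) : ∏ y ∈ s, f y ≤ a ^ s.card := by
  rw [← Finset.prod_const]
  exact Finset.prod_le_prod h0 h

lemma extend_basis {B : Finset ℤ[X]} (hB : LinearIndepOn ℚ toQ (B : Set ℤ[X])) {T : Set ℤ[X]}
    (hT : T.Finite) (hBT : (B : Set ℤ[X]) ⊆ T) : ∃ B' : Finset ℤ[X], (B' : Set ℤ[X]) ⊆ T ∧
      B ⊆ B' ∧ LinearIndepOn ℚ toQ (B' : Set ℤ[X]) ∧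
      Submodule.span ℚ (toQ '' (B' : Set ℤ[X])) = Submodule.span ℚ (toQ '' T) := by
  obtain ⟨b, hb1, hb2, hb3, hb4⟩ := exists_linearIndepOn_extension hB hBT
  lift b to Finset ℤ[X] using hT.subset hb1
  refine ⟨b, hb1, by exact_mod_cast hb2, hb4, le_antisymm ?_ ?_⟩
  · exact Submodule.span_mono (Set.image_mono hb1)
  · exact Submodule.span_le.mpr hb3

/-- the basic inequality -/
theorem main_ineq (ξ q v : ℝ) (n m : ℕ) (hm : m + 1 ≤ n) (x : ℕ → ℤ[X]) (L : ℕ → ℝ)
    (hcop : Cop (x 0) (x 1)) (h01 : L 0 = L 1) (hL0 : 0 ≤ L 0)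
    (hmono : ∀ b < n - m, L b ≤ L (b + 1))
    (hx : ∀ b ≤ n - m, (x b).natDegree ≤ n ∧ toQ (x b) ∉ spanQ x b)
    (hn : ∀ s < n + 1 - m, ∀ k ≤ m, nrm ξ q v (X ^ k * x s) ≤ Real.exp (L s)) :
    q + v ≤ Real.log ((n + m + 1).factorial : ℝ) + ∑ s ∈ Finset.range (n + 1 - m), L s +
      2 * m * L 1 := by
  classical
  have hmono' : ∀ a b, a ≤ b → b ≤ n - m → L a ≤ L b := by
    intro a b hab hb
    induction b, hab using Nat.le_induction with
    | base => exact le_rfl
    | succ b hab ih => exact (ih (by omega)).trans (hmono b (by omega))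
  set Θ : ℕ → ℝ := fun b => ∑ s ∈ Finset.range b, L s + 2 * m * L 1 +
    ((n : ℝ) + m + 1 - b - 2 * m) * L (b - 1) with hΘ
  have hΘs : ∀ b, 1 ≤ b → Θ (b + 1) = Θ b + ((n : ℝ) + m + 1 - b - 2 * m) * (L b - L (b - 1)) := by
    intro b hb
    simp only [hΘ, Finset.sum_range_succ, Nat.add_sub_cancel]
    push_cast
    ring
  set Done : ℕ → Prop := fun b => q + v ≤ Real.log ((n + m + 1).factorial : ℝ) + Θ b with hDone
  set Inv : ℕ → Prop := fun b => ∃ B : Finset ℤ[X], (B : Set ℤ[X]) ⊆ shiftSet x b m ∧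
    LinearIndepOn ℚ toQ (B : Set ℤ[X]) ∧
    Submodule.span ℚ (toQ '' (B : Set ℤ[X])) = shiftSpan x b m ∧
    ∏ y ∈ B, nrm ξ q v y ≤ Real.exp (Θ b - ((n : ℝ) + m + 1 - B.card) * L (b - 1)) with hInv
  have hlev : ∀ b ≤ n + 1 - m, ∀ y ∈ shiftSet x b m, nrm ξ q v y ≤ Real.exp (L (b - 1)) := by
    rintro b hb _ ⟨s, hs, k, hk, rfl⟩
    exact (hn s (by omega) k hk).trans (Real.exp_le_exp.mpr (hmono' _ _ (by omega) (by omega)))
  have hfull : ∀ b, 2 ≤ b → b ≤ n + 1 - m → Inv b →
      (∃ r, shiftSpan x b m = degreeLT ℚ (r + 1)) → Done b := by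
    rintro b hb2 hb ⟨B, h1, h2, h3, h4⟩ ⟨r, hr⟩
    have h5 := Submodule.finrank_mono (shiftSpan_le x b m n (fun s hs => (hx s (by omega)).1))
    have h6 : 2 ≤ Module.finrank ℚ (shiftSpan x b m) := by
      refine (le_finrank_spanQ x 2 (fun s hs => (hx s (by omega)).2)).trans
        (Submodule.finrank_mono ?_)
      unfold spanQ
      rw [Submodule.span_le]
      rintro _ ⟨s, hs, rfl⟩
      exact mem_shiftSpan x m (lt_of_lt_of_le hs hb2)
    have h7 := finrank_span_finset B h2
    rw [h3] at h7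
    rw [finrank_degreeLT'] at h5
    have h8 : Module.finrank ℚ (shiftSpan x b m) = r + 1 := by rw [hr, finrank_degreeLT']
    obtain ⟨r, rfl⟩ : ∃ r', r = r' + 1 := ⟨r - 1, by omega⟩
    have h9 := det_ineq ξ q v r B h2 (h3.trans hr)
    have h10 : ((r + 2).factorial : ℝ) ≤ ((n + m + 1).factorial : ℝ) := by
      exact_mod_cast Nat.factorial_le (by omega)
    have h11 : (0 : ℝ) ≤ ((n : ℝ) + m + 1 - B.card) * L (b - 1) := by
      refine mul_nonneg ?_ (hL0.trans (hmono' _ _ (by omega) (by omega)))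
      have : B.card ≤ n + m + 1 := by omega
      have : (B.card : ℝ) ≤ n + m + 1 := by exact_mod_cast this
      linarith
    have hF : (0 : ℝ) < ((n + m + 1).factorial : ℝ) := by exact_mod_cast Nat.factorial_pos _
    simp only [hDone]
    rw [← Real.exp_le_exp, Real.exp_add (Real.log _), Real.exp_log hF]
    refine h9.trans (mul_le_mul h10 (h4.trans (Real.exp_le_exp.mpr (by linarith)))
      (Finset.prod_nonneg fun y _ => nrm_nonneg _ _ _ _) hF.le)
  have key : ∀ b, 2 ≤ b → b ≤ n + 1 - m → Done b ∨ Inv b := by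
    intro b hb2
    induction b, hb2 using Nat.le_induction with
    | base =>
      intro hb
      right
      obtain ⟨B, h1, -, h3, h4⟩ := extend_basis (B := ∅) (by simp) (shiftSet_finite x 2 m) (by simp)
      refine ⟨B, h1, h3, h4, ?_⟩
      refine (prod_le_pow_card'' B _ _ (fun y _ => nrm_nonneg _ _ _ _)
        (fun y hy => hlev 2 hb y (h1 hy))).trans (le_of_eq ?_)
      rw [← Real.exp_nat_mul]
      congr 1
      simp only [hΘ, Finset.sum_range_succ, Finset.range_zero, Finset.sum_empty, h01]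
      norm_num
      ring
    | succ b hb2 ih =>
      intro hb
      have hstep : Done b → Done (b + 1) := by
        intro h
        simp only [hDone] at h ⊢
        rw [hΘs b (by omega)]
        have h1 : (0 : ℝ) ≤ (n : ℝ) + m + 1 - b - 2 * m := by
          have : b + m ≤ n + 1 := by omega
          have : (b : ℝ) + m ≤ n + 1 := by exact_mod_cast this
          linarith
        have h2 := hmono' (b - 1) b (by omega) (by omega)
        nlinarith
      rcases ih (by omega) with h | h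
      · exact Or.inl (hstep h)
      rcases shiftSpan_dim x hcop b hb2 (fun s hs => (hx s (by omega)).2) m with hf | hf
      · exact Or.inl (hstep (hfull b hb2 (by omega) h hf))
      right
      obtain ⟨B, h1, h2, h3, h4⟩ := h
      obtain ⟨B', h5, h6, h7, h8⟩ := extend_basis h2 (shiftSet_finite x (b + 1) m) (h1.trans (by
        rintro _ ⟨s, hs, k, hk, rfl⟩
        exact ⟨s, by omega, k, hk, rfl⟩))
      refine ⟨B', h5, h7, h8, ?_⟩
      rw [← Finset.prod_sdiff h6]
      have h9 := prod_le_pow_card'' (B' \ B) _ _ (fun y _ => nrm_nonneg ξ q v y)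
        (fun y hy => hlev (b + 1) hb y (h5 (Finset.mem_sdiff.mp hy).1))
      refine (mul_le_mul h9 h4 (Finset.prod_nonneg fun y _ => nrm_nonneg _ _ _ _)
        (by positivity)).trans ?_
      rw [← Real.exp_nat_mul, ← Real.exp_add, Real.exp_le_exp, hΘs b (by omega),
        Finset.card_sdiff_of_subset h6, Nat.cast_sub (Finset.card_le_card h6), Nat.add_sub_cancel]
      have h10 := finrank_span_finset B h2
      rw [h3] at h10
      have h11 : (b : ℝ) + 2 * m ≤ B.card := by
        have : b + 2 * m ≤ B.card := by omega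
        exact_mod_cast this
      have h12 := hmono' (b - 1) b (by omega) (by omega)
      nlinarith
  have hfin : Done (n + 1 - m) := by
    rcases key (n + 1 - m) (by omega) le_rfl with h | h
    · exact h
    refine hfull _ (by omega) le_rfl h ?_
    rcases shiftSpan_dim x hcop (n + 1 - m) (by omega) (fun s hs => (hx s (by omega)).2) m
      with hf | hf
    · exact hf
    · refine ⟨n + m, Submodule.eq_of_le_of_finrank_le
        (shiftSpan_le x _ m n (fun s hs => (hx s (by omega)).1)) ?_⟩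
      rw [finrank_degreeLT']
      omega
  simp only [hDone, hΘ] at hfin
  rw [Nat.cast_sub (by omega)] at hfin
  push_cast at hfin
  linarith

end Pool.Agent.MP_06f5ad_nt

end

section

open Polynomial

namespace Pool.Agent.MP_06f5ad_nt

lemma nrm_shift_le (n : ℕ) (ξ : ℝ) : ∃ c : ℝ, 0 ≤ c ∧ ∀ (q v L : ℝ) (A : ℤ[X]) (k : ℕ), k ≤ n →
    v ≤ q → Lev ξ q L A → |aeval ξ (derivative A)| ≤ Real.exp (L - v) →
    nrm ξ q v (X ^ k * A) ≤ Real.exp (L + c) := by
  have hρ : 1 ≤ |ξ| + 1 := by linarith [abs_nonneg ξ]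
  have hn : (0 : ℝ) ≤ n := Nat.cast_nonneg n
  have hp : (1 : ℝ) ≤ (|ξ| + 1) ^ n := one_le_pow₀ hρ
  have hB : (1 : ℝ) ≤ (n + 1) * (|ξ| + 1) ^ n := one_le_mul_of_one_le_of_one_le (by linarith) hp
  refine ⟨Real.log ((n + 1) * (|ξ| + 1) ^ n), Real.log_nonneg hB, ?_⟩
  intro q v L A k hk hv hL hd
  rw [Real.exp_add, Real.exp_log (by linarith)]
  have hE := Real.exp_pos L
  have hpow : ∀ j ≤ n, |ξ| ^ j ≤ (|ξ| + 1) ^ n := fun j hj =>
    (pow_le_pow_left₀ (abs_nonneg _) (by linarith) _).trans (pow_le_pow_right₀ hρ hj)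
  have h1 : Real.exp q * |aeval ξ A| ≤ Real.exp L := by
    have := hL.2
    rwa [Real.exp_sub, le_div_iff₀ (Real.exp_pos _), mul_comm] at this
  have h2 : Real.exp v * |aeval ξ (derivative A)| ≤ Real.exp L := by
    rwa [Real.exp_sub, le_div_iff₀ (Real.exp_pos _), mul_comm] at hd
  have h3 : Real.exp v * |aeval ξ A| ≤ Real.exp L :=
    (mul_le_mul_of_nonneg_right (Real.exp_le_exp.mpr hv) (abs_nonneg _)).trans h1
  refine max_le (max_le ?_ ?_) ?_
  · exact (supNorm_X_pow_mul_le k A).trans (hL.1.trans (le_mul_of_one_le_right hE.le hB))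
  · rw [map_mul, map_pow, aeval_X, abs_mul, abs_pow, mul_left_comm, mul_comm (Real.exp L)]
    refine mul_le_mul ((hpow k hk).trans ?_) h1 (by positivity) (by positivity)
    nlinarith
  · rw [derivative_mul, derivative_X_pow, map_add, map_mul, map_mul, map_mul, map_pow, map_pow,
      aeval_X, aeval_C]
    simp only [algebraMap_int_eq, eq_intCast, Int.cast_natCast]
    have hk' : (k : ℝ) ≤ n := by exact_mod_cast hk
    have h4 : |(k : ℝ) * ξ ^ (k - 1) * aeval ξ A + ξ ^ k * aeval ξ (derivative A)| ≤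
        n * (|ξ| + 1) ^ n * |aeval ξ A| + (|ξ| + 1) ^ n * |aeval ξ (derivative A)| := by
      refine (abs_add_le _ _).trans (add_le_add ?_ ?_)
      · rw [abs_mul, abs_mul, abs_pow, Nat.abs_cast]
        gcongr
        exact hpow _ (by omega)
      · rw [abs_mul, abs_pow]
        gcongr
        exact hpow _ hk
    calc Real.exp v * |(k : ℝ) * ξ ^ (k - 1) * aeval ξ A + ξ ^ k * aeval ξ (derivative A)|
        ≤ Real.exp v * (n * (|ξ| + 1) ^ n * |aeval ξ A| +
          (|ξ| + 1) ^ n * |aeval ξ (derivative A)|) := by gcongr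
      _ = n * (|ξ| + 1) ^ n * (Real.exp v * |aeval ξ A|) +
          (|ξ| + 1) ^ n * (Real.exp v * |aeval ξ (derivative A)|) := by ring
      _ ≤ n * (|ξ| + 1) ^ n * Real.exp L + (|ξ| + 1) ^ n * Real.exp L := by gcongr
      _ = Real.exp L * ((n + 1) * (|ξ| + 1) ^ n) := by ring

lemma aeval_toQ (β : ℂ) (P : ℤ[X]) : aeval β (toQ P) = aeval β P := aeval_map_algebraMap ℚ β P

lemma exists_root_of_pos {P : ℤ[X]} (h : 1 ≤ P.natDegree) : ∃ β : ℂ, aeval β P = 0 := by
  have h1 : (P.map (Int.castRingHom ℂ)).degree ≠ 0 := by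
    intro h
    have := natDegree_eq_of_degree_eq_some (n := 0) h
    rw [natDegree_map_eq_of_injective (Int.castRingHom ℂ).injective_int] at this
    omega
  obtain ⟨β, hβ⟩ := IsAlgClosed.exists_root _ h1
  refine ⟨β, ?_⟩
  rw [aeval_def, ← eval_map]
  exact hβ

lemma Cop.notMem_span {P Q : ℤ[X]} (h : Cop P Q) (hP : 1 ≤ P.natDegree) :
    toQ Q ∉ Submodule.span ℚ {toQ P} := by
  intro hm
  obtain ⟨c, hc⟩ := Submodule.mem_span_singleton.mp hm
  obtain ⟨β, hβ⟩ := exists_root_of_pos hP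
  apply h β hβ
  rw [← aeval_toQ, ← hc, map_smul, aeval_toQ, hβ, smul_zero]

lemma cop_of_irred {G Q : ℤ[X]} (hG : Irreducible G) (hd : 1 ≤ G.natDegree) (h : ¬ G ∣ Q) :
    Cop G Q := by
  have hp := hG.isPrimitive (by omega)
  have h1 := (IsPrimitive.Int.irreducible_iff_irreducible_map_cast hp).mp hG
  rw [IsPrimitive.Int.dvd_iff_map_cast_dvd_map_cast G Q hp] at h
  intro β h2 h3
  rcases aeval_ne_zero_of_isCoprime (h1.coprime_iff_not_dvd.mpr h) β with h4 | h4
  · exact h4 ((aeval_toQ β G).trans h2)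
  · exact h4 ((aeval_toQ β Q).trans h3)

lemma pair_bound (n : ℕ) (hn : 1 ≤ n) (ξ : ℝ) : ∃ c : ℝ, ∀ (q L : ℝ) (P Q : ℤ[X]), 0 ≤ q →
    1 ≤ P.natDegree → P.natDegree ≤ n → Q.natDegree ≤ n → Cop P Q → Lev ξ q L P → Lev ξ q L Q →
    q ≤ 2 * n * L + c := by
  obtain ⟨c1, hc1, h1⟩ := nrm_shift_le n ξ
  obtain ⟨B, hB, h2⟩ := exists_deriv_const n ξ
  refine ⟨Real.log B + Real.log ((n + (n - 1) + 1).factorial : ℝ) + 2 * n * c1, ?_⟩
  intro q L P Q hq hP1 hP hQ hcop hLP hLQ
  have hP0 : P ≠ 0 := by rintro rfl; simp at hP1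
  have hlB := Real.log_nonneg hB
  have h3 := main_ineq ξ q (-Real.log B) n (n - 1) (by omega) (fun b => if b = 0 then P else Q)
    (fun _ => L + c1) (by simpa using hcop) rfl (add_nonneg (hLP.nonneg hP0) hc1)
    (fun _ _ => le_rfl) (by
      intro b hb
      have hb' : b ≤ 1 := by omega
      interval_cases b
      · refine ⟨by simpa using hP, ?_⟩
        rw [spanQ_zero, Submodule.mem_bot]
        exact fun h => hP0 (toQ_injective (by simpa using h))
      · refine ⟨by simpa using hQ, ?_⟩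
        rw [spanQ_succ, spanQ_zero, bot_sup_eq]
        simpa using hcop.notMem_span hP1) (by
      intro s _ k hk
      have key : ∀ A : ℤ[X], A.natDegree ≤ n → Lev ξ q L A →
          nrm ξ q (-Real.log B) (X ^ k * A) ≤ Real.exp (L + c1) := by
        intro A hA hLA
        refine h1 q _ L A k (by omega) (by linarith) hLA ?_
        rw [sub_neg_eq_add, Real.exp_add, Real.exp_log (by linarith), mul_comm]
        exact ((h2 A hA).2.1 ξ (by simp)).trans (by gcongr; exact hLA.1)
      split_ifs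
      · exact key P hP hLP
      · exact key Q hQ hLQ)
  rw [show n + 1 - (n - 1) = 2 by omega, Nat.cast_sub hn] at h3
  simp only [Finset.sum_const, Finset.card_range, nsmul_eq_mul] at h3
  push_cast at h3
  linarith

/-- infinitely many irreducible polynomials with a given exponent -/
def Many (n : ℕ) (ξ w : ℝ) : Prop := ∀ M : ℝ, ∃ G : ℤ[X], Irreducible G ∧ 1 ≤ G.natDegree ∧
  G.natDegree ≤ n ∧ M ≤ Real.log (mm G) ∧ |aeval ξ G| ≤ Real.exp (-(w * Real.log (mm G)))

lemma many_zero (n : ℕ) (hn : 1 ≤ n) (ξ : ℝ) : Many n ξ 0 := by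
  intro M
  obtain ⟨p, hpM, hp⟩ := Nat.exists_infinite_primes ⌈Real.exp M⌉₊
  have hp' := Nat.prime_iff_prime_int.mp hp
  have hex : ∃ b : ℤ, ¬ (p : ℤ) ∣ b ∧ |p * ξ + b| ≤ 1 := by
    have h1 := Int.floor_le (p * ξ)
    have h2 := Int.lt_floor_add_one (p * ξ)
    by_cases h : (p : ℤ) ∣ -⌊p * ξ⌋
    · refine ⟨-⌊p * ξ⌋ - 1, fun h' => hp'.not_dvd_one ?_, ?_⟩
      · simpa using dvd_sub h h'
      · push_cast
        rw [abs_le]
        constructor <;> linarith
    · refine ⟨-⌊p * ξ⌋, h, ?_⟩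
      push_cast
      rw [abs_le]
      constructor <;> linarith
  obtain ⟨b, hb, hb'⟩ := hex
  have hd : (C (p : ℤ) * X + C b).natDegree = 1 := natDegree_linear hp'.ne_zero
  refine ⟨C (p : ℤ) * X + C b, irreducible_C_mul_X_add_C hp'.ne_zero
    (hp'.irreducible.isRelPrime_iff_not_dvd.mpr hb), hd.ge, hd.le.trans hn, ?_, ?_⟩
  · have h1 := lc_le_mm (C (p : ℤ) * X + C b)
    rw [leadingCoeff_linear hp'.ne_zero] at h1
    simp only [Int.cast_natCast, Nat.abs_cast] at h1
    have h2 : Real.exp M ≤ p := (Nat.le_ceil _).trans (by exact_mod_cast hpM)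
    exact (Real.le_log_iff_exp_le (lt_of_lt_of_le (Real.exp_pos M) (h2.trans h1))).mpr
      (h2.trans h1)
  · simpa using hb'

lemma lower_of_not_many {n : ℕ} {ξ w : ℝ} (hw : 0 ≤ w)
    (hξ : ∀ A : ℤ[X], A ≠ 0 → aeval ξ A ≠ 0) (h : ¬ Many n ξ w) :
    ∃ c : ℝ, 0 ≤ c ∧ ∀ A : ℤ[X], A ≠ 0 → A.natDegree ≤ n →
      Real.exp (-(c + w * Real.log (mm A))) ≤ |aeval ξ A| := by
  unfold Many at h
  push Not at h
  obtain ⟨M, hM⟩ := h
  have hfin := finite_mahlerMeasure_le n ⟨Real.exp M, (Real.exp_pos M).le⟩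
  obtain ⟨c, hc⟩ := (hfin.image fun G => - Real.log |aeval ξ G|).bddAbove
  have hirr : ∀ G : ℤ[X], Irreducible G → 1 ≤ G.natDegree → G.natDegree ≤ n →
      Real.exp (-(max c 0 + w * Real.log (mm G))) ≤ |aeval ξ G| := by
    intro G h1 h2 h3
    have h4 : 0 ≤ w * Real.log (mm G) := mul_nonneg hw (Real.log_nonneg (one_le_mm h1.ne_zero))
    by_cases h5 : M ≤ Real.log (mm G)
    · refine le_trans (Real.exp_le_exp.mpr ?_) (hM G h1 h2 h3 h5).le
      linarith [le_max_right c 0]
    · have h6 : mm G ≤ Real.exp M := by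
        rw [← Real.log_le_iff_le_exp (lt_of_lt_of_le one_pos (one_le_mm h1.ne_zero))]
        linarith
      have h7 : - Real.log |aeval ξ G| ≤ c := hc ⟨G, ⟨h3, h6⟩, rfl⟩
      rw [← Real.le_log_iff_exp_le (abs_pos.mpr (hξ G h1.ne_zero))]
      linarith [le_max_left c 0]
  refine ⟨n * max c 0, by positivity, fun A hA hAn => ?_⟩
  suffices hs : Real.exp (-(A.natDegree * max c 0 + w * Real.log (mm A))) ≤ |aeval ξ A| by
    refine le_trans (Real.exp_le_exp.mpr ?_) hs
    have : (A.natDegree : ℝ) * max c 0 ≤ n * max c 0 := by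
      gcongr
    linarith
  have hconst : ∀ a : ℤ, a ≠ 0 → Real.exp (-((C a).natDegree * max c 0 +
      w * Real.log (mm (C a)))) ≤ |aeval ξ (C a)| := by
    intro a ha
    have h1 : (1 : ℝ) ≤ |(a : ℝ)| := by exact_mod_cast Int.one_le_abs ha
    rw [natDegree_C, mm_C, aeval_C]
    simp only [CharP.cast_eq_zero, zero_mul, zero_add, algebraMap_int_eq, eq_intCast]
    refine le_trans (Real.exp_le_one_iff.mpr ?_) h1
    have := mul_nonneg hw (Real.log_nonneg h1)
    linarith
  revert hA hAn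
  induction A using WfDvdMonoid.induction_on_irreducible with
  | zero => intro h; exact absurd rfl h
  | unit u hu =>
    intro _ _
    obtain ⟨a, ha, rfl⟩ := isUnit_iff.mp hu
    exact hconst a ha.ne_zero
  | mul a G ha hG ih =>
    intro _ hn
    rw [natDegree_mul hG.ne_zero ha] at hn
    have h1 := ih ha (by omega)
    have h2 : Real.exp (-(G.natDegree * max c 0 + w * Real.log (mm G))) ≤ |aeval ξ G| := by
      rcases Nat.eq_zero_or_pos G.natDegree with h0 | h0
      · rw [eq_C_of_natDegree_eq_zero h0]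
        apply hconst
        intro h3
        apply hG.ne_zero
        rw [eq_C_of_natDegree_eq_zero h0, h3, C_0]
      · refine le_trans (Real.exp_le_exp.mpr ?_) (hirr G hG h0 (by omega))
        have : (1 : ℝ) ≤ G.natDegree := by exact_mod_cast h0
        nlinarith [le_max_right c 0]
    rw [natDegree_mul hG.ne_zero ha, mm_mul, Real.log_mul
      (by linarith [one_le_mm hG.ne_zero]) (by linarith [one_le_mm ha]), map_mul, abs_mul]
    refine le_trans (le_of_eq ?_) (mul_le_mul h2 h1 (Real.exp_pos _).le (abs_nonneg _))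
    rw [← Real.exp_add]
    congr 1
    push_cast
    ring

lemma log_supNorm_le {P : ℤ[X]} {n : ℕ} (hP : P ≠ 0) (h : P.natDegree ≤ n) :
    Real.log P.supNorm ≤ Real.log (mm P) + n := by
  have h1 := supNorm_le_mm h
  have h2 := one_le_supNorm hP
  have h3 := one_le_mm hP
  have h4 : (2 : ℝ) ^ n ≤ Real.exp n := by
    rw [← Real.exp_one_pow]
    exact pow_le_pow_left₀ (by norm_num) (by linarith [Real.add_one_le_exp 1]) n
  rw [Real.log_le_iff_le_exp (by linarith), Real.exp_add, Real.exp_log (by linarith)]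
  nlinarith

lemma log_mm_le {P : ℤ[X]} {n : ℕ} {L : ℝ} (hP : P ≠ 0) (h : P.natDegree ≤ n)
    (hL : P.supNorm ≤ Real.exp L) : Real.log (mm P) ≤ L + n := by
  have h1 := mm_le_supNorm h
  have h3 := one_le_mm hP
  have h4 := Real.add_one_le_exp (n : ℝ)
  rw [Real.log_le_iff_le_exp (by linarith), Real.exp_add, mul_comm]
  refine h1.trans (mul_le_mul h4 hL P.supNorm_nonneg (Real.exp_pos _).le)

/-- the discrete crossing argument attached to one irreducible polynomial -/
lemma crossing (n : ℕ) (ξ : ℝ) (G : ℤ[X]) (hG : Irreducible G) (hG1 : 1 ≤ G.natDegree)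
    (hGn : G.natDegree ≤ n) (v : ℝ) (hv : 0 ≤ v) (hGv : |aeval ξ G| ≤ Real.exp (-v)) :
    ∃ (q : ℝ) (Q : ℤ[X]), 0 ≤ q ∧ Real.log G.supNorm ≤ q + 1 ∧ Q.natDegree ≤ n ∧ Cop G Q ∧
      Lev ξ q (Real.log G.supNorm) G ∧ Lev ξ q (Real.log G.supNorm) Q ∧
      (Real.log G.supNorm + v ≤ q + 1 ∨ ∀ (A : ℤ[X]) (L : ℝ), A ≠ 0 → A.natDegree ≤ n →
        Lev ξ q L A → Real.log G.supNorm - (2 * n + 1) ≤ L) := by
  classical
  set h := Real.log G.supNorm with hh
  have hG0 := hG.ne_zero
  have hs1 := one_le_supNorm hG0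
  have hh0 : 0 ≤ h := Real.log_nonneg hs1
  have heh : Real.exp h = G.supNorm := Real.exp_log (by linarith)
  set p : ℕ → Prop := fun k => (k : ℝ) ≤ h + v ∧ ∃ A : ℤ[X], A.natDegree ≤ n ∧ ¬ G ∣ A ∧
    Lev ξ k h A with hp
  have hone : ∀ k : ℕ, (k : ℝ) ≤ h → p k := by
    intro k hk
    refine ⟨by linarith, 1, by simp, fun h1 => hG.not_isUnit (isUnit_of_dvd_one h1), ?_, ?_⟩
    · rw [← C_1, supNorm_C, norm_one]; exact Real.one_le_exp hh0
    · rw [map_one, abs_one]; exact Real.one_le_exp (by linarith)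
  set N := ⌈h + v⌉₊ with hN
  have hle : ∀ k, p k → k ≤ N := fun k hk => by
    have := hk.1.trans (Nat.le_ceil _)
    exact_mod_cast this
  set k0 := Nat.findGreatest p N with hk0
  have hpk : p k0 := Nat.findGreatest_spec (Nat.zero_le N) (hone 0 (by simpa using hh0))
  have hmax : ¬ p (k0 + 1) := fun h1 => by
    have := Nat.le_findGreatest (hle _ h1) h1
    omega
  obtain ⟨hk1, Q, hQ1, hQ2, hQ3⟩ := hpk
  refine ⟨k0, Q, Nat.cast_nonneg _, ?_, hQ1, cop_of_irred hG hG1 hQ2, ⟨heh.ge, ?_⟩, hQ3, ?_⟩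
  · by_contra h1
    exact hmax (hone _ (by push_cast; linarith))
  · exact hGv.trans (Real.exp_le_exp.mpr (by linarith))
  · by_cases h1 : h + v ≤ k0 + 1
    · exact Or.inl h1
    right
    intro A L hA hAn hL
    by_cases h2 : G ∣ A
    · have h3 := Real.log_le_log (by linarith [one_le_mm hG0]) (mm_le_of_dvd hA h2)
      have h4 := log_mm_le hA hAn hL.1
      have h5 := log_supNorm_le hG0 hGn
      linarith
    · by_contra h3
      apply hmax
      refine ⟨by push_cast; linarith, A, hAn, h2, ?_, ?_⟩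
      · refine hL.1.trans (Real.exp_le_exp.mpr ?_)
        have : (0 : ℝ) ≤ n := Nat.cast_nonneg n
        linarith
      · refine hL.2.trans (Real.exp_le_exp.mpr ?_)
        have : (0 : ℝ) ≤ n := Nat.cast_nonneg n
        push_cast
        linarith

theorem exists_good (n : ℕ) (hn : 1 ≤ n) (ξ : ℝ) (hξ : ∀ A : ℤ[X], A ≠ 0 → aeval ξ A ≠ 0)
    {ε : ℝ} (hε : 0 < ε) (q0 : ℝ) : ∃ (q μ l : ℝ) (P Q : ℤ[X]), q0 ≤ q ∧ 0 ≤ q ∧
      1 ≤ P.natDegree ∧ P.natDegree ≤ n ∧ Q.natDegree ≤ n ∧ Cop P Q ∧ μ ≤ l ∧ l - μ ≤ ε * q ∧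
      (∀ (A : ℤ[X]) (L : ℝ), A ≠ 0 → A.natDegree ≤ n → Lev ξ q L A → μ ≤ L) ∧
      Lev ξ q l P ∧ Lev ξ q l Q := by
  classical
  have hn0 : (0 : ℝ) ≤ n := Nat.cast_nonneg n
  obtain ⟨K, hK⟩ := exists_nat_ge ((2 * n + 1) / (ε / 2))
  rw [div_le_iff₀ (by positivity)] at hK
  have hlm : ∀ G : ℤ[X], G ≠ 0 → G.natDegree ≤ n → Real.log (mm G) ≤ Real.log G.supNorm + n :=
    fun G h1 h2 => log_mm_le h1 h2 (Real.exp_log (by linarith [one_le_supNorm h1])).ge
  by_cases hA : Many n ξ (K * (ε / 2))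
  · obtain ⟨c, hc⟩ := pair_bound n hn ξ
    obtain ⟨G, h1, h2, h3, h4, h5⟩ := hA
      (max (q0 + n + 1 + (2 * n + 1) / ε + |q0|) (2 * n * n + c + 2))
    have h6 := Real.log_nonneg (one_le_mm h1.ne_zero)
    obtain ⟨q, Q, h7, h8, h9, h10, h11, h12, h13⟩ := crossing n ξ G h1 h2 h3 _ (by positivity) h5
    have h14 := hlm G h1.ne_zero h3
    have h15 := log_supNorm_le h1.ne_zero h3
    have h16 := (le_max_left _ _).trans h4
    have h17 := (le_max_right _ _).trans h4
    have h18 : 0 ≤ (2 * n + 1) / ε := by positivity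
    have h19 := abs_nonneg q0
    have h19' := neg_abs_le q0
    rcases h13 with h13 | h13
    · exfalso
      have h20 := hc q _ G Q h7 h2 h3 h9 h10 h11 h12
      have h21 := Real.log_nonneg (one_le_supNorm h1.ne_zero)
      nlinarith
    · refine ⟨q, _, _, G, Q, by linarith, h7, h2, h3, h9, h10, by linarith, ?_, h13, h11, h12⟩
      have : (2 * n + 1) / ε ≤ q := by linarith
      rw [div_le_iff₀ hε] at this
      linarith
  · have hex : ∃ k : ℕ, Many n ξ (k * (ε / 2)) ∧ ¬ Many n ξ ((k + 1 : ℕ) * (ε / 2)) := by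
      by_contra hcon
      push Not at hcon
      have : ∀ k : ℕ, Many n ξ (k * (ε / 2)) := by
        intro k
        induction k with
        | zero => simpa using many_zero n hn ξ
        | succ k ih => exact hcon k ih
      exact hA (this K)
    obtain ⟨k, hk1, hk2⟩ := hex
    obtain ⟨c, hc0, hc⟩ := lower_of_not_many (by positivity) hξ hk2
    set w : ℝ := k * (ε / 2) with hw
    have hw0 : 0 ≤ w := by positivity
    have hw' : ((k + 1 : ℕ) : ℝ) * (ε / 2) = w + ε / 2 := by push_cast; ring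
    rw [hw'] at hc
    set C2 : ℝ := c + (w + ε / 2) * n + w * n + 2 * n + 1 with hC2
    have hC20 : 0 ≤ C2 := by positivity
    obtain ⟨G, h1, h2, h3, h4, h5⟩ := hk1 (q0 + n + 1 + (C2 + ε / 2) / (ε / 2) + |q0|)
    have h6 := Real.log_nonneg (one_le_mm h1.ne_zero)
    obtain ⟨q, Q, h7, h8, h9, h10, h11, h12, h13⟩ := crossing n ξ G h1 h2 h3 _ (by positivity) h5
    have h14 := hlm G h1.ne_zero h3
    have h15 := log_supNorm_le h1.ne_zero h3
    have h18 : 0 ≤ (C2 + ε / 2) / (ε / 2) := by positivity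
    have h19 := abs_nonneg q0
    have h19' := neg_abs_le q0
    have h21 := Real.log_nonneg (one_le_supNorm h1.ne_zero)
    set h := Real.log G.supNorm with hh
    refine ⟨q, h - ε / 2 * h - C2, h, G, Q, by linarith, h7, h2, h3, h9, h10, by nlinarith, ?_, ?_,
      h11, h12⟩
    · have : (C2 + ε / 2) / (ε / 2) ≤ q := by linarith
      rw [div_le_iff₀ (by positivity)] at this
      nlinarith
    · intro A L hA0 hAn hL
      rcases h13 with h13 | h13
      · have h22 := Real.exp_le_exp.mp ((hc A hA0 hAn).trans hL.2)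
        have h23 := log_mm_le hA0 hAn hL.1
        have h24 : (w + ε / 2) * Real.log (mm A) ≤ (w + ε / 2) * (L + n) := by gcongr
        have h25 : w * (h - n) ≤ w * Real.log (mm G) := by gcongr; linarith
        have h26 : (1 + w) * h - C2 ≤ (1 + w + ε / 2) * L := by nlinarith
        by_contra h27
        push Not at h27
        have h28 : (1 + w + ε / 2) * L ≤ (1 + w + ε / 2) * (h - ε / 2 * h - C2) := by gcongr
        have h29 : 0 ≤ (w + ε / 2) * (ε / 2 * h + C2) := by positivity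
        have h30 : (1 + w + ε / 2) * L < (1 + w + ε / 2) * (h - ε / 2 * h - C2) := by gcongr
        nlinarith
      · have := h13 A L hA0 hAn hL
        have h29 : 0 ≤ (w + ε / 2) * n + w * n := by positivity
        nlinarith

end Pool.Agent.MP_06f5ad_nt

end
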