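import Pool.Agent.Mg.F06f5adq.G7c20c1
import Pool.Agent.Mg.F06f5adq.Ge00c44

set_option linter.all false

section

open Polynomial

namespace Pool.Agent.MP_06f5ad_nt

/-- all coefficients are bounded by `M` -/
def Bd (F : ℝ[X]) (M : ℝ) : Prop := ∀ i, |F.coeff i| ≤ M

lemma Bd.nonneg {F : ℝ[X]} {M : ℝ} (h : Bd F M) : 0 ≤ M := (abs_nonneg _).trans (h 0)

lemma Bd.mono {F : ℝ[X]} {M M' : ℝ} (h : Bd F M) (hM : M ≤ M') : Bd F M' :=
  fun i => (h i).trans hM

lemma Bd.add {F G : ℝ[X]} {M M' : ℝ} (h : Bd F M) (h' : Bd G M') : Bd (F + G) (M + M') :=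
  fun i => by rw [coeff_add]; exact (abs_add_le _ _).trans (add_le_add (h i) (h' i))

lemma Bd.smul {F : ℝ[X]} {M : ℝ} (h : Bd F M) (a : ℝ) : Bd (a • F) (|a| * M) :=
  fun i => by rw [coeff_smul, smul_eq_mul, abs_mul]; gcongr; exact h i

lemma Bd.sub {F G : ℝ[X]} {M M' : ℝ} (h : Bd F M) (h' : Bd G M') : Bd (F - G) (M + M') :=
  fun i => by rw [coeff_sub]; exact (abs_sub _ _).trans (add_le_add (h i) (h' i))

lemma Bd.divX {F : ℝ[X]} {M : ℝ} (h : Bd F M) : Bd F.divX M :=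
  fun i => by rw [coeff_divX]; exact h _

lemma Bd.X_mul {F : ℝ[X]} {M : ℝ} (h : Bd F M) : Bd (X * F) M := by
  intro i
  rcases i with _ | i
  · simpa using h.nonneg
  · rw [coeff_X_mul]; exact h i

lemma Bd.lin_mul {F : ℝ[X]} {M : ℝ} (h : Bd F M) (a : ℝ) : Bd ((X + C a) * F) ((1 + |a|) * M) := by
  have := h.X_mul.add (h.smul a)
  rw [smul_eq_C_mul, ← add_mul] at this
  exact this.mono (le_of_eq (by ring))

lemma Bd.one : Bd 1 1 := by
  intro i
  rw [coeff_one]
  split_ifs <;> simp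

lemma Bd.lin_pow (a : ℝ) (k : ℕ) : Bd ((X + C a) ^ k) ((1 + |a|) ^ k) := by
  induction k with
  | zero => simpa using Bd.one
  | succ k ih => rw [pow_succ', pow_succ']; exact ih.lin_mul a

lemma Bd.sum {ι : Type*} (s : Finset ι) {F : ι → ℝ[X]} {M : ℝ} (h : ∀ i ∈ s, Bd (F i) M) :
    Bd (∑ i ∈ s, F i) (s.card * M) := by
  intro j
  rw [finsetSum_coeff]
  refine (Finset.abs_sum_le_sum_abs _ _).trans ?_
  rw [← nsmul_eq_mul]
  exact Finset.sum_le_card_nsmul _ _ _ fun i hi => h i hi j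

lemma coeff_mul_le {G H : ℝ[X]} {g M : ℝ} (hG : Bd G g) (j : ℕ) (hH : ∀ i ≤ j, |H.coeff i| ≤ M) :
    |(G * H).coeff j| ≤ (j + 1) * (g * M) := by
  rw [coeff_mul]
  refine (Finset.abs_sum_le_sum_abs _ _).trans ?_
  refine (Finset.sum_le_card_nsmul _ _ (g * M) ?_).trans ?_
  · intro p hp
    have := Finset.HasAntidiagonal.mem_antidiagonal.mp hp
    rw [abs_mul]
    exact mul_le_mul (hG _) (hH _ (by omega)) (abs_nonneg _) hG.nonneg
  · rw [Finset.Nat.card_antidiagonal, nsmul_eq_mul]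
    push_cast
    rfl

lemma exists_bd (F : ℝ[X]) : ∃ M, 0 < M ∧ Bd F M := by
  refine ⟨1 + ∑ i ∈ F.support, |F.coeff i|, by positivity, fun i => ?_⟩
  by_cases h : i ∈ F.support
  · have := Finset.single_le_sum (f := fun i => |F.coeff i|) (fun _ _ => abs_nonneg _) h
    linarith
  · rw [notMem_support_iff.mp h, abs_zero]
    positivity

/-- a near maximiser of a coefficient functional -/
lemma exists_near_max (U : Submodule ℝ ℝ[X]) (p : ℕ) (h : ∃ y ∈ U, y.coeff p ≠ 0) :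
    ∃ E ∈ U, Bd E 1 ∧ E.coeff p ≠ 0 ∧ ∀ y ∈ U, ∀ M, Bd y M → |y.coeff p| ≤ 2 * M * |E.coeff p| := by
  set S : Set ℝ := {r | ∃ y ∈ U, Bd y 1 ∧ r = |y.coeff p|} with hS
  have hb : BddAbove S := ⟨1, by rintro _ ⟨y, -, hy, rfl⟩; exact hy p⟩
  have hsc : ∀ y ∈ U, ∀ M, 0 < M → Bd y M → |y.coeff p| / M ∈ S := by
    intro y hy M hM hB
    refine ⟨M⁻¹ • y, U.smul_mem _ hy, (hB.smul _).mono ?_, ?_⟩
    · rw [abs_of_pos (inv_pos.mpr hM), inv_mul_cancel₀ hM.ne']
    · rw [coeff_smul, smul_eq_mul, abs_mul, abs_of_pos (inv_pos.mpr hM), div_eq_inv_mul]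
  obtain ⟨y0, hy0, h0⟩ := h
  obtain ⟨M0, hM0, hB0⟩ := exists_bd y0
  have h1 := hsc y0 hy0 M0 hM0 hB0
  have h2 : 0 < sSup S := lt_of_lt_of_le (div_pos (abs_pos.mpr h0) hM0) (le_csSup hb h1)
  obtain ⟨_, ⟨E, hE, hE1, rfl⟩, h3⟩ := exists_lt_of_lt_csSup ⟨_, h1⟩ (half_lt_self h2)
  refine ⟨E, hE, hE1, abs_pos.mp (by linarith), fun y hy M hM => ?_⟩
  rcases hM.nonneg.eq_or_lt with h4 | h4
  · subst h4
    simpa using hM p
  · have h5 := le_csSup hb (hsc y hy M h4 hM)
    rw [div_le_iff₀ h4] at h5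
    nlinarith

/-- a well conditioned spanning family adapted to the order of vanishing at `0` -/
lemma exists_flag (u : ℕ) : ∀ (m : ℕ) (U : Submodule ℝ ℝ[X]) [FiniteDimensional ℝ U],
    Module.finrank ℝ U ≤ u → ∃ E : ℕ → ℝ[X], (∀ i, E i ∈ U) ∧ (∀ i, Bd (E i) 1) ∧
      (∀ i j, j < i → (E i).coeff (m + j) = 0) ∧ ∀ y ∈ U, ∀ M, Bd y M → ∃ c : ℕ → ℝ,
        (∀ i, |c i| ≤ 3 ^ u * M) ∧ y = ∑ i ∈ Finset.range u, c i • E i := by
  have hbot : ∀ (u m : ℕ) (U : Submodule ℝ ℝ[X]), U = ⊥ → ∃ E : ℕ → ℝ[X], (∀ i, E i ∈ U) ∧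
      (∀ i, Bd (E i) 1) ∧ (∀ i j, j < i → (E i).coeff (m + j) = 0) ∧ ∀ y ∈ U, ∀ M, Bd y M →
      ∃ c : ℕ → ℝ, (∀ i, |c i| ≤ 3 ^ u * M) ∧ y = ∑ i ∈ Finset.range u, c i • E i := by
    rintro u m U rfl
    refine ⟨fun _ => 0, fun _ => Submodule.zero_mem _, fun _ i => by simp, by simp, ?_⟩
    intro y hy M hM
    refine ⟨fun _ => 0, fun _ => ?_, by simpa using hy⟩
    have := hM.nonneg
    rw [abs_zero]
    positivity
  induction u with
  | zero =>
    intro m U _ h
    exact hbot 0 m U (Submodule.finrank_eq_zero.mp (by omega))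
  | succ u ih =>
    intro m U _ h
    by_cases hU : U = ⊥
    · exact hbot _ m U hU
    have hp : ∃ p, (∃ y ∈ U, y.coeff p ≠ 0) ∧ ∀ y ∈ U, y.coeff p = 0 → y.coeff m = 0 := by
      by_cases h1 : ∃ y ∈ U, y.coeff m ≠ 0
      · exact ⟨m, h1, fun _ _ h => h⟩
      · obtain ⟨y, hy, h0⟩ := (Submodule.ne_bot_iff U).mp hU
        push Not at h1
        exact ⟨y.natDegree, ⟨y, hy, by simpa using h0⟩, fun z hz _ => h1 z hz⟩
    obtain ⟨p, hp1, hp2⟩ := hp
    obtain ⟨E0, hE0, hE1, hE2, hE3⟩ := exists_near_max U p hp1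
    set U' := U ⊓ LinearMap.ker (lcoeff ℝ p) with hU'
    have hlt : U' < U := lt_of_le_of_ne inf_le_left fun h => by
      have : E0 ∈ U' := h ▸ hE0
      exact hE2 this.2
    have hfr := Submodule.finrank_lt_finrank_of_lt hlt
    obtain ⟨E, h1, h2, h3, h4⟩ := ih (m + 1) U' (by omega)
    refine ⟨fun i => Nat.casesOn i E0 E, ?_, ?_, ?_, ?_⟩
    · rintro (_ | i)
      · exact hE0
      · exact (h1 i).1
    · rintro (_ | i)
      · exact hE1
      · exact h2 i
    · rintro (_ | i) j hj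
      · omega
      · rcases j with _ | j
        · exact hp2 _ (h1 i).1 (h1 i).2
        · have := h3 i j (by omega)
          rwa [show m + 1 + j = m + (j + 1) by omega] at this
    · intro y hy M hM
      set a := y.coeff p / E0.coeff p with ha
      have ha2 : |a| ≤ 2 * M := by
        rw [ha, abs_div, div_le_iff₀ (abs_pos.mpr hE2)]
        exact hE3 y hy M hM
      have hy' : y - a • E0 ∈ U' := by
        refine ⟨U.sub_mem hy (U.smul_mem _ hE0), ?_⟩
        simp only [SetLike.mem_coe, LinearMap.mem_ker, lcoeff_apply, coeff_sub, coeff_smul,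
          smul_eq_mul]
        rw [ha, div_mul_cancel₀ _ hE2, sub_self]
      obtain ⟨c, hc1, hc2⟩ := h4 _ hy' (3 * M) ((hM.sub (hE1.smul a)).mono (by linarith))
      have hM0 := hM.nonneg
      refine ⟨fun i => Nat.casesOn i a c, ?_, ?_⟩
      · rintro (_ | i)
        · refine ha2.trans ?_
          have : (1 : ℝ) ≤ 3 ^ u := one_le_pow₀ (by norm_num)
          rw [pow_succ]
          nlinarith
        · refine (hc1 i).trans (le_of_eq ?_)
          ring
      · rw [Finset.sum_range_succ']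
        simp only
        rw [← hc2]
        exact (sub_add_cancel y (a • E0)).symm

lemma coeff_flag_zero {E : ℕ → ℝ[X]} (h3 : ∀ i j, j < i → (E i).coeff j = 0) (c : ℕ → ℝ) (u : ℕ) :
    (∑ i ∈ Finset.range (u + 2), c i • E i).coeff 0 = c 0 * (E 0).coeff 0 := by
  rw [finsetSum_coeff, Finset.sum_range_succ', Finset.sum_eq_zero]
  · simp
  · intro i _
    simp [h3 (i + 1) 0 (by omega)]

lemma coeff_flag_one {E : ℕ → ℝ[X]} (h3 : ∀ i j, j < i → (E i).coeff j = 0) (c : ℕ → ℝ) (u : ℕ) :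
    (∑ i ∈ Finset.range (u + 2), c i • E i).coeff 1 =
      c 0 * (E 0).coeff 1 + c 1 * (E 1).coeff 1 := by
  rw [finsetSum_coeff, Finset.sum_range_succ', Finset.sum_range_succ', Finset.sum_eq_zero]
  · simp [add_comm]
  · intro i _
    simp [h3 (i + 1 + 1) 1 (by omega)]

lemma exists_comb (U G : Submodule ℝ ℝ[X]) [FiniteDimensional ℝ U] [FiniteDimensional ℝ G]
    (hG : Module.finrank ℝ G ≤ 2) (hX : ∀ y ∈ U, X * y ∈ U ⊔ G) (E0 E1 E2 : ℝ[X]) (h0 : E0 ∈ U)
    (h1 : E1 ∈ U) (h2 : E2 ∈ U) (h00 : E0.coeff 0 ≠ 0) (h10 : E1.coeff 0 = 0)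
    (h20 : E2.coeff 0 = 0) : ∃ (a b : ℝ) (H : ℝ[X]), (a ≠ 0 ∨ b ≠ 0) ∧ H ∈ U ∧
      X * H = a • E1 + b • E2 := by
  by_cases hli : LinearIndependent ℝ ![E1, E2]
  swap
  · rw [LinearIndependent.pair_iff] at hli
    push Not at hli
    obtain ⟨a, b, h, h'⟩ := hli
    refine ⟨a, b, 0, ?_, U.zero_mem, by rw [h, mul_zero]⟩
    by_cases ha : a = 0
    · exact Or.inr (h' ha)
    · exact Or.inl ha
  set XU := U.map (LinearMap.mulLeft ℝ (X : ℝ[X])) with hXU
  have hf1 : Module.finrank ℝ XU = Module.finrank ℝ U := by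
    refine (Submodule.equivMapOfInjective _ ?_ U).finrank_eq.symm
    intro a b h
    exact mul_left_cancel₀ X_ne_zero h
  have hf2 := Submodule.finrank_sup_add_finrank_inf_eq U XU
  have hf3 : Module.finrank ℝ (U ⊔ XU : Submodule ℝ ℝ[X]) ≤
      Module.finrank ℝ (U ⊔ G : Submodule ℝ ℝ[X]) := by
    apply Submodule.finrank_mono
    refine sup_le le_sup_left ?_
    rintro _ ⟨y, hy, rfl⟩
    exact hX y hy
  have hf4 := Submodule.finrank_add_le_finrank_add_finrank U G
  set U0 := U ⊓ LinearMap.ker (lcoeff ℝ 0) with hU0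
  have hlt : U0 < U := lt_of_le_of_ne inf_le_left fun h => by
    have : E0 ∈ U0 := h ▸ h0
    exact h00 this.2
  have hf5 := Submodule.finrank_lt_finrank_of_lt hlt
  set T := Submodule.span ℝ (Set.range ![E1, E2]) with hT
  have hf6 : Module.finrank ℝ T = 2 := by
    rw [hT, finrank_span_eq_card hli]; simp
  have : FiniteDimensional ℝ T := FiniteDimensional.span_of_finite ℝ (Set.finite_range _)
  have hf7 := Submodule.finrank_sup_add_finrank_inf_eq (U ⊓ XU) T
  have hf8 : Module.finrank ℝ ((U ⊓ XU) ⊔ T : Submodule ℝ ℝ[X]) ≤ Module.finrank ℝ U0 := by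
    apply Submodule.finrank_mono
    refine sup_le ?_ ?_
    · rintro _ ⟨hy, y, -, rfl⟩
      exact ⟨hy, by simp⟩
    · rw [hT, Submodule.span_le]
      rintro _ ⟨i, rfl⟩
      fin_cases i
      · exact ⟨h1, h10⟩
      · exact ⟨h2, h20⟩
  have hne : ((U ⊓ XU) ⊓ T : Submodule ℝ ℝ[X]) ≠ ⊥ := by
    intro h
    rw [h, finrank_bot] at hf7
    omega
  obtain ⟨z, ⟨⟨-, H, hH, rfl⟩, hz⟩, hz0⟩ := (Submodule.ne_bot_iff _).mp hne
  rw [hT, Matrix.range_cons_cons_empty, SetLike.mem_coe, Submodule.mem_span_pair] at hz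
  obtain ⟨a, b, hab⟩ := hz
  refine ⟨a, b, H, ?_, hH, hab.symm⟩
  by_contra h
  push Not at h
  rw [h.1, h.2] at hab
  exact hz0 (by rw [← hab]; simp)

/-- the third column gain -/
lemma flag_gain (U G : Submodule ℝ ℝ[X]) [FiniteDimensional ℝ U] [FiniteDimensional ℝ G]
    (hG : Module.finrank ℝ G ≤ 2) (hX : ∀ y ∈ U, X * y ∈ U ⊔ G) (u : ℕ) (K : ℝ) (hK : 0 ≤ K)
    (E : ℕ → ℝ[X]) (h1 : ∀ i, E i ∈ U) (h2 : ∀ i, Bd (E i) 1)
    (h3 : ∀ i j, j < i → (E i).coeff j = 0)
    (h4 : ∀ y ∈ U, ∀ M, Bd y M → ∃ c : ℕ → ℝ, (∀ i, |c i| ≤ K * M) ∧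
      y = ∑ i ∈ Finset.range (u + 2), c i • E i) (h0 : (E 0).coeff 0 ≠ 0) :
    |(E 1).coeff 1| * |(E 2).coeff 2| ≤
      2 * K * (|(E 1).coeff 1| * (|(E 0).coeff 1| + |(E 1).coeff 1|) + |(E 0).coeff 0|) := by
  obtain ⟨a, b, H, hab, hH, hXH⟩ := exists_comb U G hG hX (E 0) (E 1) (E 2) (h1 0) (h1 1) (h1 2) h0
    (h3 1 0 (by omega)) (h3 2 0 (by omega))
  set m := max |a| |b| with hm
  have hma : |a| ≤ m := le_max_left _ _
  have hmb : |b| ≤ m := le_max_right _ _
  have hm0 : 0 < m := by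
    rcases hab with h | h
    · exact (abs_pos.mpr h).trans_le hma
    · exact (abs_pos.mpr h).trans_le hmb
  have hB : Bd H (2 * m) := by
    intro i
    rw [← coeff_X_mul, hXH]
    exact (((h2 1).smul a).add ((h2 2).smul b) (i + 1)).trans (by linarith)
  obtain ⟨c, hc1, hc2⟩ := h4 H hH _ hB
  have e0 : a * (E 1).coeff 1 = c 0 * (E 0).coeff 0 := by
    rw [← coeff_flag_zero h3 c u, ← hc2, ← coeff_X_mul H, hXH]
    simp [h3 2 1 (by omega)]
  have e1 : b * (E 2).coeff 2 = c 0 * (E 0).coeff 1 + c 1 * (E 1).coeff 1 - a * (E 1).coeff 2 := by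
    rw [← coeff_flag_one h3 c u, ← hc2, ← coeff_X_mul H, hXH]
    simp
  set x0 := |(E 0).coeff 0|
  set x1 := |(E 1).coeff 1|
  set x2 := |(E 2).coeff 2|
  set x3 := |(E 0).coeff 1|
  have hx0 : 0 ≤ x0 := abs_nonneg _
  have hx1 : 0 ≤ x1 := abs_nonneg _
  have hx2 : 0 ≤ x2 := abs_nonneg _
  have hx3 : 0 ≤ x3 := abs_nonneg _
  have hx2' : x2 ≤ 1 := h2 2 2
  have f0 : |a| * x1 ≤ K * (2 * m) * x0 := by
    rw [← abs_mul, e0, abs_mul]
    gcongr
    exact hc1 0
  have f1 : |b| * x2 ≤ K * (2 * m) * (x3 + x1) + |a| := by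
    rw [← abs_mul, e1]
    refine (abs_sub _ _).trans (add_le_add ((abs_add_le _ _).trans ?_) ?_)
    · rw [abs_mul, abs_mul, mul_add]
      gcongr
      · exact hc1 0
      · exact hc1 1
    · rw [abs_mul]
      exact mul_le_of_le_one_right (abs_nonneg _) (h2 1 2)
  refine le_of_mul_le_mul_left ?_ hm0
  have hp : 0 ≤ m * (K * (x1 * (x3 + x1))) := by positivity
  rcases max_choice |a| |b| with h | h
  · rw [← hm] at h
    rw [← h] at f0
    have : m * x1 * x2 ≤ m * x1 := mul_le_of_le_one_right (by positivity) hx2'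
    nlinarith
  · rw [← hm] at h
    rw [← h] at f1
    have := mul_le_mul_of_nonneg_left f1 hx1
    nlinarith

end Pool.Agent.MP_06f5ad_nt

end

section

open Polynomial

namespace Pool.Agent.MP_06f5ad_nt

lemma finrank_map_mul (V : Submodule ℚ ℚ[X]) {G : ℚ[X]} (hG : G ≠ 0) :
    Module.finrank ℚ (V.map (LinearMap.mulLeft ℚ G)) = Module.finrank ℚ V := by
  refine (Submodule.equivMapOfInjective _ ?_ V).finrank_eq.symm
  intro a b h
  exact mul_left_cancel₀ hG h

lemma sig_concave (V : Submodule ℚ ℚ[X]) [FiniteDimensional ℚ V] :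
    Module.finrank ℚ (sig (sig V)) + Module.finrank ℚ V ≤ 2 * Module.finrank ℚ (sig V) := by
  have h1 := Submodule.finrank_sup_add_finrank_inf_eq (sig V)
    ((sig V).map (LinearMap.mulLeft ℚ (X : ℚ[X])))
  rw [finrank_map_X] at h1
  have h2 : V.map (LinearMap.mulLeft ℚ (X : ℚ[X])) ≤
      sig V ⊓ (sig V).map (LinearMap.mulLeft ℚ (X : ℚ[X])) :=
    le_inf le_sup_right (Submodule.map_mono le_sup_left)
  have h3 := Submodule.finrank_mono h2
  rw [finrank_map_X] at h3
  have h4 : Module.finrank ℚ (sig (sig V)) = Module.finrank ℚ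
    (sig V ⊔ (sig V).map (LinearMap.mulLeft ℚ (X : ℚ[X])) : Submodule ℚ ℚ[X]) := rfl
  omega

lemma bez_indep {A B : ℚ[X]} (hcop : IsCoprime A B) {N : ℕ} (hB : B.natDegree = N) (hN : 1 ≤ N)
    (F : Fin N → ℚ[X]) (a b : Fin N → ℚ) (hab : ∀ c, a c ≠ 0 ∨ b c ≠ 0)
    (hF : ∀ c : Fin N, (X - C ((c : ℕ) : ℚ)) * F c = C (a c) * A + C (b c) * B) :
    LinearIndependent ℚ F := by
  classical
  rw [Fintype.linearIndependent_iff]
  intro g hg
  set v : Fin N → ℚ := fun c => ((c : ℕ) : ℚ) with hv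
  have hvi : Function.Injective v := fun i j h => Fin.ext (by simpa [hv] using h)
  set p : Fin N → ℚ[X] := fun c => Lagrange.nodal (Finset.univ.erase c) v with hp
  have hp1 : ∀ c, Lagrange.nodal Finset.univ v = (X - C (v c)) * p c := fun c =>
    Lagrange.nodal_eq_mul_nodal_erase (Finset.mem_univ c)
  have hp2 : ∀ c, (p c).natDegree = N - 1 := fun c => by
    simp [hp, Lagrange.natDegree_nodal]
  have hev : ∀ (w : Fin N → ℚ) (c : Fin N), ∑ i, C (w i) * p i = 0 → w c = 0 := by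
    intro w c h
    have h1 := congrArg (eval (v c)) h
    rw [eval_finsetSum, Finset.sum_eq_single c, eval_mul, eval_C, eval_zero] at h1
    · refine (mul_eq_zero.mp h1).resolve_right ?_
      apply Lagrange.eval_nodal_not_at_node
      intro i hi h2
      exact (Finset.mem_erase.mp hi).1 (hvi h2).symm
    · intro i _ hi
      rw [eval_mul, hp]
      simp only
      rw [Lagrange.eval_nodal_at_node (Finset.mem_erase.mpr ⟨hi.symm, Finset.mem_univ _⟩), mul_zero]
    · simp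
  set sa := ∑ i, C (g i * a i) * p i with hsa
  set sb := ∑ i, C (g i * b i) * p i with hsb
  have h1 : sa * A + sb * B = 0 := by
    have h2 : Lagrange.nodal Finset.univ v * ∑ i, g i • F i = 0 := by rw [hg, mul_zero]
    rw [← h2, Finset.mul_sum, hsa, hsb, Finset.sum_mul, Finset.sum_mul, ← Finset.sum_add_distrib]
    refine Finset.sum_congr rfl fun i _ => ?_
    rw [hp1 i, smul_eq_C_mul, C_mul, C_mul]
    linear_combination (-(C (g i) * p i)) * hF i
  have hB0 : B ≠ 0 := by rintro rfl; simp at hB; omega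
  have h2 : sa = 0 := by
    refine eq_zero_of_dvd_of_natDegree_lt (p := B) ?_ ?_
    · refine hcop.symm.dvd_of_dvd_mul_right ⟨-sb, ?_⟩
      linear_combination h1
    · refine lt_of_le_of_lt (natDegree_sum_le_of_forall_le _ _ (n := N - 1) fun i _ => ?_) (by omega)
      exact (natDegree_C_mul_le _ _).trans (hp2 i).le
  have h3 : sb = 0 := by
    rw [h2, zero_mul, zero_add] at h1
    exact (mul_eq_zero.mp h1).resolve_right hB0
  intro c
  rcases hab c with h | h
  · exact (mul_eq_zero.mp (hev _ c h2)).resolve_right h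
  · exact (mul_eq_zero.mp (hev _ c h3)).resolve_right h

lemma bez_step (W : Submodule ℚ ℚ[X]) [FiniteDimensional ℚ W] {A B : ℚ[X]} (hcop : IsCoprime A B)
    {N s : ℕ} (hB : B.natDegree = N) (hN : 1 ≤ N) (hA : A.natDegree ≤ N) (hAW : A ∈ W)
    (hBW : ∀ i ≤ s, X ^ i * B ∈ W) (hdim : Module.finrank ℚ W < N + s + 1)
    (hsig : Module.finrank ℚ (sig W) ≤ Module.finrank ℚ W + 2) :
    Module.finrank ℚ W + 2 ≤ Module.finrank ℚ (sig W) ∧ ∃ c : ℕ, c < N ∧ ∀ y ∈ sig W,
      ∃ F ∈ W, ∃ a b : ℚ, y = (X - C (c : ℚ)) * F + C a * A + C b * B := by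
  classical
  have hB0 : B ≠ 0 := by rintro rfl; simp at hB; omega
  have hc : ∃ c : Fin N, ∀ F ∈ W, ∀ a b : ℚ, (X - C ((c : ℕ) : ℚ)) * F = C a * A + C b * B →
      a = 0 ∧ b = 0 := by
    by_contra hcon
    push Not at hcon
    choose F hFW a b hF hab using hcon
    have hli := bez_indep hcop hB hN F a b (fun c => by
      by_cases h : a c = 0
      · exact Or.inr (hab c h)
      · exact Or.inl h) hF
    have hle : Submodule.span ℚ (Set.range F) ≤ degreeLT ℚ N := by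
      rw [Submodule.span_le]
      rintro _ ⟨c, rfl⟩
      have h0 : F c ≠ 0 := hli.ne_zero c
      have h1 := congrArg natDegree (hF c)
      rw [natDegree_mul (X_sub_C_ne_zero _) h0, natDegree_X_sub_C] at h1
      have h2 : (C (a c) * A + C (b c) * B).natDegree ≤ N :=
        (natDegree_add_le _ _).trans (max_le ((natDegree_C_mul_le _ _).trans hA)
          ((natDegree_C_mul_le _ _).trans hB.le))
      rw [SetLike.mem_coe, mem_degreeLT, degree_eq_natDegree h0]
      exact_mod_cast (by omega : (F c).natDegree < N)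
    have heq : Submodule.span ℚ (Set.range F) = degreeLT ℚ N := by
      apply Submodule.eq_of_le_of_finrank_le hle
      rw [finrank_span_eq_card hli, finrank_degreeLT', Fintype.card_fin]
    have hfull : ∀ i ≤ s + 1, degreeLT ℚ (N + i) ≤ W := by
      intro i
      induction i with
      | zero =>
        intro _
        rw [add_zero, ← heq, Submodule.span_le]
        rintro _ ⟨c, rfl⟩
        exact hFW c
      | succ i ih =>
        intro hi
        have h1 := ih (by omega)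
        apply degreeLT_le_of_X_pow
        intro k hk
        rcases (show k ≤ N + i by omega).lt_or_eq with h2 | h2
        · apply h1
          rw [mem_degreeLT, degree_X_pow]
          exact_mod_cast h2
        · set P := X ^ i * B with hP
          have hP0 : P ≠ 0 := mul_ne_zero (pow_ne_zero _ X_ne_zero) hB0
          have hPd : P.natDegree = k := by
            rw [hP, natDegree_X_pow_mul _ hB0, hB, h2]
          have h7 : P.eraseLead ∈ W := by
            apply h1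
            rw [mem_degreeLT]
            refine (degree_eraseLead_lt hP0).trans_le ?_
            rw [degree_eq_natDegree hP0, hPd, h2]
          have h8 := W.sub_mem (hBW i (by omega)) h7
          have h9 : P - P.eraseLead = C P.leadingCoeff * X ^ k := by
            rw [← hPd]
            linear_combination (P.eraseLead_add_C_mul_X_pow).symm
          have h10 := W.smul_mem P.leadingCoeff⁻¹ h8
          rwa [← hP, h9, smul_eq_C_mul, ← mul_assoc, ← C_mul,
            inv_mul_cancel₀ (leadingCoeff_ne_zero.mpr hP0), C_1, one_mul] at h10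
    have h1 := Submodule.finrank_mono (hfull (s + 1) le_rfl)
    rw [finrank_degreeLT'] at h1
    omega
  obtain ⟨c, hc⟩ := hc
  set M := W.map (LinearMap.mulLeft ℚ (X - C ((c : ℕ) : ℚ))) with hM
  set T := Submodule.span ℚ (Set.range ![A, B]) with hT
  have : FiniteDimensional ℚ T := FiniteDimensional.span_of_finite ℚ (Set.finite_range _)
  have hli : LinearIndependent ℚ ![A, B] := by
    rw [LinearIndependent.pair_iff]
    intro a b h
    exact hc 0 W.zero_mem a b (by rw [mul_zero, ← h, smul_eq_C_mul, smul_eq_C_mul])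
  have hf1 : Module.finrank ℚ T = 2 := by
    rw [hT, finrank_span_eq_card hli]; simp
  have hf2 : Module.finrank ℚ M = Module.finrank ℚ W := finrank_map_mul W (X_sub_C_ne_zero _)
  have hmem : ∀ z, z ∈ T ↔ ∃ a b : ℚ, a • A + b • B = z := fun z => by
    rw [hT, Matrix.range_cons_cons_empty, Submodule.mem_span_pair]
  have hinf : M ⊓ T = ⊥ := by
    rw [eq_bot_iff]
    rintro _ ⟨⟨F, hF, rfl⟩, hz⟩
    obtain ⟨a, b, h⟩ := (hmem _).mp hz
    obtain ⟨rfl, rfl⟩ := hc F hF a b (by rw [← smul_eq_C_mul, ← smul_eq_C_mul]; exact h.symm)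
    rw [← h]
    simp
  have hf3 := Submodule.finrank_sup_add_finrank_inf_eq M T
  rw [hinf, finrank_bot] at hf3
  have hBW0 : B ∈ W := by simpa using hBW 0 (Nat.zero_le _)
  have hle : M ⊔ T ≤ sig W := by
    refine sup_le ?_ ?_
    · rintro _ ⟨F, hF, rfl⟩
      rw [LinearMap.mulLeft_apply, sub_mul, ← smul_eq_C_mul]
      exact (sig W).sub_mem (Submodule.mem_sup_right ⟨F, hF, rfl⟩)
        (Submodule.mem_sup_left (W.smul_mem _ hF))
    · intro z hz
      obtain ⟨a, b, rfl⟩ := (hmem _).mp hz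
      exact Submodule.mem_sup_left (W.add_mem (W.smul_mem _ hAW) (W.smul_mem _ hBW0))
  have hf4 := Submodule.finrank_mono hle
  have heq : M ⊔ T = sig W := Submodule.eq_of_le_of_finrank_le hle (by omega)
  refine ⟨by omega, c, c.2, fun y hy => ?_⟩
  rw [← heq, Submodule.mem_sup] at hy
  obtain ⟨_, ⟨F, hF, rfl⟩, z, hz, rfl⟩ := hy
  obtain ⟨a, b, rfl⟩ := (hmem _).mp hz
  exact ⟨F, hF, a, b, by rw [smul_eq_C_mul, smul_eq_C_mul, LinearMap.mulLeft_apply, add_assoc]⟩

/-- product of linear factors -/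
noncomputable def lprod (R : Type*) [CommRing R] (l : List ℕ) : R[X] :=
  (l.map fun c : ℕ => X - C (c : R)).prod

lemma lprod_nil (R : Type*) [CommRing R] : lprod R [] = 1 := rfl

lemma lprod_cons (R : Type*) [CommRing R] (c : ℕ) (l : List ℕ) :
    lprod R (c :: l) = (X - C (c : R)) * lprod R l := rfl

lemma sig_le_degreeLT {V : Submodule ℚ ℚ[X]} {r : ℕ} (h : V ≤ degreeLT ℚ (r + 1)) :
    sig V ≤ degreeLT ℚ (r + 2) := by
  rw [← sig_degreeLT]
  exact sup_le_sup h (Submodule.map_mono h)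

/-- the complement of a space of minimal growth -/
theorem bez_span (U : Submodule ℚ ℚ[X]) [FiniteDimensional ℚ U] {A B : ℚ[X]}
    (hcop : IsCoprime A B) {N k : ℕ} (hB : B.natDegree = N) (hN : 1 ≤ N) (hA : A.natDegree ≤ N)
    (hAU : A ∈ U) (hBU : B ∈ U) (hU : U ≤ degreeLT ℚ (N + 1))
    (hk : Module.finrank ℚ U + k = N + 1)
    (hsig : Module.finrank ℚ (sig U) ≤ Module.finrank ℚ U + 2) :
    ∃ l : List ℕ, l.length = k ∧ (∀ c ∈ l, c < N) ∧ ∀ y ∈ degreeLT ℚ (N + k + 1),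
      ∃ F ∈ U, ∃ a ∈ degreeLT ℚ k, ∃ b ∈ degreeLT ℚ k, y = lprod ℚ l * F + a * A + b * B := by
  have key : ∀ s ≤ k, ∃ (W : Submodule ℚ ℚ[X]) (_ : FiniteDimensional ℚ W),
      Module.finrank ℚ W = Module.finrank ℚ U + 2 * s ∧ W ≤ degreeLT ℚ (N + s + 1) ∧
      Module.finrank ℚ (sig W) ≤ Module.finrank ℚ W + 2 ∧ A ∈ W ∧ (∀ i ≤ s, X ^ i * B ∈ W) ∧
      ∃ l : List ℕ, l.length = s ∧ (∀ c ∈ l, c < N) ∧ ∀ y ∈ W,
        ∃ F ∈ U, ∃ a ∈ degreeLT ℚ s, ∃ b ∈ degreeLT ℚ s, y = lprod ℚ l * F + a * A + b * B := by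
    intro s
    induction s with
    | zero =>
      intro _
      refine ⟨U, inferInstance, rfl, hU, hsig, hAU, fun i hi => ?_, [], rfl, by simp, ?_⟩
      · obtain rfl : i = 0 := by omega
        simpa using hBU
      · intro y hy
        exact ⟨y, hy, 0, Submodule.zero_mem _, 0, Submodule.zero_mem _, by simp [lprod_nil]⟩
    | succ s ih =>
      intro hs
      obtain ⟨W, _, h1, h2, h3, h4, h5, l, h6, h7, h8⟩ := ih (by omega)
      obtain ⟨h9, c, hc, h10⟩ := bez_step W hcop hB hN hA h4 h5 (by omega) h3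
      have h11 := sig_concave W
      refine ⟨sig W, inferInstance, by omega, sig_le_degreeLT h2, by omega,
        Submodule.mem_sup_left h4, fun i hi => ?_, c :: l, by simp [h6], ?_, ?_⟩
      · rcases i with _ | i
        · exact Submodule.mem_sup_left (h5 0 (by omega))
        · refine Submodule.mem_sup_right ⟨_, h5 i (by omega), ?_⟩
          rw [LinearMap.mulLeft_apply, pow_succ', mul_assoc]
      · intro d hd
        rcases List.mem_cons.mp hd with rfl | hd
        · exact hc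
        · exact h7 d hd
      · intro y hy
        obtain ⟨F, hF, a, b, rfl⟩ := h10 y hy
        obtain ⟨F', hF', a', ha', b', hb', rfl⟩ := h8 F hF
        have hdeg : ∀ (g : ℚ[X]) (r : ℚ), g ∈ degreeLT ℚ s →
            (X - C (c : ℚ)) * g + C r ∈ degreeLT ℚ (s + 1) := by
          intro g r hg
          rw [mem_degreeLT] at hg ⊢
          refine (degree_add_le _ _).trans_lt (max_lt ?_ ?_)
          · rw [degree_mul, degree_X_sub_C, add_comm]
            push_cast
            exact WithBot.add_lt_add_right (by simp) hg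
          · exact degree_C_le.trans_lt (by exact_mod_cast Nat.succ_pos s)
        refine ⟨F', hF', _, hdeg a' a ha', _, hdeg b' b hb', ?_⟩
        rw [lprod_cons]
        ring
  obtain ⟨W, _, h1, h2, -, -, -, l, h6, h7, h8⟩ := key k le_rfl
  refine ⟨l, h6, h7, ?_⟩
  rwa [Submodule.eq_of_le_of_finrank_le h2 (by rw [finrank_degreeLT']; omega)] at h8

end Pool.Agent.MP_06f5ad_nt

end

section

open Polynomial Matrix

namespace Pool.Agent.MP_06f5ad_nt

/-- Taylor expansion at `ξ` -/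
noncomputable def tau (ξ : ℝ) : ℚ[X] →ₐ[ℚ] ℝ[X] := aeval (X + C ξ : ℝ[X])

lemma tau_eq (ξ : ℝ) (F : ℚ[X]) : tau ξ F = taylor ξ (F.map (algebraMap ℚ ℝ)) := by
  rw [taylor_apply, comp_eq_aeval, aeval_map_algebraMap]
  rfl

lemma tau_X (ξ : ℝ) : tau ξ X = X + C ξ := aeval_X _

lemma tau_smul (ξ : ℝ) (a : ℚ) (F : ℚ[X]) : tau ξ (a • F) = (a : ℝ) • tau ξ F := by
  rw [map_smul, ← algebraMap_smul ℝ a]
  rfl

lemma tau_C (ξ : ℝ) (a : ℚ) : tau ξ (C a) = C (a : ℝ) := by
  rw [tau_eq, map_C, taylor_C]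
  rfl

lemma tau_coeff_zero (ξ : ℝ) (P : ℤ[X]) : (tau ξ (toQ P)).coeff 0 = aeval ξ P := by
  rw [tau_eq, taylor_coeff_zero, eval_map_algebraMap]
  exact aeval_map_algebraMap ℚ ξ P

lemma tau_coeff_one (ξ : ℝ) (P : ℤ[X]) : (tau ξ (toQ P)).coeff 1 = aeval ξ (derivative P) := by
  rw [tau_eq, taylor_coeff_one, derivative_map, eval_map_algebraMap, toQ, derivative_map]
  exact aeval_map_algebraMap ℚ ξ (derivative P)

lemma tau_sum (ξ : ℝ) {P : ℤ[X]} {D : ℕ} (h : P.natDegree < D) :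
    tau ξ (toQ P) = ∑ i ∈ Finset.range D, (P.coeff i : ℝ) • (X + C ξ) ^ i := by
  unfold tau
  rw [aeval_eq_sum_range' (n := D) (by rwa [natDegree_toQ])]
  refine Finset.sum_congr rfl fun i _ => ?_
  rw [← algebraMap_smul ℝ]
  simp

lemma tau_bd (ξ : ℝ) {P : ℤ[X]} {D : ℕ} (h : P.natDegree < D) :
    Bd (tau ξ (toQ P)) (D * (1 + |ξ|) ^ D * P.supNorm) := by
  rw [tau_sum ξ h]
  have := Bd.sum (Finset.range D) (F := fun i => (P.coeff i : ℝ) • (X + C ξ) ^ i)
    (M := P.supNorm * (1 + |ξ|) ^ D) fun i hi => ((Bd.lin_pow ξ i).smul _).mono (by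
      refine mul_le_mul (coeff_le P i) ?_ (by positivity) P.supNorm_nonneg
      exact pow_le_pow_right₀ (by linarith [abs_nonneg ξ]) (Finset.mem_range.mp hi).le)
  rw [Finset.card_range] at this
  exact this.mono (le_of_eq (by ring))

lemma det_int_fin (ξ : ℝ) {D : ℕ} (R : Fin D → ℤ[X]) (hdeg : ∀ i, (R i).natDegree < D)
    (h1 : LinearIndependent ℚ fun i => toQ (R i)) :
    1 ≤ |(Matrix.of fun i j : Fin D => (tau ξ (toQ (R i))).coeff j).det| := by
  classical
  set A : Matrix (Fin D) (Fin D) ℤ := Matrix.of fun i j => (R i).coeff j with hA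
  have hA0 : A.det ≠ 0 := by
    have h2 : LinearIndependent ℚ (A.map (Int.castRingHom ℚ)).row := by
      apply LinearIndependent.of_comp (ofFn D)
      convert h1 using 1
      ext1 i
      rw [← ofFn_comp_toFn_eq_id_of_natDegree_lt (n := D) (p := toQ (R i))
        (by rw [natDegree_toQ]; exact hdeg i)]
      simp only [Function.comp_apply]
      congr 1
      ext j
      simp [hA, toFn, Matrix.row]
    have h3 := Matrix.linearIndependent_rows_iff_isUnit.mp h2
    rw [Matrix.isUnit_iff_isUnit_det, ← RingHom.mapMatrix_apply, ← RingHom.map_det] at h3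
    intro h0
    rw [h0, map_zero] at h3
    exact not_isUnit_zero h3
  have hA1 : (1 : ℝ) ≤ |(A.map (Int.castRingHom ℝ)).det| := by
    rw [← RingHom.mapMatrix_apply, ← RingHom.map_det, eq_intCast]
    exact_mod_cast Int.one_le_abs hA0
  set T : Matrix (Fin D) (Fin D) ℝ := Matrix.of fun i j => ((X + C ξ) ^ (i : ℕ)).coeff j with hT
  have hTdet : T.det = 1 := by
    rw [Matrix.det_of_isLowerTriangular]
    · refine Finset.prod_eq_one fun i _ => ?_
      have h2 := ((monic_X_add_C ξ).pow i).coeff_natDegree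
      rwa [natDegree_pow_X_add_C] at h2
    · intro i j hij
      exact coeff_eq_zero_of_natDegree_lt ((natDegree_pow_X_add_C i ξ).trans_lt hij)
  have h2 : (Matrix.of fun i j : Fin D => (tau ξ (toQ (R i))).coeff j) =
      A.map (Int.castRingHom ℝ) * T := by
    ext i j
    rw [Matrix.of_apply, tau_sum ξ (hdeg i), finsetSum_coeff, Finset.sum_range, Matrix.mul_apply]
    simp [hA, hT]
  rwa [h2, Matrix.det_mul, hTdet, mul_one]

/-- coefficient matrix -/
noncomputable def cm {ι : Type} {D : ℕ} (e : ι ≃ Fin D) (R : ι → ℝ[X]) : Matrix ι ι ℝ :=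
  Matrix.of fun i j => (R i).coeff (e j)

lemma det_int (ξ : ℝ) {ι : Type} [Fintype ι] [DecidableEq ι] {D : ℕ} (e : ι ≃ Fin D)
    (R : ι → ℤ[X]) (hspan : Submodule.span ℚ (Set.range fun i => toQ (R i)) = degreeLT ℚ D)
    (hD : 0 < D) : 1 ≤ |(cm e fun i => tau ξ (toQ (R i))).det| := by
  have h1 : LinearIndependent ℚ fun i => toQ (R i) := by
    rw [linearIndependent_iff_card_eq_finrank_span, Set.finrank, hspan, finrank_degreeLT',
      Fintype.card_congr e, Fintype.card_fin]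
  have hdeg : ∀ i, (R i).natDegree < D := by
    intro i
    have h1 : toQ (R i) ∈ degreeLT ℚ D := hspan ▸ Submodule.subset_span ⟨i, rfl⟩
    rw [← natDegree_toQ]
    by_cases h0 : toQ (R i) = 0
    · rw [h0]; simpa using hD
    · exact (natDegree_lt_iff_degree_lt h0).mpr (mem_degreeLT.mp h1)
  have h2 := det_int_fin ξ (fun i => R (e.symm i)) (fun i => hdeg _) (h1.comp _ e.symm.injective)
  rw [← Matrix.det_submatrix_equiv_self e] at h2
  convert h2 using 3
  ext i j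
  simp [cm]

lemma cm_mul {ι : Type} [Fintype ι] {D : ℕ} (e : ι ≃ Fin D) (R R' : ι → ℝ[X]) (M : Matrix ι ι ℝ)
    (h : ∀ i, R i = ∑ l, M i l • R' l) : cm e R = M * cm e R' := by
  ext i j
  rw [Matrix.mul_apply, cm, Matrix.of_apply, h i, finsetSum_coeff]
  simp [cm]

/-- column weights -/
noncomputable def cw (e0 c1 c2 : ℝ) (j : ℕ) : ℝ :=
  if j = 0 then e0 * c1 else if j = 1 then c1 else if j = 2 then c2 else 1

/-- row weights -/
noncomputable def rwt (e1 c1 c2 : ℝ) (i : ℕ) : ℝ :=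
  if i = 0 then c1⁻¹ else if i = 1 then max (e1 / c1) c2⁻¹ else 1

lemma flag_entry {E : ℕ → ℝ[X]} (h2 : ∀ i, Bd (E i) 1) (h3 : ∀ i j, j < i → (E i).coeff j = 0)
    {c1 c2 : ℝ} (hc1 : 0 < c1) (hc12 : c1 ≤ c2) (hc2 : c2 ≤ 1) (he2 : |(E 2).coeff 2| ≤ c2)
    (i j l : ℕ) (hl : l ≤ j) :
    |(E i).coeff l| ≤ rwt |(E 1).coeff 1| c1 c2 i * cw |(E 0).coeff 0| c1 c2 j := by
  have hc2' : 0 < c2 := by linarith
  have hw : ∀ j, 0 ≤ cw |(E 0).coeff 0| c1 c2 j := fun j => by
    unfold cw; split_ifs <;> positivity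
  have hr : ∀ i, 0 ≤ rwt |(E 1).coeff 1| c1 c2 i := fun i => by
    unfold rwt; split_ifs <;> positivity
  by_cases hli : l < i
  · rw [h3 i l hli, abs_zero]
    exact mul_nonneg (hr i) (hw j)
  have hw1 : j ≠ 0 → c1 ≤ cw |(E 0).coeff 0| c1 c2 j := fun h => by
    unfold cw; rw [if_neg h]; split_ifs <;> linarith
  have hw2 : 2 ≤ j → c2 ≤ cw |(E 0).coeff 0| c1 c2 j := fun h => by
    unfold cw; rw [if_neg (by omega), if_neg (by omega)]; split_ifs <;> linarith
  by_cases hi0 : i = 0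
  · subst hi0
    rw [rwt, if_pos rfl, ← div_eq_inv_mul, le_div_iff₀ hc1]
    by_cases hj : j = 0
    · subst hj
      obtain rfl : l = 0 := by omega
      rw [cw, if_pos rfl]
    · have := hw1 hj
      have := h2 0 l
      nlinarith
  by_cases hi1 : i = 1
  · subst hi1
    rw [rwt, if_neg (by omega), if_pos rfl]
    by_cases hj : j = 1
    · subst hj
      obtain rfl : l = 1 := by omega
      rw [cw, if_neg (by omega), if_pos rfl, ← div_le_iff₀ hc1]
      exact le_max_left _ _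
    · refine (h2 1 l).trans (le_trans ?_ (mul_le_mul (le_max_right _ _) (hw2 (by omega)) hc2'.le
        (by positivity)))
      rw [inv_mul_cancel₀ hc2'.ne']
  rw [rwt, if_neg hi0, if_neg hi1, one_mul]
  by_cases hj : j = 2
  · subst hj
    obtain rfl : l = 2 := by omega
    obtain rfl : i = 2 := by omega
    exact he2.trans (hw2 le_rfl)
  · rw [cw, if_neg (by omega), if_neg (by omega), if_neg hj]
    exact h2 i l

lemma compl_entry {A ρ : ℝ[X]} {a r e0 c1 c2 : ℝ} (he0 : 0 ≤ e0) (hc1 : 0 < c1) (hc12 : c1 ≤ c2)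
    (hρ : Bd ρ r) (hA : Bd A a) (hA0 : |A.coeff 0| ≤ a * c1) (hA1 : |A.coeff 1| ≤ a * c2)
    {D j : ℕ} (hj : j < D) : |(X * (ρ * A)).coeff j| ≤ D * r * a * cw e0 c1 c2 j := by
  have hr := hρ.nonneg
  have ha := hA.nonneg
  rcases j with _ | j
  · rw [coeff_X_mul_zero, abs_zero, cw, if_pos rfl]
    positivity
  rw [coeff_X_mul]
  have h1 : ∀ i ≤ j, |A.coeff i| ≤ a * cw e0 c1 c2 (j + 1) := by
    intro i hi
    rw [cw, if_neg (by omega)]
    split_ifs with h1 h2
    · obtain rfl : i = 0 := by omega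
      exact hA0
    · rcases (show i = 0 ∨ i = 1 by omega) with rfl | rfl
      · exact hA0.trans (by gcongr)
      · exact hA1
    · rw [mul_one]; exact hA i
  refine (coeff_mul_le hρ j h1).trans ?_
  have h2 : (j : ℝ) + 1 ≤ D := by exact_mod_cast hj.le
  have h3 := (abs_nonneg _).trans (h1 0 (by omega))
  calc _ ≤ D * (r * (a * cw e0 c1 c2 (j + 1))) := by gcongr
    _ = _ := by ring

lemma prod_cw (e0 c1 c2 : ℝ) (D : ℕ) : ∏ j : Fin (D + 3), cw e0 c1 c2 j = e0 * c1 * c1 * c2 := by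
  rw [Fin.prod_univ_succ, Fin.prod_univ_succ, Fin.prod_univ_succ, Finset.prod_eq_one]
  · simp only [Fin.val_zero, Fin.val_succ]
    simp [cw, mul_assoc]
  · intro i _
    simp [cw]

lemma prod_rwt (e1 c1 c2 : ℝ) (u : ℕ) :
    ∏ i : Fin (u + 2), rwt e1 c1 c2 i = c1⁻¹ * max (e1 / c1) c2⁻¹ := by
  rw [Fin.prod_univ_succ, Fin.prod_univ_succ, Finset.prod_eq_one]
  · simp [rwt]
  · intro i _
    simp [rwt]

/-- the real determinant bound -/
lemma core_det {u k D : ℕ} (e : Fin (u + 2) ⊕ (Fin k ⊕ Fin k) ≃ Fin (D + 3)) (Pi A B : ℝ[X])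
    (E : ℕ → ℝ[X]) (h2 : ∀ i, Bd (E i) 1) (h3 : ∀ i j, j < i → (E i).coeff j = 0)
    (M : Matrix (Fin (u + 2)) (Fin (u + 2)) ℝ) (ca cb : Fin (u + 2) → ℝ)
    (hca : A = ∑ i, ca i • E i) (hcb : B = ∑ i, cb i • E i) (α : Fin k → ℝ) (ρ : Fin k → ℝ[X])
    {p r a b c1 c2 : ℝ} (hc1 : 0 < c1) (hc12 : c1 ≤ c2) (hc2 : c2 ≤ 1)
    (he2 : |(E 2).coeff 2| ≤ c2) (hPi : Bd Pi p) (hρ : ∀ i, Bd (ρ i) r) (hr : 0 ≤ r)
    (hA : Bd A a) (hA0 : |A.coeff 0| ≤ a * c1) (hA1 : |A.coeff 1| ≤ a * c2)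
    (hB : Bd B b) (hB0 : |B.coeff 0| ≤ b * c1) (hB1 : |B.coeff 1| ≤ b * c2) :
    |(cm e (Sum.elim (fun l => Pi * ∑ i, M l i • E i) (Sum.elim
      (fun i => (α i • Pi + X * ρ i) * A) (fun i => (α i • Pi + X * ρ i) * B)))).det| ≤
      ((D + 3).factorial : ℝ) * (((D + 3 : ℕ) : ℝ) * p) ^ (u + 2) *
        (((D + 3 : ℕ) : ℝ) * r) ^ (2 * k) * (a * b) ^ k *
        (|M.det| * (|(E 0).coeff 0| * (|(E 1).coeff 1| * c2 + c1))) := by
  classical
  rw [cm_mul e _ (Sum.elim (fun i => Pi * E i) (Sum.elim (fun i => X * (ρ i * A))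
    (fun i => X * (ρ i * B)))) (Matrix.fromBlocks M 0 (Matrix.of (Sum.elim
      (fun i l => α i * ca l) (fun i l => α i * cb l))) 1)]
  swap
  · rintro (l | i | i)
    · simp [Fintype.sum_sum_type, Finset.mul_sum]
    · simp only [Sum.elim_inr, Sum.elim_inl, Fintype.sum_sum_type, fromBlocks_apply₂₁, of_apply,
        fromBlocks_apply₂₂, Matrix.one_apply, ite_smul,
        one_smul, zero_smul, Finset.sum_ite_eq, Finset.mem_univ, if_true]
      rw [add_mul, mul_assoc]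
      congr 1
      rw [hca, Finset.mul_sum]
      refine Finset.sum_congr rfl fun l _ => ?_
      rw [mul_smul, smul_mul_assoc, mul_smul_comm]
    · simp only [Sum.elim_inr, Sum.elim_inl, Fintype.sum_sum_type, fromBlocks_apply₂₁, of_apply,
        fromBlocks_apply₂₂, Matrix.one_apply, ite_smul,
        one_smul, zero_smul, Finset.sum_ite_eq, Finset.mem_univ, if_true]
      rw [add_mul, mul_assoc]
      congr 1
      rw [hcb, Finset.mul_sum]
      refine Finset.sum_congr rfl fun l _ => ?_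
      rw [mul_smul, smul_mul_assoc, mul_smul_comm]
  rw [Matrix.det_mul, Matrix.det_fromBlocks_zero₁₂, Matrix.det_one, mul_one, abs_mul]
  set e0 := |(E 0).coeff 0| with he0
  set e1 := |(E 1).coeff 1| with he1
  set D' : ℝ := ((D + 3 : ℕ) : ℝ) with hD'
  have hp := hPi.nonneg
  have h1 := abs_det_le (cm e (Sum.elim (fun i : Fin (u + 2) => Pi * E i) (Sum.elim
    (fun i => X * (ρ i * A)) (fun i => X * (ρ i * B)))))
    (Sum.elim (fun i => D' * p * rwt e1 c1 c2 i) (Sum.elim (fun _ => D' * r * a)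
      (fun _ => D' * r * b))) (fun j => cw e0 c1 c2 (e j)) (by
      rintro (l | i | i) j
      · have h4 := fun i hi => flag_entry h2 h3 hc1 hc12 hc2 he2 l (e j) i hi
        refine (coeff_mul_le hPi (e j) h4).trans ?_
        have h5 : ((e j : ℕ) : ℝ) + 1 ≤ D' := by rw [hD']; exact_mod_cast (e j).2
        have h6 := (abs_nonneg _).trans (h4 0 (by omega))
        calc _ ≤ D' * (p * (rwt e1 c1 c2 l * cw e0 c1 c2 (e j))) := by gcongr
          _ = _ := by simp only [Sum.elim_inl]; ring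
      · exact compl_entry (abs_nonneg _) hc1 hc12 (hρ i) hA hA0 hA1 (e j).2
      · exact compl_entry (abs_nonneg _) hc1 hc12 (hρ i) hB hB0 hB1 (e j).2)
  rw [Fintype.card_congr e, Fintype.card_fin, Equiv.prod_comp e (fun j => cw e0 c1 c2 j), prod_cw,
    Fintype.prod_sum_type, Fintype.prod_sum_type] at h1
  simp only [Sum.elim_inl, Sum.elim_inr, Finset.prod_mul_distrib, prod_rwt, Finset.prod_const,
    Finset.card_univ, Fintype.card_fin] at h1
  have hc2' : 0 < c2 := by linarith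
  have he0' : 0 ≤ e0 := abs_nonneg _
  have he1' : 0 ≤ e1 := abs_nonneg _
  have h4 : c1⁻¹ * max (e1 / c1) c2⁻¹ * (e0 * c1 * c1 * c2) ≤ e0 * (e1 * c2 + c1) := by
    have h5 : max (e1 / c1) c2⁻¹ ≤ e1 / c1 + c2⁻¹ :=
      max_le (le_add_of_nonneg_right (by positivity)) (le_add_of_nonneg_left (by positivity))
    calc _ ≤ c1⁻¹ * (e1 / c1 + c2⁻¹) * (e0 * c1 * c1 * c2) := by gcongr
      _ = _ := by field_simp
  have ha := hA.nonneg
  have hb := hB.nonneg
  have hD0 : 0 ≤ D' := Nat.cast_nonneg _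
  refine (mul_le_mul_of_nonneg_left h1 (abs_nonneg _)).trans ?_
  calc _ = ((D + 3).factorial : ℝ) * (D' * p) ^ (u + 2) * (D' * r) ^ (2 * k) * (a * b) ^ k *
        (|M.det| * (c1⁻¹ * max (e1 / c1) c2⁻¹ * (e0 * c1 * c1 * c2))) := by ring
    _ ≤ _ := by gcongr

end Pool.Agent.MP_06f5ad_nt

end
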